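import Mathlib

set_option autoImplicit false
set_option linter.unusedSectionVars false

open Filter Topology Set

namespace Pool.Agent.H15

section Potential

variable {ι κ : Type*} [Fintype ι] [Nonempty ι] [Fintype κ]

/-- row maximum -/
noncomputable def rowMax (a : κ → ι → ℝ) (η : ι → ℝ) (k : κ) : ℝ :=
  Finset.univ.sup' Finset.univ_nonempty (fun i => a k i - η i)

theorem le_rowMax (a : κ → ι → ℝ) (η : ι → ℝ) (k : κ) (i : ι) : a k i - η i ≤ rowMax a η k :=
  Finset.le_sup' (fun i => a k i - η i) (Finset.mem_univ i)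

theorem rowMax_le (a : κ → ι → ℝ) (η : ι → ℝ) (k : κ) (b : ℝ) (h : ∀ i, a k i - η i ≤ b) :
    rowMax a η k ≤ b :=
  Finset.sup'_le _ _ (fun i _ => h i)

theorem continuous_rowMax (a : κ → ι → ℝ) (k : κ) : Continuous fun η => rowMax a η k := by
  unfold rowMax
  exact Continuous.finset_sup'_apply _ fun i _ => by fun_prop

/-- the Kantorovich functional -/
noncomputable def Phi (a : κ → ι → ℝ) (η : ι → ℝ) : ℝ :=
  (Fintype.card ι : ℝ) * ∑ k, rowMax a η k + (Fintype.card κ : ℝ) * ∑ i, η i

theorem continuous_Phi (a : κ → ι → ℝ) : Continuous (Phi a) := by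
  unfold Phi
  have : ∀ k, Continuous fun η => rowMax a η k := fun k => continuous_rowMax a k
  fun_prop

theorem rowMax_shift (a : κ → ι → ℝ) (η : ι → ℝ) (k : κ) (s : ℝ) :
    rowMax a (fun i => η i - s) k = rowMax a η k + s := by
  apply le_antisymm
  · refine rowMax_le _ _ _ _ fun i => ?_
    have := le_rowMax a η k i
    linarith
  · have : rowMax a η k ≤ rowMax a (fun i => η i - s) k - s := by
      refine rowMax_le _ _ _ _ fun i => ?_
      have := le_rowMax a (fun i => η i - s) k i
      linarith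
    linarith

theorem Phi_shift (a : κ → ι → ℝ) (η : ι → ℝ) (s : ℝ) :
    Phi a (fun i => η i - s) = Phi a η := by
  unfold Phi
  simp only [rowMax_shift, Finset.sum_add_distrib, Finset.sum_sub_distrib, Finset.sum_const,
    Finset.card_univ, nsmul_eq_mul]
  ring

theorem exists_min_Phi [Nonempty κ] (a : κ → ι → ℝ) : ∃ η, ∀ η', Phi a η ≤ Phi a η' := by
  classical
  -- a bound for |a|
  obtain ⟨A, hA⟩ : ∃ A : ℝ, ∀ k i, -A ≤ a k i := by
    refine ⟨∑ k, ∑ i, |a k i|, fun k i => ?_⟩
    have h1 : |a k i| ≤ ∑ i, |a k i| :=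
      Finset.single_le_sum (f := fun i => |a k i|) (fun _ _ => abs_nonneg _) (Finset.mem_univ i)
    have h2 : ∑ i, |a k i| ≤ ∑ k, ∑ i, |a k i| :=
      Finset.single_le_sum (f := fun k => ∑ i, |a k i|)
        (fun _ _ => Finset.sum_nonneg fun _ _ => abs_nonneg _) (Finset.mem_univ k)
    have h3 := neg_abs_le (a k i)
    linarith
  have hM : (0:ℝ) < Fintype.card ι := by exact_mod_cast Fintype.card_pos
  have hN : (0:ℝ) < Fintype.card κ := by exact_mod_cast Fintype.card_pos
  set M : ℝ := (Fintype.card ι : ℝ) with hMdef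
  set N : ℝ := (Fintype.card κ : ℝ) with hNdef
  set R : ℝ := max 0 ((Phi a (fun _ => 0) + M * N * A) / N + 1) with hR
  have hR0 : 0 ≤ R := le_max_left _ _
  have hcomp : IsCompact (Icc (fun _ : ι => (0:ℝ)) (fun _ => R)) := isCompact_Icc
  have hne : (Icc (fun _ : ι => (0:ℝ)) (fun _ => R)).Nonempty :=
    ⟨fun _ => 0, ⟨le_refl _, fun _ => hR0⟩⟩
  obtain ⟨η, hη, hmin⟩ := hcomp.exists_isMinOn hne (continuous_Phi a).continuousOn
  have h0mem : (fun _ : ι => (0:ℝ)) ∈ Icc (fun _ : ι => (0:ℝ)) (fun _ => R) :=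
    ⟨le_refl _, fun _ => hR0⟩
  have hη0 : Phi a η ≤ Phi a (fun _ => 0) := hmin h0mem
  refine ⟨η, fun η' => ?_⟩
  -- normalise η'
  obtain ⟨i1, hi1⟩ := Finite.exists_min η'
  rw [← Phi_shift a η' (η' i1)]
  set ζ : ι → ℝ := fun i => η' i - η' i1 with hζ
  have hζ0 : ∀ i, 0 ≤ ζ i := fun i => by simp only [hζ]; linarith [hi1 i]
  have hζi1 : ζ i1 = 0 := by simp [hζ]
  by_cases hle : ∀ i, ζ i ≤ R
  · exact hmin ⟨hζ0, hle⟩
  · push Not at hle
    obtain ⟨i2, hi2⟩ := hle
    have h1 : ∀ k, -A ≤ rowMax a ζ k := by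
      intro k
      have := le_rowMax a ζ k i1
      have := hA k i1
      linarith
    have h2 : -(N * A) ≤ ∑ k, rowMax a ζ k := by
      have : ∑ k : κ, (-A) ≤ ∑ k, rowMax a ζ k := Finset.sum_le_sum fun k _ => h1 k
      simp only [Finset.sum_const, Finset.card_univ, nsmul_eq_mul] at this
      linarith
    have h3 : R ≤ ∑ i, ζ i := by
      have : ζ i2 ≤ ∑ i, ζ i :=
        Finset.single_le_sum (fun i _ => hζ0 i) (Finset.mem_univ i2)
      linarith
    have h4 : (Phi a (fun _ => 0) + M * N * A) / N + 1 ≤ R := le_max_right _ _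
    have h5 : Phi a (fun _ => 0) + M * N * A + N ≤ N * R := by
      have := mul_le_mul_of_nonneg_left h4 hN.le
      rw [mul_add, mul_div_cancel₀ _ hN.ne'] at this
      linarith
    have h6 : Phi a ζ = M * ∑ k, rowMax a ζ k + N * ∑ i, ζ i := rfl
    rw [h6]
    have h7 : M * (-(N * A)) ≤ M * ∑ k, rowMax a ζ k := mul_le_mul_of_nonneg_left h2 hM.le
    have h8 : N * R ≤ N * ∑ i, ζ i := mul_le_mul_of_nonneg_left h3 hN.le
    nlinarith

/-- Discrete semi-discrete optimal transport: potentials for which every column is a row-argmax for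
at least the average number of rows. -/
theorem exists_potential [Nonempty κ] (a : κ → ι → ℝ) :
    ∃ η : ι → ℝ, ∀ i, Fintype.card κ ≤
      Fintype.card ι * Nat.card {k : κ // ∀ j, a k j - η j ≤ a k i - η i} := by
  classical
  obtain ⟨η, hη⟩ := exists_min_Phi a
  refine ⟨η, fun i => ?_⟩
  -- small t
  have hev : ∀ᶠ t : ℝ in 𝓝[>] 0, ∀ k, (∀ j, a k j - η j ≤ a k i - η i) ∨
      a k i - η i + t ≤ rowMax a η k := by
    rw [eventually_all]
    intro k
    by_cases hk : ∀ j, a k j - η j ≤ a k i - η i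
    · exact Eventually.of_forall fun t => Or.inl hk
    · push Not at hk
      obtain ⟨j, hj⟩ := hk
      have h1 := le_rowMax a η k j
      have h2 : (0:ℝ) < rowMax a η k - (a k i - η i) := by linarith
      have h3 : ∀ᶠ t : ℝ in 𝓝[>] 0, t < rowMax a η k - (a k i - η i) :=
        nhdsWithin_le_nhds (gt_mem_nhds h2)
      filter_upwards [h3] with t ht
      right
      linarith
  obtain ⟨t, ht, ht0⟩ := (hev.and self_mem_nhdsWithin).exists
  have ht0' : (0:ℝ) < t := ht0
  set η' : ι → ℝ := Function.update η i (η i - t) with hη'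
  have hmax : ∀ k, rowMax a η' k ≤ rowMax a η k +
      (if (∀ j, a k j - η j ≤ a k i - η i) then t else 0) := by
    intro k
    refine rowMax_le _ _ _ _ fun j => ?_
    by_cases hji : j = i
    · subst hji
      rw [hη', Function.update_self]
      have h1 := le_rowMax a η k j
      rcases ht k with h | h
      · rw [if_pos h]; linarith
      · split_ifs
        · linarith
        · linarith
    · rw [hη', Function.update_of_ne hji]
      have h1 := le_rowMax a η k j
      split_ifs <;> linarith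
  have hsum : ∑ k, rowMax a η' k ≤ ∑ k, rowMax a η k +
      (Nat.card {k : κ // ∀ j, a k j - η j ≤ a k i - η i} : ℝ) * t := by
    calc ∑ k, rowMax a η' k ≤ ∑ k, (rowMax a η k +
          (if (∀ j, a k j - η j ≤ a k i - η i) then t else 0)) :=
          Finset.sum_le_sum fun k _ => hmax k
      _ = _ := by
          rw [Finset.sum_add_distrib, ← Finset.sum_filter, Finset.sum_const, nsmul_eq_mul,
            Nat.card_eq_fintype_card, Fintype.card_subtype]
  have hsum2 : ∑ j, η' j = ∑ j, η j - t := by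
    rw [hη', Finset.sum_update_of_mem (Finset.mem_univ i)]
    rw [← Finset.sum_sdiff (Finset.subset_univ {i})]
    simp
  have h := hη η'
  unfold Phi at h
  rw [hsum2] at h
  have hM : (0:ℝ) < Fintype.card ι := by exact_mod_cast Fintype.card_pos
  have h2 := mul_le_mul_of_nonneg_left hsum hM.le
  set c : ℝ := (Nat.card {k : κ // ∀ j, a k j - η j ≤ a k i - η i} : ℝ) with hc
  have h3 : (Fintype.card κ : ℝ) * t ≤ (Fintype.card ι * c) * t := by nlinarith
  have h4 := le_of_mul_le_mul_right h3 ht0'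
  rw [hc] at h4
  exact_mod_cast h4

end Potential

end Pool.Agent.H15
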