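import Mathlib

set_option autoImplicit false

open Filter Topology Set

namespace Pool.Agent.H15

section Prox

variable {E : Type*} [NormedAddCommGroup E] [InnerProductSpace ℝ E]

/-- Firmly nonexpansive maps. -/
def FNE (F : E → E) : Prop := ∀ x y, ‖F x - F y‖ ^ 2 ≤ inner ℝ (F x - F y) (x - y)

theorem FNE.lipschitz {F : E → E} (hF : FNE F) : LipschitzWith 1 F := by
  refine LipschitzWith.of_dist_le_mul fun x y => ?_
  rw [dist_eq_norm, dist_eq_norm, NNReal.coe_one, one_mul]
  have h := hF x y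
  have h2 := real_inner_le_norm (F x - F y) (x - y)
  by_contra hlt
  push Not at hlt
  have h3 : 0 < ‖F x - F y‖ := lt_of_le_of_lt (norm_nonneg _) hlt
  nlinarith

/-- Fibres of firmly nonexpansive maps are convex. -/
theorem FNE.convex_fiber {F : E → E} (hF : FNE F) (y : E) : Convex ℝ (F ⁻¹' {y}) := by
  intro x0 h0 x1 h1 a b ha hb hab
  simp only [mem_preimage, mem_singleton_iff] at h0 h1 ⊢
  set x := a • x0 + b • x1 with hx
  have e0 : x - x0 = b • (x1 - x0) := by
    rw [hx, smul_sub]
    have : x0 = a • x0 + b • x0 := by rw [← add_smul, hab, one_smul]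
    nth_rewrite 2 [this]
    abel
  have e1 : x - x1 = -(a • (x1 - x0)) := by
    rw [hx, smul_sub]
    have : x1 = a • x1 + b • x1 := by rw [← add_smul, hab, one_smul]
    nth_rewrite 2 [this]
    abel
  have k0 := hF x x0
  have k1 := hF x x1
  rw [h0, e0, inner_smul_right] at k0
  rw [h1, e1, inner_neg_right, inner_smul_right] at k1
  have : ‖F x - y‖ ^ 2 ≤ 0 := by
    by_cases hs : 0 ≤ inner ℝ (F x - y) (x1 - x0)
    · nlinarith
    · push Not at hs
      nlinarith
  have h2 : ‖F x - y‖ = 0 := by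
    have := norm_nonneg (F x - y)
    nlinarith
  exact sub_eq_zero.mp (norm_eq_zero.mp h2)

end Prox

section MaxAff

variable {E : Type*} [NormedAddCommGroup E] [InnerProductSpace ℝ E]
variable {ι : Type*} [Fintype ι] [Nonempty ι]

/-- maximum of finitely many affine functions -/
noncomputable def maxAff (p : ι → E) (c : ι → ℝ) (y : E) : ℝ :=
  Finset.univ.sup' Finset.univ_nonempty (fun i => inner ℝ (p i) y + c i)

theorem le_maxAff (p : ι → E) (c : ι → ℝ) (y : E) (i : ι) :
    inner ℝ (p i) y + c i ≤ maxAff p c y :=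
  Finset.le_sup' (fun i => inner ℝ (p i) y + c i) (Finset.mem_univ i)

theorem maxAff_le (p : ι → E) (c : ι → ℝ) (y : E) (a : ℝ)
    (h : ∀ i, inner ℝ (p i) y + c i ≤ a) : maxAff p c y ≤ a :=
  Finset.sup'_le _ _ (fun i _ => h i)

theorem exists_eq_maxAff (p : ι → E) (c : ι → ℝ) (y : E) :
    ∃ i, maxAff p c y = inner ℝ (p i) y + c i := by
  obtain ⟨i, _, hi⟩ := Finset.exists_mem_eq_sup' Finset.univ_nonempty
    (fun i => inner ℝ (p i) y + c i)
  exact ⟨i, hi⟩

theorem continuous_maxAff (p : ι → E) (c : ι → ℝ) : Continuous (maxAff p c) := by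
  unfold maxAff
  exact Continuous.finset_sup'_apply _ fun i _ => by fun_prop

theorem maxAff_convex (p : ι → E) (c : ι → ℝ) (y z : E) (t : ℝ) (h0 : 0 ≤ t) (h1 : t ≤ 1) :
    maxAff p c (y + t • (z - y)) ≤ (1 - t) * maxAff p c y + t * maxAff p c z := by
  refine maxAff_le _ _ _ _ fun i => ?_
  have hy := le_maxAff p c y i
  have hz := le_maxAff p c z i
  rw [inner_add_right, inner_smul_right, inner_sub_right]
  nlinarith

/-- `y` is a proximal point of `x` -/
def IsProx (p : ι → E) (c : ι → ℝ) (x y : E) : Prop :=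
  ∀ z, maxAff p c y + inner ℝ (x - y) (z - y) ≤ maxAff p c z

theorem exists_isProx [FiniteDimensional ℝ E] (p : ι → E) (c : ι → ℝ) (x : E) :
    ∃ y, IsProx p c x y := by
  classical
  have hcont : Continuous fun y => maxAff p c y + ‖y - x‖ ^ 2 / 2 := by
    have := continuous_maxAff p c
    fun_prop
  have hlim : Tendsto (fun y => maxAff p c y + ‖y - x‖ ^ 2 / 2) (cocompact E) atTop := by
    obtain ⟨i0⟩ := ‹Nonempty ι›
    -- lower bound
    have hlow : ∀ y, ‖y‖ - (‖p i0‖ + ‖x‖ + 1) ^ 2 - |c i0| ≤ maxAff p c y + ‖y - x‖ ^ 2 / 2 := by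
      intro y
      have h1 := le_maxAff p c y i0
      have h2 : -(‖p i0‖ * ‖y‖) ≤ inner ℝ (p i0) y := by
        have := abs_real_inner_le_norm (p i0) y
        exact (abs_le.mp this).1
      have h3 : ‖y‖ ≤ ‖y - x‖ + ‖x‖ := by
        have := norm_add_le (y - x) x
        simpa using this
      have h4 : -|c i0| ≤ c i0 := neg_abs_le _
      have h5 := norm_nonneg (p i0)
      have h6 := norm_nonneg (y - x)
      have h7 := norm_nonneg x
      have h8 := norm_nonneg y
      nlinarith [sq_nonneg (‖y - x‖ - (‖p i0‖ + 1)), mul_le_mul_of_nonneg_left h3 h5]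
    refine tendsto_atTop_mono hlow ?_
    have : Tendsto (fun y : E => ‖y‖) (cocompact E) atTop := tendsto_norm_cocompact_atTop
    exact tendsto_atTop_add_const_right _ _ (tendsto_atTop_add_const_right _ _ this)
  obtain ⟨y, hy⟩ := hcont.exists_forall_le hlim
  refine ⟨y, fun z => ?_⟩
  -- variational inequality
  have key : ∀ t : ℝ, 0 < t → t ≤ 1 →
      maxAff p c y + inner ℝ (x - y) (z - y) - maxAff p c z ≤ t * (‖z - y‖ ^ 2 / 2) := by
    intro t ht0 ht1
    have h1 := hy (y + t • (z - y))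
    have h2 := maxAff_convex p c y z t ht0.le ht1
    have h3 : ‖y + t • (z - y) - x‖ ^ 2
        = ‖y - x‖ ^ 2 + 2 * t * inner ℝ (y - x) (z - y) + t ^ 2 * ‖z - y‖ ^ 2 := by
      have : y + t • (z - y) - x = (y - x) + t • (z - y) := by abel
      rw [this, norm_add_sq_real, inner_smul_right, norm_smul, mul_pow, Real.norm_eq_abs, sq_abs]
      ring
    rw [h3] at h1
    have h4 : inner ℝ (x - y) (z - y) = - inner ℝ (y - x) (z - y) := by
      rw [← inner_neg_left, neg_sub]
    rw [h4]
    have h5 : t * (maxAff p c y + - inner ℝ (y - x) (z - y) - maxAff p c z)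
        ≤ t * (t * (‖z - y‖ ^ 2 / 2)) := by nlinarith
    exact le_of_mul_le_mul_left h5 ht0
  by_contra hcon
  push Not at hcon
  set A := maxAff p c y + inner ℝ (x - y) (z - y) - maxAff p c z with hA
  have hApos : 0 < A := by rw [hA]; linarith
  set B := ‖z - y‖ ^ 2 / 2 with hB
  have hB0 : 0 ≤ B := by positivity
  set t := min 1 (A / (2 * (B + 1))) with ht
  have ht0 : 0 < t := lt_min one_pos (by positivity)
  have h1 := key t ht0 (min_le_left _ _)
  have h2 : t ≤ A / (2 * (B + 1)) := min_le_right _ _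
  have h3 : t * B ≤ A / (2 * (B + 1)) * B := mul_le_mul_of_nonneg_right h2 hB0
  have h4 : A / (2 * (B + 1)) * B ≤ A / 2 := by
    rw [div_mul_eq_mul_div, div_le_div_iff₀ (by positivity) (by norm_num)]
    nlinarith
  linarith

theorem IsProx.firm {p : ι → E} {c : ι → ℝ} {x y x' y' : E} (h : IsProx p c x y)
    (h' : IsProx p c x' y') : ‖y - y'‖ ^ 2 ≤ inner ℝ (y - y') (x - x') := by
  have h1 := h y'
  have h2 := h' y
  have h3 : inner ℝ (x - y) (y' - y) + inner ℝ (x' - y') (y - y') ≤ 0 := by linarith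
  have h4 : inner ℝ (x - y) (y' - y) = - inner ℝ (x - y) (y - y') := by
    rw [← inner_neg_right, neg_sub]
  have h5 : inner ℝ (x' - y') (y - y') - inner ℝ (x - y) (y - y')
      = ‖y - y'‖ ^ 2 - inner ℝ (y - y') (x - x') := by
    rw [← inner_sub_left, ← real_inner_self_eq_norm_sq, real_inner_comm (x - x') (y - y'),
      ← inner_sub_left]
    congr 1
    abel
  linarith

theorem IsProx.norm_sub_le {p : ι → E} {c : ι → ℝ} {x y : E} (h : IsProx p c x y) {δ : ℝ}
    (hδ : ∀ i, ‖p i‖ ≤ δ) : ‖x - y‖ ≤ δ := by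
  have h1 := h (y + (x - y))
  have h2 : maxAff p c (y + (x - y)) ≤ maxAff p c y + δ * ‖x - y‖ := by
    refine maxAff_le _ _ _ _ fun i => ?_
    have := le_maxAff p c y i
    rw [inner_add_right]
    have h3 := real_inner_le_norm (p i) (x - y)
    have h4 := mul_le_mul_of_nonneg_right (hδ i) (norm_nonneg (x - y))
    linarith
  have h3 : inner ℝ (x - y) (y + (x - y) - y) = ‖x - y‖ ^ 2 := by
    rw [← real_inner_self_eq_norm_sq]
    congr 1
    abel
  rw [h3] at h1
  by_contra hlt
  push Not at hlt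
  have hδ0 : 0 ≤ δ := by
    obtain ⟨i0⟩ := ‹Nonempty ι›
    exact le_trans (norm_nonneg _) (hδ i0)
  have h5 : 0 < ‖x - y‖ := lt_of_le_of_lt hδ0 hlt
  nlinarith

theorem IsProx.of_eq {p : ι → E} {c : ι → ℝ} {y : E} {i : ι}
    (h : maxAff p c y = inner ℝ (p i) y + c i) : IsProx p c (y + p i) y := by
  intro z
  have h1 := le_maxAff p c z i
  have h2 : inner ℝ (y + p i - y) (z - y) = inner ℝ (p i) z - inner ℝ (p i) y := by
    rw [add_sub_cancel_left, inner_sub_right]
  linarith

/-- If the maximum is attained at `y` by only one slope, then the fibre over `y` is a point. -/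
theorem IsProx.eq_of_unique {p : ι → E} {c : ι → ℝ} {x y : E} (h : IsProx p c x y) {i : ι}
    (hi : maxAff p c y = inner ℝ (p i) y + c i)
    (hu : ∀ j, p j ≠ p i → inner ℝ (p j) y + c j < inner ℝ (p i) y + c i) :
    x = y + p i := by
  -- near y, maxAff = the i-th affine function
  have hev : ∀ᶠ t : ℝ in 𝓝[>] 0, ∀ j, inner ℝ (p j) (y + t • (x - y - p i)) + c j
      ≤ inner ℝ (p i) (y + t • (x - y - p i)) + c i := by
    rw [eventually_all]
    intro j
    by_cases hj : p j = p i
    · have h1 := le_maxAff p c y j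
      rw [hi, hj] at h1
      refine Eventually.of_forall fun t => ?_
      rw [hj]
      linarith
    · have h1 := hu j hj
      have hc : Continuous fun t : ℝ => inner ℝ (p i) (y + t • (x - y - p i)) + c i
          - (inner ℝ (p j) (y + t • (x - y - p i)) + c j) := by fun_prop
      have h2 : 0 < inner ℝ (p i) (y + (0:ℝ) • (x - y - p i)) + c i
          - (inner ℝ (p j) (y + (0:ℝ) • (x - y - p i)) + c j) := by
        simp only [zero_smul, add_zero]; linarith
      have h3 := (hc.tendsto 0).eventually (lt_mem_nhds h2)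
      filter_upwards [nhdsWithin_le_nhds h3] with t ht
      linarith
  obtain ⟨t, ht, ht0⟩ := (hev.and self_mem_nhdsWithin).exists
  have ht0' : (0:ℝ) < t := ht0
  have h1 := h (y + t • (x - y - p i))
  have h2 : maxAff p c (y + t • (x - y - p i)) ≤ inner ℝ (p i) (y + t • (x - y - p i)) + c i :=
    maxAff_le _ _ _ _ ht
  have h3 : inner ℝ (x - y) (y + t • (x - y - p i) - y) = t * inner ℝ (x - y) (x - y - p i) := by
    rw [add_sub_cancel_left, inner_smul_right]
  have h4 : inner ℝ (p i) (y + t • (x - y - p i)) = inner ℝ (p i) y + t * inner ℝ (p i) (x - y - p i) := by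
    rw [inner_add_right, inner_smul_right]
  rw [h3] at h1
  rw [h4] at h2
  have h5 : t * inner ℝ (x - y) (x - y - p i) ≤ t * inner ℝ (p i) (x - y - p i) := by linarith
  have h6 := le_of_mul_le_mul_left h5 ht0'
  have h7 : inner ℝ (x - y - p i) (x - y - p i) ≤ 0 := by
    rw [inner_sub_left (x - y)]; linarith
  rw [real_inner_self_eq_norm_sq] at h7
  have h8 : ‖x - y - p i‖ = 0 := by
    have := norm_nonneg (x - y - p i)
    nlinarith
  have h9 := norm_eq_zero.mp h8
  rw [sub_sub, sub_eq_zero] at h9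
  exact h9

end MaxAff

end Pool.Agent.H15
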