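import Mathlib
import Pool.Agent.H15.Prox
import Pool.Agent.H15.Potential

set_option autoImplicit false
set_option linter.unusedSectionVars false

open Filter Topology Set

namespace Pool.Agent.H15

/-- number of grid points close to a given one -/
theorem card_close (T : ℕ) (s : ℝ) (hs : 0 ≤ s) (a0 : Fin T) :
    (Nat.card {a : Fin T // |((a : ℕ) : ℝ) - ((a0 : ℕ) : ℝ)| ≤ s} : ℝ) ≤ 2 * s + 1 := by
  classical
  have h1 : Nat.card {a : Fin T // |((a : ℕ) : ℝ) - ((a0 : ℕ) : ℝ)| ≤ s}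
      ≤ (Finset.Icc (-⌊s⌋) ⌊s⌋).card := by
    rw [Nat.card_eq_fintype_card, Fintype.card_subtype]
    refine Finset.card_le_card_of_injOn (fun a : Fin T => ((a : ℕ) : ℤ) - ((a0 : ℕ) : ℤ)) ?_ ?_
    · intro a ha
      simp only [Finset.coe_filter, Finset.mem_univ, true_and, Set.mem_ofPred_eq] at ha
      simp only [Finset.coe_Icc, mem_Icc]
      rw [abs_le] at ha
      constructor
      · rw [neg_le, Int.le_floor]
        push_cast
        linarith [ha.1]
      · rw [Int.le_floor]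
        push_cast
        linarith [ha.2]
    · intro a _ b _ hab
      simp only at hab
      apply Fin.ext
      omega
  have h2 : ((Finset.Icc (-⌊s⌋) ⌊s⌋).card : ℝ) ≤ 2 * s + 1 := by
    rw [Int.card_Icc]
    have h3 : (0:ℤ) ≤ ⌊s⌋ := Int.floor_nonneg.mpr hs
    have h4 : ((⌊s⌋ + 1 - -⌊s⌋).toNat : ℝ) = 2 * (⌊s⌋ : ℝ) + 1 := by
      have : ((⌊s⌋ + 1 - -⌊s⌋).toNat : ℤ) = 2 * ⌊s⌋ + 1 := by
        rw [Int.toNat_of_nonneg (by omega)]; ring
      exact_mod_cast this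
    rw [h4]
    have := Int.floor_le s
    linarith
  have h1' : (Nat.card {a : Fin T // |((a : ℕ) : ℝ) - ((a0 : ℕ) : ℝ)| ≤ s} : ℝ)
      ≤ ((Finset.Icc (-⌊s⌋) ⌊s⌋).card : ℝ) := by exact_mod_cast h1
  linarith

abbrev Plane := EuclideanSpace ℝ (Fin 2)

/-- grid of slopes -/
noncomputable def slope (g : ℝ) (T : ℕ) (k : Fin T × Fin T) : Plane :=
  !₂[g * ((k.1 : ℕ) : ℝ), g * ((k.2 : ℕ) : ℝ)]

theorem norm_slope_sub_sq (g : ℝ) (T : ℕ) (k l : Fin T × Fin T) :
    ‖slope g T k - slope g T l‖ ^ 2 =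
      (g * (((k.1 : ℕ) : ℝ) - ((l.1 : ℕ) : ℝ))) ^ 2 + (g * (((k.2 : ℕ) : ℝ) - ((l.2 : ℕ) : ℝ))) ^ 2 := by
  rw [EuclideanSpace.norm_sq_eq, Fin.sum_univ_two]
  simp only [slope, PiLp.sub_apply, Real.norm_eq_abs, sq_abs]
  simp
  ring

theorem norm_slope_le (g δ : ℝ) (T : ℕ) (hg : 0 ≤ g) (hT : g * T ≤ δ) (k : Fin T × Fin T) :
    ‖slope g T k‖ ≤ 2 * δ := by
  have h1 : ((k.1 : ℕ) : ℝ) ≤ T := by exact_mod_cast k.1.2.le
  have h2 : ((k.2 : ℕ) : ℝ) ≤ T := by exact_mod_cast k.2.2.le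
  have h3 : g * ((k.1 : ℕ) : ℝ) ≤ δ := le_trans (mul_le_mul_of_nonneg_left h1 hg) hT
  have h4 : g * ((k.2 : ℕ) : ℝ) ≤ δ := le_trans (mul_le_mul_of_nonneg_left h2 hg) hT
  have h5 : 0 ≤ g * ((k.1 : ℕ) : ℝ) := by positivity
  have h6 : 0 ≤ g * ((k.2 : ℕ) : ℝ) := by positivity
  have h7 : ‖slope g T k‖ ^ 2 = (g * ((k.1 : ℕ) : ℝ)) ^ 2 + (g * ((k.2 : ℕ) : ℝ)) ^ 2 := by
    rw [EuclideanSpace.norm_sq_eq, Fin.sum_univ_two]
    simp only [slope, Real.norm_eq_abs, sq_abs]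
    simp
  have h8 : ‖slope g T k‖ ^ 2 ≤ (2 * δ) ^ 2 := by rw [h7]; nlinarith
  exact abs_le_of_sq_le_sq' h8 (by linarith) |>.2

/-- the number of slopes near a given slope -/
theorem card_slope_close (g : ℝ) (T : ℕ) (hg : 0 < g) (ρ : ℝ) (hρ : 0 ≤ ρ) (k0 : Fin T × Fin T) :
    (Nat.card {k : Fin T × Fin T // ‖slope g T k - slope g T k0‖ ≤ ρ} : ℝ)
      ≤ (2 * (ρ / g) + 1) ^ 2 := by
  classical
  have hs : 0 ≤ ρ / g := by positivity
  have h1 : Nat.card {k : Fin T × Fin T // ‖slope g T k - slope g T k0‖ ≤ ρ} ≤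
      Nat.card ({a : Fin T // |((a : ℕ) : ℝ) - ((k0.1 : ℕ) : ℝ)| ≤ ρ / g} ×
        {a : Fin T // |((a : ℕ) : ℝ) - ((k0.2 : ℕ) : ℝ)| ≤ ρ / g}) := by
    have hcl : ∀ k : Fin T × Fin T, ‖slope g T k - slope g T k0‖ ≤ ρ →
        |((k.1 : ℕ) : ℝ) - ((k0.1 : ℕ) : ℝ)| ≤ ρ / g ∧ |((k.2 : ℕ) : ℝ) - ((k0.2 : ℕ) : ℝ)| ≤ ρ / g := by
      intro k hk
      have h2 : ‖slope g T k - slope g T k0‖ ^ 2 ≤ ρ ^ 2 := by
        have := norm_nonneg (slope g T k - slope g T k0)
        nlinarith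
      rw [norm_slope_sub_sq] at h2
      constructor
      · have h3 : (g * (((k.1 : ℕ) : ℝ) - ((k0.1 : ℕ) : ℝ))) ^ 2 ≤ ρ ^ 2 := by nlinarith [sq_nonneg (g * (((k.2 : ℕ) : ℝ) - ((k0.2 : ℕ) : ℝ)))]
        have h4 := abs_le_of_sq_le_sq h3 hρ
        rw [abs_mul, abs_of_pos hg] at h4
        rw [le_div_iff₀ hg]; linarith
      · have h3 : (g * (((k.2 : ℕ) : ℝ) - ((k0.2 : ℕ) : ℝ))) ^ 2 ≤ ρ ^ 2 := by nlinarith [sq_nonneg (g * (((k.1 : ℕ) : ℝ) - ((k0.1 : ℕ) : ℝ)))]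
        have h4 := abs_le_of_sq_le_sq h3 hρ
        rw [abs_mul, abs_of_pos hg] at h4
        rw [le_div_iff₀ hg]; linarith
    refine Nat.card_le_card_of_injective
      (fun k : {k : Fin T × Fin T // ‖slope g T k - slope g T k0‖ ≤ ρ} =>
        ((⟨k.1.1, (hcl k.1 k.2).1⟩, ⟨k.1.2, (hcl k.1 k.2).2⟩) :
          {a : Fin T // |((a : ℕ) : ℝ) - ((k0.1 : ℕ) : ℝ)| ≤ ρ / g} ×
        {a : Fin T // |((a : ℕ) : ℝ) - ((k0.2 : ℕ) : ℝ)| ≤ ρ / g})) ?_
    intro k l hkl
    simp only [Prod.mk.injEq, Subtype.mk.injEq] at hkl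
    exact Subtype.ext (Prod.ext hkl.1 hkl.2)
  rw [Nat.card_prod] at h1
  have h2 := card_close T (ρ / g) hs k0.1
  have h3 := card_close T (ρ / g) hs k0.2
  have h4 : (Nat.card {k : Fin T × Fin T // ‖slope g T k - slope g T k0‖ ≤ ρ} : ℝ) ≤
      (Nat.card {a : Fin T // |((a : ℕ) : ℝ) - ((k0.1 : ℕ) : ℝ)| ≤ ρ / g} : ℝ) *
      (Nat.card {a : Fin T // |((a : ℕ) : ℝ) - ((k0.2 : ℕ) : ℝ)| ≤ ρ / g} : ℝ) := by
    exact_mod_cast h1
  have h5 : (0:ℝ) ≤ (Nat.card {a : Fin T // |((a : ℕ) : ℝ) - ((k0.2 : ℕ) : ℝ)| ≤ ρ / g} : ℝ) := by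
    positivity
  nlinarith

/-- The finite collapse step. -/
theorem step {ι : Type*} [Fintype ι] [Nonempty ι] (X : ι → Plane) (r δ : ℝ) (hr : 0 < r)
    (hδ : 0 < δ) (hM : 64 * (Fintype.card ι : ℝ) * r ^ 2 ≤ δ ^ 2) :
    ∃ F : Plane → Plane, FNE F ∧ (∀ x, ‖x - F x‖ ≤ 2 * δ) ∧
      (∀ y, ∃ x, F x = y ∧ ∀ i, x ∉ Metric.closedBall (X i) r) ∧
      ∃ L : Finset (Plane × ℝ), (∀ l ∈ L, l.1 ≠ 0) ∧
        ∀ x, (∃ i, x ∈ Metric.closedBall (X i) r) → ∃ l ∈ L, inner ℝ l.1 (F x) = l.2 := by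
  classical
  set M : ℕ := Fintype.card ι with hMdef
  have hM1 : 0 < M := Fintype.card_pos
  set T : ℕ := 2 * M + 1 with hT
  have hTpos : (0:ℝ) < (T:ℝ) := by rw [hT]; positivity
  have : Nonempty (Fin T × Fin T) := ⟨(⟨0, by omega⟩, ⟨0, by omega⟩)⟩
  set g : ℝ := δ / T with hg
  have hgpos : 0 < g := by positivity
  obtain ⟨η, hη⟩ := exists_potential (fun (k : Fin T × Fin T) (i : ι) => inner ℝ (slope g T k) (X i))
  set c : Fin T × Fin T → ℝ :=
    fun k => - rowMax (fun (k : Fin T × Fin T) (i : ι) => inner ℝ (slope g T k) (X i)) η k with hc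
  set c' : Fin T × Fin T → ℝ := fun k => c k + ‖slope g T k‖ ^ 2 / 2 with hc'
  -- no contact
  have hno : ∀ (k0 : Fin T × Fin T) (x : Plane),
      (∀ k, inner ℝ (slope g T k) x + c k + ‖slope g T k - slope g T k0‖ ^ 2 / 2
        ≤ inner ℝ (slope g T k0) x + c k0) → ∀ i, x ∉ Metric.closedBall (X i) r := by
    intro k0 x hx i hxi
    rw [Metric.mem_closedBall, dist_eq_norm] at hxi
    have hsub : ∀ k, (∀ j, inner ℝ (slope g T k) (X j) - η j ≤ inner ℝ (slope g T k) (X i) - η i) →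
        ‖slope g T k - slope g T k0‖ ≤ 2 * r := by
      intro k hk
      have h1 : - c k ≤ inner ℝ (slope g T k) (X i) - η i := by
        simp only [hc, neg_neg]
        exact rowMax_le _ _ _ _ hk
      have h2 : inner ℝ (slope g T k0) (X i) - η i ≤ - c k0 := by
        simp only [hc, neg_neg]
        exact le_rowMax (fun (k : Fin T × Fin T) (i : ι) => inner ℝ (slope g T k) (X i)) η k0 i
      have h3 := hx k
      have h4 : ‖slope g T k - slope g T k0‖ ^ 2 / 2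
          ≤ inner ℝ (slope g T k0 - slope g T k) (x - X i) := by
        rw [inner_sub_left, inner_sub_right, inner_sub_right]
        linarith
      have h5 := real_inner_le_norm (slope g T k0 - slope g T k) (x - X i)
      rw [norm_sub_rev (slope g T k0)] at h5
      have h6 := norm_nonneg (slope g T k - slope g T k0)
      have h7 := mul_le_mul_of_nonneg_left hxi h6
      by_contra hlt
      push Not at hlt
      nlinarith
    have hcard : Nat.card {k : Fin T × Fin T // ∀ j, inner ℝ (slope g T k) (X j) - η j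
        ≤ inner ℝ (slope g T k) (X i) - η i} ≤
        Nat.card {k : Fin T × Fin T // ‖slope g T k - slope g T k0‖ ≤ 2 * r} := by
      refine Nat.card_le_card_of_injective
        (fun k => ⟨k.1, hsub k.1 k.2⟩) ?_
      intro k l hkl
      simp only [Subtype.mk.injEq] at hkl
      exact Subtype.ext hkl
    have h1 := hη i
    have h2 := card_slope_close g T hgpos (2 * r) (by positivity) k0
    rw [Fintype.card_prod, Fintype.card_fin] at h1
    have h3 : (T:ℝ) * T ≤ M * (2 * (2 * r / g) + 1) ^ 2 := by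
      have h4 : (T:ℝ) * T ≤ M * (Nat.card {k : Fin T × Fin T // ∀ j,
        inner ℝ (slope g T k) (X j) - η j ≤ inner ℝ (slope g T k) (X i) - η i} : ℝ) := by
        exact_mod_cast h1
      have h5 : (Nat.card {k : Fin T × Fin T // ∀ j,
        inner ℝ (slope g T k) (X j) - η j ≤ inner ℝ (slope g T k) (X i) - η i} : ℝ) ≤
        (2 * (2 * r / g) + 1) ^ 2 := le_trans (by exact_mod_cast hcard) h2
      exact le_trans h4 (mul_le_mul_of_nonneg_left h5 (by positivity))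
    have h4 : 2 * (2 * r / g) = 4 * r * T / δ := by
      rw [hg]; field_simp; ring
    rw [h4] at h3
    have h5 : (4 * r * T / δ + 1) ^ 2 ≤ 2 * ((4 * r * T / δ) ^ 2 + 1) := by
      nlinarith [sq_nonneg (4 * r * T / δ - 1)]
    have h6 : (M:ℝ) * (4 * r * T / δ) ^ 2 ≤ T ^ 2 / 4 := by
      rw [div_pow, ← mul_div_assoc, div_le_iff₀ (by positivity)]
      nlinarith [sq_nonneg (T:ℝ)]
    have hMr : (0:ℝ) < M := by exact_mod_cast hM1
    have h7 : (T:ℝ) = 2 * M + 1 := by rw [hT]; push_cast; ring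
    nlinarith [mul_le_mul_of_nonneg_left h5 hMr.le]
  -- contact from argmax
  have hcontact : ∀ (y : Plane) (k0 : Fin T × Fin T),
      maxAff (slope g T) c' y = inner ℝ (slope g T k0) y + c' k0 →
      ∀ i, y + slope g T k0 ∉ Metric.closedBall (X i) r := by
    intro y k0 hk0
    apply hno k0
    intro k
    have h1 := le_maxAff (slope g T) c' y k
    rw [hk0] at h1
    simp only [hc'] at h1
    rw [inner_add_right, inner_add_right, real_inner_self_eq_norm_sq, norm_sub_sq_real]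
    linarith
  -- the map
  choose F hF using fun x => exists_isProx (slope g T) c' x
  refine ⟨F, fun x y => (hF x).firm (hF y), fun x => ?_, fun y => ?_, ?_⟩
  · exact (hF x).norm_sub_le fun k => norm_slope_le g δ T hgpos.le (by rw [hg]; field_simp; exact le_refl _) k
  · obtain ⟨k0, hk0⟩ := exists_eq_maxAff (slope g T) c' y
    refine ⟨y + slope g T k0, ?_, hcontact y k0 hk0⟩
    have h1 := (hF (y + slope g T k0)).firm (IsProx.of_eq hk0)
    rw [sub_self, inner_zero_right] at h1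
    have h2 : ‖F (y + slope g T k0) - y‖ = 0 := by
      have := norm_nonneg (F (y + slope g T k0) - y)
      nlinarith
    exact sub_eq_zero.mp (norm_eq_zero.mp h2)
  · refine ⟨(Finset.univ.filter (fun jk : (Fin T × Fin T) × (Fin T × Fin T) =>
      slope g T jk.1 ≠ slope g T jk.2)).image
        (fun jk => (slope g T jk.1 - slope g T jk.2, c' jk.2 - c' jk.1)), ?_, ?_⟩
    · intro l hl
      simp only [Finset.mem_image, Finset.mem_filter, Finset.mem_univ, true_and] at hl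
      obtain ⟨jk, hjk, rfl⟩ := hl
      exact sub_ne_zero.mpr hjk
    · rintro x ⟨i, hxi⟩
      obtain ⟨k0, hk0⟩ := exists_eq_maxAff (slope g T) c' (F x)
      by_cases hu : ∀ j, slope g T j ≠ slope g T k0 →
          inner ℝ (slope g T j) (F x) + c' j < inner ℝ (slope g T k0) (F x) + c' k0
      · exfalso
        have h1 := (hF x).eq_of_unique hk0 hu
        exact hcontact (F x) k0 hk0 i (h1 ▸ hxi)
      · push Not at hu
        obtain ⟨j, hj1, hj2⟩ := hu
        have h1 := le_maxAff (slope g T) c' (F x) j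
        rw [hk0] at h1
        refine ⟨(slope g T j - slope g T k0, c' k0 - c' j), ?_, ?_⟩
        · simp only [Finset.mem_image, Finset.mem_filter, Finset.mem_univ, true_and]
          exact ⟨(j, k0), hj1, rfl⟩
        · simp only
          rw [inner_sub_left]
          linarith

end Pool.Agent.H15
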