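import Mathlib
import Pool.Agent.H15.Step

set_option autoImplicit false
set_option linter.unusedSectionVars false

open Filter Topology Set MeasureTheory

namespace Pool.Agent.H15

/-- half-open grid cell -/
def cell (h : ℝ) (k : ℤ × ℤ) : Set Plane :=
  {x | (k.1 : ℝ) * h ≤ x 0 ∧ x 0 < ((k.1 : ℝ) + 1) * h ∧ (k.2 : ℝ) * h ≤ x 1 ∧ x 1 < ((k.2 : ℝ) + 1) * h}

/-- centre of a grid cell -/
noncomputable def center (h : ℝ) (k : ℤ × ℤ) : Plane :=
  !₂[((k.1 : ℝ) + 1 / 2) * h, ((k.2 : ℝ) + 1 / 2) * h]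

theorem cell_eq (h : ℝ) (k : ℤ × ℤ) : cell h k = (WithLp.ofLp : Plane → Fin 2 → ℝ) ⁻¹'
    (Set.pi Set.univ fun i => Ico ((![(k.1 : ℝ), (k.2 : ℝ)] i) * h) ((![(k.1 : ℝ), (k.2 : ℝ)] i + 1) * h)) := by
  ext x
  simp only [cell, Set.mem_ofPred_eq, mem_preimage, Set.mem_pi, mem_univ, true_implies, mem_Ico,
    Fin.forall_fin_two]
  simp
  tauto

theorem measurableSet_cell (h : ℝ) (k : ℤ × ℤ) : MeasurableSet (cell h k) := by
  rw [cell_eq]
  exact (PiLp.volume_preserving_ofLp (Fin 2)).measurable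
    (MeasurableSet.univ_pi fun i => measurableSet_Ico)

theorem volume_cell (h : ℝ) (hh : 0 < h) (k : ℤ × ℤ) :
    volume (cell h k) = ENNReal.ofReal (h ^ 2) := by
  rw [cell_eq, (PiLp.volume_preserving_ofLp (Fin 2)).measure_preimage
    (MeasurableSet.univ_pi fun i => measurableSet_Ico).nullMeasurableSet, Real.volume_pi_Ico,
    Fin.prod_univ_two]
  simp only [Matrix.cons_val_zero, Matrix.cons_val_one]
  rw [← ENNReal.ofReal_mul (by nlinarith)]
  congr 1
  ring

theorem exists_cell (h : ℝ) (hh : 0 < h) (x : Plane) : ∃ k, x ∈ cell h k := by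
  refine ⟨(⌊x 0 / h⌋, ⌊x 1 / h⌋), ?_⟩
  have h0 := Int.floor_le (x 0 / h)
  have h0' := Int.lt_floor_add_one (x 0 / h)
  have h1 := Int.floor_le (x 1 / h)
  have h1' := Int.lt_floor_add_one (x 1 / h)
  rw [le_div_iff₀ hh] at h0 h1
  rw [div_lt_iff₀ hh] at h0' h1'
  exact ⟨h0, h0', h1, h1'⟩

theorem cell_disjoint (h : ℝ) (hh : 0 < h) {k l : ℤ × ℤ} (hkl : k ≠ l) :
    Disjoint (cell h k) (cell h l) := by
  rw [Set.disjoint_left]
  rintro x ⟨a1, a2, a3, a4⟩ ⟨b1, b2, b3, b4⟩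
  apply hkl
  have key : ∀ (m n : ℤ) (t : ℝ), (m:ℝ) * h ≤ t → t < ((n:ℝ) + 1) * h → m ≤ n := by
    intro m n t h1 h2
    have h3 : (m:ℝ) * h < ((n:ℝ) + 1) * h := lt_of_le_of_lt h1 h2
    have h4 := lt_of_mul_lt_mul_right h3 hh.le
    have h5 : m < n + 1 := by exact_mod_cast h4
    omega
  refine Prod.ext (le_antisymm (key _ _ _ a1 b2) (key _ _ _ b1 a2))
    (le_antisymm (key _ _ _ a3 b4) (key _ _ _ b3 a4))

theorem cell_subset (h : ℝ) (hh : 0 < h) (k : ℤ × ℤ) {x : Plane} (hx : x ∈ cell h k) :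
    x ∈ Metric.closedBall (center h k) h := by
  obtain ⟨a1, a2, a3, a4⟩ := hx
  rw [Metric.mem_closedBall, dist_eq_norm]
  have h1 : ‖x - center h k‖ ^ 2 = (x 0 - ((k.1 : ℝ) + 1 / 2) * h) ^ 2
      + (x 1 - ((k.2 : ℝ) + 1 / 2) * h) ^ 2 := by
    rw [EuclideanSpace.norm_sq_eq, Fin.sum_univ_two]
    simp only [center, PiLp.sub_apply, Real.norm_eq_abs, sq_abs]
    simp
  have h2 : ‖x - center h k‖ ^ 2 ≤ h ^ 2 := by
    rw [h1]
    nlinarith
  exact abs_le_of_sq_le_sq' h2 hh.le |>.2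

/-- Collapse of a region of small area (up to boundary layer `2 h`). -/
theorem collapse (O : Set Plane) (δ h : ℝ) (hδ : 0 < δ) (hh : 0 < h)
    (hO : 64 * volume O ≤ ENNReal.ofReal (δ ^ 2)) :
    ∃ F : Plane → Plane, FNE F ∧ (∀ x, ‖x - F x‖ ≤ 2 * δ) ∧
      (∀ y, ∃ x, F x = y ∧ ¬ Metric.closedBall x (2 * h) ⊆ O) ∧
      ∃ L : Finset (Plane × ℝ), (∀ l ∈ L, l.1 ≠ 0) ∧
        ∀ x, Metric.closedBall x (2 * h) ⊆ O → ∃ l ∈ L, inner ℝ l.1 (F x) = l.2 := by
  classical
  set I : Set (ℤ × ℤ) := {k | Metric.closedBall (center h k) h ⊆ O} with hI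
  have hcount : ∀ s : Finset (ℤ × ℤ), (s : Set (ℤ × ℤ)) ⊆ I →
      64 * (s.card : ℝ) * h ^ 2 ≤ δ ^ 2 := by
    intro s hs
    have h1 : ∑ k ∈ s, volume (cell h k) ≤ volume O := by
      rw [← measure_biUnion_finset]
      · apply measure_mono
        intro x hx
        simp only [mem_iUnion] at hx
        obtain ⟨k, hk, hxk⟩ := hx
        exact hs hk (cell_subset h hh k hxk)
      · intro k _ l _ hkl
        exact cell_disjoint h hh hkl
      · intro k _
        exact measurableSet_cell h k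
    simp only [volume_cell h hh, Finset.sum_const, nsmul_eq_mul] at h1
    have h2 : 64 * ((s.card : ENNReal) * ENNReal.ofReal (h ^ 2)) ≤ ENNReal.ofReal (δ ^ 2) :=
      le_trans (mul_le_mul_right h1 64) hO
    have h3 : 64 * ((s.card : ENNReal) * ENNReal.ofReal (h ^ 2))
        = ENNReal.ofReal (64 * (s.card : ℝ) * h ^ 2) := by
      rw [mul_assoc 64 (s.card : ℝ), ENNReal.ofReal_mul (by norm_num),
        ENNReal.ofReal_mul (by positivity), ENNReal.ofReal_natCast]
      norm_num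
    rw [h3] at h2
    exact (ENNReal.ofReal_le_ofReal_iff (by positivity)).mp h2
  have hfin : I.Finite := by
    by_contra hinf
    obtain ⟨n, hn⟩ := exists_nat_gt (δ ^ 2 / (64 * h ^ 2))
    obtain ⟨s, hs1, hs2⟩ := Set.Infinite.exists_subset_card_eq hinf n
    have h1 := hcount s hs1
    rw [hs2] at h1
    rw [div_lt_iff₀ (by positivity)] at hn
    nlinarith
  -- deep points lie in chosen balls
  have hdeep : ∀ x, Metric.closedBall x (2 * h) ⊆ O → ∃ k ∈ I, x ∈ Metric.closedBall (center h k) h := by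
    intro x hx
    obtain ⟨k, hk⟩ := exists_cell h hh x
    have h1 := cell_subset h hh k hk
    refine ⟨k, fun z hz => hx ?_, h1⟩
    rw [Metric.mem_closedBall] at hz h1 ⊢
    calc dist z x ≤ dist z (center h k) + dist (center h k) x := dist_triangle _ _ _
      _ ≤ h + h := by rw [dist_comm (center h k) x]; linarith
      _ = 2 * h := by ring
  by_cases hne : I.Nonempty
  · have : Fintype I := hfin.fintype
    have : Nonempty I := hne.to_subtype
    have hcard : 64 * (Fintype.card I : ℝ) * h ^ 2 ≤ δ ^ 2 := by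
      have := hcount hfin.toFinset (by simp)
      rwa [Set.Finite.card_toFinset] at this
    obtain ⟨F, hF1, hF2, hF3, L, hL1, hL2⟩ := step (fun k : I => center h k) h δ hh hδ hcard
    refine ⟨F, hF1, hF2, fun y => ?_, L, hL1, fun x hx => ?_⟩
    · obtain ⟨x, hx1, hx2⟩ := hF3 y
      refine ⟨x, hx1, fun hx => ?_⟩
      obtain ⟨k, hkI, hk⟩ := hdeep x hx
      exact hx2 ⟨k, hkI⟩ hk
    · obtain ⟨k, hkI, hk⟩ := hdeep x hx
      exact hL2 x ⟨⟨k, hkI⟩, hk⟩
  · have hno : ∀ x, ¬ Metric.closedBall x (2 * h) ⊆ O := fun x hx => by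
      obtain ⟨k, hkI, _⟩ := hdeep x hx
      exact hne ⟨k, hkI⟩
    refine ⟨id, fun x y => ?_, fun x => ?_, fun y => ⟨y, rfl, hno y⟩, ∅, by simp, fun x hx => absurd hx (hno x)⟩
    · simp only [id]
      rw [real_inner_self_eq_norm_sq]
    · simp only [id, sub_self, norm_zero]
      positivity

/-- Collapse of an arbitrary open set of small area. -/
theorem collapse_open (U : Set Plane) (hU : IsOpen U) (δ : ℝ) (hδ : 0 < δ)
    (hO : 64 * volume U ≤ ENNReal.ofReal (δ ^ 2)) :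
    ∃ F : Plane → Plane, FNE F ∧ (∀ x, ‖x - F x‖ ≤ 2 * δ) ∧ (∀ y, ∃ x, F x = y ∧ x ∉ U) := by
  have hh : ∀ m : ℕ, (0:ℝ) < 1 / ((m:ℝ) + 1) := fun m => by positivity
  choose F hF1 hF2 hF3 _ using fun m : ℕ => collapse U δ (1 / ((m:ℝ) + 1)) hδ (hh m) hO
  set 𝒰 : Ultrafilter ℕ := hyperfilter ℕ with h𝒰
  have h𝒰le : (𝒰 : Filter ℕ) ≤ atTop := by
    rw [← Nat.cofinite_eq_atTop]; exact hyperfilter_le_cofinite
  -- limits along the ultrafilter of bounded sequences
  have hlim : ∀ (u : ℕ → Plane) (a : Plane), (∀ m, ‖a - u m‖ ≤ 2 * δ) →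
      ∃ l, Tendsto u 𝒰 (𝓝 l) := by
    intro u a hu
    have hcomp : IsCompact (Metric.closedBall a (2 * δ)) := isCompact_closedBall _ _
    have hmem : ((𝒰.map u : Ultrafilter Plane) : Filter Plane) ≤ 𝓟 (Metric.closedBall a (2 * δ)) := by
      rw [le_principal_iff]
      have hev : ∀ᶠ m in (𝒰 : Filter ℕ), u m ∈ Metric.closedBall a (2 * δ) := by
        refine Eventually.of_forall fun m => ?_
        rw [Metric.mem_closedBall, dist_comm, dist_eq_norm]
        exact hu m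
      exact hev
    obtain ⟨l, _, hl⟩ := hcomp.ultrafilter_le_nhds _ hmem
    exact ⟨l, hl⟩
  choose G hG using fun x => hlim (fun m => F m x) x (fun m => hF2 m x)
  refine ⟨G, fun x y => ?_, fun x => ?_, fun y => ?_⟩
  · have h1 : Tendsto (fun m => ‖F m x - F m y‖ ^ 2) 𝒰 (𝓝 (‖G x - G y‖ ^ 2)) :=
      (((hG x).sub (hG y)).norm).pow 2
    have h2 : Tendsto (fun m => inner ℝ (F m x - F m y) (x - y)) 𝒰 (𝓝 (inner ℝ (G x - G y) (x - y))) :=
      ((hG x).sub (hG y)).inner tendsto_const_nhds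
    exact le_of_tendsto_of_tendsto' h1 h2 fun m => hF1 m x y
  · have h1 : Tendsto (fun m => ‖x - F m x‖) 𝒰 (𝓝 (‖x - G x‖)) :=
      (tendsto_const_nhds.sub (hG x)).norm
    exact le_of_tendsto' h1 fun m => hF2 m x
  · choose x hx1 hx2 using fun m => hF3 m y
    obtain ⟨l, hl⟩ := hlim x y (fun m => by
      have := hF2 m (x m)
      rw [hx1 m, norm_sub_rev] at this
      exact this)
    refine ⟨l, ?_, ?_⟩
    · have h1 : Tendsto (fun m => ‖l - x m‖) 𝒰 (𝓝 0) := by
        have := (tendsto_const_nhds (x := l)).sub hl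
        rw [sub_self] at this
        simpa using this.norm
      have h2 : Tendsto (fun m => ‖F m l - y‖) 𝒰 (𝓝 0) := by
        refine squeeze_zero (fun _ => norm_nonneg _) (fun m => ?_) h1
        have h3 := (hF1 m).lipschitz.dist_le_mul l (x m)
        rw [dist_eq_norm, dist_eq_norm, NNReal.coe_one, one_mul, hx1 m] at h3
        exact h3
      have h3 : Tendsto (fun m => ‖F m l - y‖) 𝒰 (𝓝 ‖G l - y‖) :=
        ((hG l).sub tendsto_const_nhds).norm
      have h4 := tendsto_nhds_unique h3 h2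
      exact sub_eq_zero.mp (norm_eq_zero.mp h4)
    · intro hlU
      obtain ⟨ρ, hρ, hball⟩ := Metric.isOpen_iff.mp hU l hlU
      have e1 : ∀ᶠ m in (𝒰 : Filter ℕ), x m ∈ Metric.ball l (ρ / 2) :=
        hl.eventually (Metric.ball_mem_nhds l (by positivity))
      have e2 : ∀ᶠ m : ℕ in (𝒰 : Filter ℕ), 2 * (1 / ((m:ℝ) + 1)) < ρ / 2 := by
        apply h𝒰le
        have h1 : Tendsto (fun m : ℕ => 2 * (1 / ((m:ℝ) + 1))) atTop (𝓝 (2 * 0)) :=
          (tendsto_one_div_add_atTop_nhds_zero_nat).const_mul 2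
        rw [mul_zero] at h1
        exact h1.eventually (gt_mem_nhds (by positivity))
      obtain ⟨m, hm1, hm2⟩ := (e1.and e2).exists
      apply hx2 m
      intro z hz
      apply hball
      rw [Metric.mem_ball] at hm1 ⊢
      rw [Metric.mem_closedBall] at hz
      calc dist z l ≤ dist z (x m) + dist (x m) l := dist_triangle _ _ _
        _ < ρ / 2 + ρ / 2 := by linarith
        _ = ρ := by ring

end Pool.Agent.H15
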