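import Mathlib
import Pool.Agent.H15.Collapse

set_option autoImplicit false
set_option linter.unusedSectionVars false

open Filter Topology Set MeasureTheory

namespace Pool.Agent.H15

/-- 1-Lipschitz maps of the plane do not increase area. -/
theorem volume_image_le {F : Plane → Plane} (hF : LipschitzWith 1 F) (A : Set Plane) :
    volume (F '' A) ≤ volume A := by
  have h : (volume : Measure Plane) = (Measure.euclideanHausdorffMeasure 2 : Measure Plane) :=
    (EuclideanSpace.euclideanHausdorffMeasure_eq_volume 2).symm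
  rw [h, Measure.euclideanHausdorffMeasure_def, Measure.smul_apply, Measure.smul_apply]
  have h1 := hF.hausdorffMeasure_image_le (d := ((2 : ℕ) : ℝ)) (by norm_num) A
  simp only [ENNReal.coe_one, ENNReal.one_rpow, one_mul] at h1
  gcongr

theorem isClosedMap_of_near {F : Plane → Plane} (hc : Continuous F) (d : ℝ)
    (hd : ∀ x, ‖x - F x‖ ≤ d) : IsClosedMap F := by
  have h1 : Tendsto F (cocompact Plane) (cocompact Plane) := by
    rw [← Metric.cobounded_eq_cocompact]
    rw [← tendsto_norm_atTop_iff_cobounded]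
    have h2 : ∀ x, ‖x‖ - d ≤ ‖F x‖ := by
      intro x
      have h3 := norm_sub_norm_le x (F x)
      have := hd x
      linarith
    refine tendsto_atTop_mono h2 ?_
    exact tendsto_atTop_add_const_right _ _ tendsto_norm_cobounded_atTop
  exact (isProperMap_iff_tendsto_cocompact.mpr ⟨hc, h1⟩).isClosedMap

/-- preimages of preconnected sets under closed surjective maps with preconnected fibres -/
theorem preconnected_preimage {F : Plane → Plane} (hcl : IsClosedMap F)
    (hs : Function.Surjective F) (hfib : ∀ y, IsPreconnected (F ⁻¹' {y})) {S : Set Plane}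
    (hS : IsPreconnected S) : IsPreconnected (F ⁻¹' S) := by
  rw [isPreconnected_closed_iff]
  intro t t' ht ht' hsub hne hne'
  rw [isPreconnected_closed_iff] at hS
  obtain ⟨y, hyS, ⟨x, hxt, hxy⟩, ⟨x', hxt', hxy'⟩⟩ := hS (F '' t) (F '' t') (hcl t ht) (hcl t' ht')
    (by
      intro y hy
      obtain ⟨x, rfl⟩ := hs y
      rcases hsub hy with h | h
      · exact Or.inl ⟨x, h, rfl⟩
      · exact Or.inr ⟨x, h, rfl⟩)
    (by
      obtain ⟨x, hx1, hx2⟩ := hne
      exact ⟨F x, hx1, x, hx2, rfl⟩)
    (by
      obtain ⟨x, hx1, hx2⟩ := hne'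
      exact ⟨F x, hx1, x, hx2, rfl⟩)
  have hf := hfib y
  rw [isPreconnected_closed_iff] at hf
  obtain ⟨z, hz1, hz2⟩ := hf t t' ht ht'
    (by
      intro z hz
      apply hsub
      rw [mem_preimage, mem_singleton_iff] at hz
      rw [mem_preimage, hz]
      exact hyS)
    ⟨x, hxy, hxt⟩ ⟨x', hxy', hxt'⟩
  refine ⟨z, ?_, hz2⟩
  rw [mem_preimage, mem_singleton_iff] at hz1
  rw [mem_preimage, hz1]
  exact hyS

/-- bounded part of a line lies in a segment -/
theorem line_subset_segment (u : Plane) (hu : u ≠ 0) (c R : ℝ) :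
    ∃ s : Plane × Plane, ∀ y : Plane, inner ℝ u y = c → ‖y‖ ≤ R → y ∈ segment ℝ s.1 s.2 := by
  set v : Plane := !₂[-(u 1), u 0] with hv
  have hnu : 0 < ‖u‖ := norm_pos_iff.mpr hu
  have hnsq : ‖u‖ ^ 2 = u 0 ^ 2 + u 1 ^ 2 := by
    rw [EuclideanSpace.norm_sq_eq, Fin.sum_univ_two]
    simp
  have hv0 : v 0 = -(u 1) := by simp [hv]
  have hv1 : v 1 = u 0 := by simp [hv]
  have hvsq : ‖v‖ ^ 2 = ‖u‖ ^ 2 := by
    rw [hnsq, EuclideanSpace.norm_sq_eq, Fin.sum_univ_two, hv0, hv1]
    simp
    ring
  have hnv : ‖v‖ = ‖u‖ := by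
    have h1 := norm_nonneg v
    nlinarith
  by_cases hR : 0 ≤ R
  · set T : ℝ := R / ‖u‖ with hT
    refine ⟨((c / ‖u‖ ^ 2) • u - T • v, (c / ‖u‖ ^ 2) • u + T • v), fun y hy hyR => ?_⟩
    have hiy : inner ℝ u y = u 0 * y 0 + u 1 * y 1 := by
      rw [PiLp.inner_apply, Fin.sum_univ_two]
      simp
      ring
    have hjy : inner ℝ v y = v 0 * y 0 + v 1 * y 1 := by
      rw [PiLp.inner_apply, Fin.sum_univ_two]
      simp
      ring
    set t : ℝ := inner ℝ v y / ‖u‖ ^ 2 with ht
    have hdec : y = (c / ‖u‖ ^ 2) • u + t • v := by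
      have hne : ‖u‖ ^ 2 ≠ 0 := by positivity
      ext i
      fin_cases i
      · simp only [Fin.zero_eta, PiLp.add_apply, PiLp.smul_apply, smul_eq_mul]
        rw [ht, hjy, ← hy, hiy, hv0, hv1]
        field_simp
        rw [hnsq]
        ring
      · simp only [Fin.mk_one, PiLp.add_apply, PiLp.smul_apply, smul_eq_mul]
        rw [ht, hjy, ← hy, hiy, hv0, hv1]
        field_simp
        rw [hnsq]
        ring
    have htT : |t| ≤ T := by
      rw [ht, abs_div, abs_of_pos (by positivity : 0 < ‖u‖ ^ 2), div_le_iff₀ (by positivity), hT]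
      have h1 := abs_real_inner_le_norm v y
      rw [hnv] at h1
      have h2 : R / ‖u‖ * ‖u‖ ^ 2 = ‖u‖ * R := by field_simp
      rw [h2]
      exact le_trans h1 (mul_le_mul_of_nonneg_left hyR hnu.le)
    rw [abs_le] at htT
    rcases (lt_or_eq_of_le (show 0 ≤ T from by positivity)) with hTpos | hT0
    · refine ⟨(T - t) / (2 * T), (T + t) / (2 * T), ?_, ?_, ?_, ?_⟩
      · exact div_nonneg (by linarith) (by linarith)
      · exact div_nonneg (by linarith) (by linarith)
      · field_simp; ring
      · have e1 : (T - t) / (2 * T) + (T + t) / (2 * T) = 1 := by field_simp; ring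
        have e2 : (T + t) / (2 * T) * T - (T - t) / (2 * T) * T = t := by field_simp; ring
        simp only
        calc ((T - t) / (2 * T)) • ((c / ‖u‖ ^ 2) • u - T • v)
              + ((T + t) / (2 * T)) • ((c / ‖u‖ ^ 2) • u + T • v)
            = ((T - t) / (2 * T) + (T + t) / (2 * T)) • ((c / ‖u‖ ^ 2) • u)
              + ((T + t) / (2 * T) * T - (T - t) / (2 * T) * T) • v := by
              module
          _ = y := by rw [e1, e2, one_smul]; exact hdec.symm
    · have h0 : t = 0 := by rw [← hT0] at htT; linarith [htT.1, htT.2]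
      have h1 : y = (c / ‖u‖ ^ 2) • u := by rw [hdec, h0, zero_smul, add_zero]
      simp only
      rw [← hT0, zero_smul, sub_zero, add_zero, h1]
      exact left_mem_segment ℝ _ _
  · refine ⟨(0, 0), fun y _ hyR => ?_⟩
    exact absurd (le_trans (norm_nonneg y) hyR) hR

/-- Main theorem: every compact planar set is mapped by a contraction onto a polygon, with
arbitrarily small loss of area. -/
theorem main (K : Set Plane) (hK : IsCompact K) (ε : ℝ) (hε : 0 < ε) :
    ∃ f : Plane → Plane, LipschitzWith 1 f ∧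
      (∃ S : Finset (Plane × Plane), frontier (f '' K) ⊆ ⋃ s ∈ S, segment ℝ s.1 s.2) ∧
      volume K ≤ volume (f '' K) + ENNReal.ofReal ε := by
  classical
  -- a big ball
  obtain ⟨R, hR⟩ := hK.isBounded.subset_closedBall (0 : Plane)
  set B : Set Plane := Metric.closedBall 0 R with hB
  have hBc : IsCompact B := isCompact_closedBall _ _
  have hBfin : volume B ≠ ⊤ := hBc.measure_lt_top.ne
  -- the enlargement
  have h1 : ∀ᶠ d in 𝓝 (0:ℝ), volume (Metric.cthickening d B) < volume B + ENNReal.ofReal ε := by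
    refine (tendsto_measure_cthickening_of_isCompact hBc).eventually (gt_mem_nhds ?_)
    exact ENNReal.lt_add_right hBfin (by simpa using hε)
  obtain ⟨d, hd, hd0⟩ : ∃ d, volume (Metric.cthickening d B) < volume B + ENNReal.ofReal ε ∧ 0 < d :=
    ((h1.filter_mono nhdsWithin_le_nhds).and (self_mem_nhdsWithin (s := Ioi (0:ℝ)))).exists
  set δ : ℝ := d / 4 with hδdef
  have hδ : 0 < δ := by positivity
  -- the small constant
  have hκ : 0 < ENNReal.ofReal (δ ^ 2 / 64) := by simp; positivity
  have hκ64 : 64 * ENNReal.ofReal (δ ^ 2 / 64) = ENNReal.ofReal (δ ^ 2) := by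
    have : (64 : ENNReal) = ENNReal.ofReal 64 := by norm_num
    rw [this, ← ENNReal.ofReal_mul (by norm_num)]
    congr 1
    ring
  -- thickening of K
  have hKfin : volume K ≠ ⊤ := hK.measure_lt_top.ne
  have h2 : Tendsto (fun r => volume (Metric.thickening r K)) (𝓝[>] 0) (𝓝 (volume K)) :=
    tendsto_measure_thickening_of_isClosed
      ⟨1, one_pos, (hK.isBounded.thickening (δ := 1)).measure_lt_top.ne⟩ hK.isClosed
  have h3 : ∀ᶠ r in 𝓝[>] (0:ℝ), volume (Metric.thickening r K)
      < volume K + ENNReal.ofReal (δ ^ 2 / 64) :=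
    h2.eventually (gt_mem_nhds (ENNReal.lt_add_right hKfin hκ.ne'))
  obtain ⟨r0, hr0, hr0'⟩ := (h3.and self_mem_nhdsWithin).exists
  have hr0pos : (0:ℝ) < r0 := hr0'
  obtain ⟨r, hr, hfr⟩ := exists_null_frontier_thickening (volume : Measure Plane) K hr0pos
  set W : Set Plane := Metric.thickening r K with hW
  have hWo : IsOpen W := Metric.isOpen_thickening
  have hKW : K ⊆ W := Metric.self_subset_thickening hr.1 K
  have hWvol : volume W < volume K + ENNReal.ofReal (δ ^ 2 / 64) :=
    lt_of_le_of_lt (measure_mono (Metric.thickening_mono hr.2.le K)) hr0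
  have hUvol : volume (W \ K) ≤ ENNReal.ofReal (δ ^ 2 / 64) := by
    rw [measure_sdiff hKW hK.measurableSet.nullMeasurableSet hKfin]
    exact tsub_le_iff_left.mpr hWvol.le
  have hUo : IsOpen (W \ K) := hWo.sdiff hK.isClosed
  obtain ⟨F1, hF1, hF1n, hF1s⟩ := collapse_open (W \ K) hUo δ hδ (by
    rw [← hκ64]; exact mul_le_mul_right hUvol 64)
  -- the frontier
  have hWb : Bornology.IsBounded W := hK.isBounded.thickening
  have hfrc : IsCompact (frontier W) :=
    Metric.isCompact_of_isClosed_isBounded isClosed_frontier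
      (hWb.closure.subset frontier_subset_closure)
  have hL1 : LipschitzWith 1 F1 := hF1.lipschitz
  have hN1c : IsCompact (F1 '' frontier W) := hfrc.image hL1.continuous
  have hN1v : volume (F1 '' frontier W) < ENNReal.ofReal (δ ^ 2 / 64) := by
    refine lt_of_le_of_lt (volume_image_le hL1 _) ?_
    rw [hfr]
    exact hκ
  obtain ⟨O, hOsub, hOo, hOv⟩ := Set.exists_isOpen_lt_of_lt _ _ hN1v
  obtain ⟨ρ, hρ, hρsub⟩ := hN1c.exists_cthickening_subset_open hOo hOsub
  obtain ⟨F2, hF2, hF2n, hF2s, L, hL0, hL⟩ := collapse O δ (ρ / 2) hδ (by positivity) (by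
    rw [← hκ64]; exact mul_le_mul_right hOv.le 64)
  have hL2 : LipschitzWith 1 F2 := hF2.lipschitz
  have hF1surj : Function.Surjective F1 := fun y => by
    obtain ⟨x, hx, _⟩ := hF1s y
    exact ⟨x, hx⟩
  have hF2surj : Function.Surjective F2 := fun y => by
    obtain ⟨x, hx, _⟩ := hF2s y
    exact ⟨x, hx⟩
  set F : Plane → Plane := fun x => F2 (F1 x) with hF
  have hFL : LipschitzWith 1 F := by
    have := hL2.comp hL1
    rw [one_mul] at this
    exact this
  have hFn : ∀ x, ‖x - F x‖ ≤ d := by
    intro x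
    have e1 := hF1n x
    have e2 := hF2n (F1 x)
    have e3 : x - F x = (x - F1 x) + (F1 x - F2 (F1 x)) := by simp [hF]
    rw [e3]
    have e4 := norm_add_le (x - F1 x) (F1 x - F2 (F1 x))
    have e5 : 2 * δ + 2 * δ = d := by rw [hδdef]; ring
    linarith
  -- the frontier of W goes to finitely many lines
  have hfrL : ∀ x ∈ frontier W, ∃ l ∈ L, inner ℝ l.1 (F x) = l.2 := by
    intro x hx
    apply hL
    have : Metric.closedBall (F1 x) (2 * (ρ / 2)) ⊆ Metric.cthickening ρ (F1 '' frontier W) := by
      have e : 2 * (ρ / 2) = ρ := by ring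
      rw [e]
      exact Metric.closedBall_subset_cthickening (mem_image_of_mem F1 hx) ρ
    exact this.trans hρsub
  set G : Set Plane := {y | ∃ l ∈ L, inner ℝ l.1 y = l.2} with hG
  have hGclosed : IsClosed G := by
    have : G = ⋃ l ∈ L, {y : Plane | inner ℝ l.1 y = l.2} := by
      ext y; simp [hG]
    rw [this]
    refine Set.Finite.isClosed_biUnion L.finite_toSet fun l _ => ?_
    exact isClosed_eq (by fun_prop) continuous_const
  have hFKc : IsCompact (F '' K) := hK.image hFL.continuous
  -- the frontier of the image lies in G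
  have hfront : frontier (F '' K) ⊆ G := by
    intro y hy
    by_contra hyG
    have hyK : y ∈ F '' K := hFKc.isClosed.frontier_subset hy
    obtain ⟨x0, hx0K, hx0y⟩ := hyK
    obtain ⟨s, hs, hsub⟩ := Metric.isOpen_iff.mp hGclosed.isOpen_compl y hyG
    have hpre1 : IsPreconnected (F2 ⁻¹' Metric.ball y s) :=
      preconnected_preimage (isClosedMap_of_near hL2.continuous _ hF2n) hF2surj
        (fun z => (hF2.convex_fiber z).isPreconnected) (convex_ball y s).isPreconnected
    have hpre : IsPreconnected (F1 ⁻¹' (F2 ⁻¹' Metric.ball y s)) :=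
      preconnected_preimage (isClosedMap_of_near hL1.continuous _ hF1n) hF1surj
        (fun z => (hF1.convex_fiber z).isPreconnected) hpre1
    have hsubW : F1 ⁻¹' (F2 ⁻¹' Metric.ball y s) ⊆ W := by
      refine hpre.subset_of_closure_inter_subset hWo ⟨x0, ?_, hKW hx0K⟩ ?_
      · show F2 (F1 x0) ∈ Metric.ball y s
        have : F2 (F1 x0) = y := hx0y
        rw [this]
        exact Metric.mem_ball_self hs
      · rintro z ⟨hz1, hz2⟩
        by_contra hzW
        have hzf : z ∈ frontier W := by
          rw [hWo.frontier_eq]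
          exact ⟨hz1, hzW⟩
        exact hsub hz2 (hfrL z hzf)
    have hball : Metric.ball y s ⊆ F '' K := by
      intro y' hy'
      obtain ⟨u, hu⟩ := hF2surj y'
      obtain ⟨x, hx, hxU⟩ := hF1s u
      have hxW : x ∈ W := by
        apply hsubW
        show F2 (F1 x) ∈ Metric.ball y s
        rw [hx, hu]
        exact hy'
      have hxK : x ∈ K := by
        by_contra hxK
        exact hxU ⟨hxW, hxK⟩
      exact ⟨x, hxK, by simp only [hF]; rw [hx, hu]⟩
    have hint : y ∈ interior (F '' K) := by
      rw [mem_interior]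
      exact ⟨_, hball, Metric.isOpen_ball, Metric.mem_ball_self hs⟩
    rw [frontier, Set.mem_sdiff] at hy
    exact hy.2 hint
  refine ⟨F, hFL, ?_, ?_⟩
  · -- from lines to segments
    obtain ⟨R', hR'⟩ := hFKc.isBounded.subset_closedBall (0 : Plane)
    have hseg : ∀ l : Plane × ℝ, ∃ s : Plane × Plane, l ∈ L →
        ∀ y : Plane, inner ℝ l.1 y = l.2 → ‖y‖ ≤ R' → y ∈ segment ℝ s.1 s.2 := by
      intro l
      by_cases hl : l ∈ L
      · obtain ⟨s, hs⟩ := line_subset_segment l.1 (hL0 l hl) l.2 R'
        exact ⟨s, fun _ => hs⟩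
      · exact ⟨(0, 0), fun h => absurd h hl⟩
    choose sg hsg using hseg
    refine ⟨L.image sg, fun y hy => ?_⟩
    obtain ⟨l, hl, hly⟩ := hfront hy
    have hyR : ‖y‖ ≤ R' := by
      have := hR' (hFKc.isClosed.frontier_subset hy)
      rwa [mem_closedBall_zero_iff] at this
    simp only [mem_iUnion, Finset.mem_image]
    exact ⟨sg l, ⟨l, hl, rfl⟩, hsg l hl y hly hyR⟩
  · -- area
    set B' : Set Plane := Metric.cthickening d B with hB'
    have hKB' : K ⊆ B' := hR.trans (Metric.self_subset_cthickening B)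
    have hcov : B ⊆ F '' K ∪ F '' (B' \ K) := by
      intro y hy
      obtain ⟨u, hu⟩ := hF2surj y
      obtain ⟨x, hx⟩ := hF1surj u
      have hxy : F x = y := by simp only [hF]; rw [hx, hu]
      have hxB' : x ∈ B' := by
        refine Metric.mem_cthickening_of_dist_le x y d B hy ?_
        rw [dist_eq_norm, ← hxy]
        exact hFn x
      by_cases hxK : x ∈ K
      · exact Or.inl ⟨x, hxK, hxy⟩
      · exact Or.inr ⟨x, ⟨hxB', hxK⟩, hxy⟩
    have e1 : volume B ≤ volume (F '' K) + volume (B' \ K) :=
      calc volume B ≤ volume (F '' K ∪ F '' (B' \ K)) := measure_mono hcov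
        _ ≤ volume (F '' K) + volume (F '' (B' \ K)) := measure_union_le _ _
        _ ≤ volume (F '' K) + volume (B' \ K) :=
            add_le_add_right (volume_image_le hFL _) _
    have e2 : volume (B' \ K) + volume K = volume B' := by
      rw [add_comm, measure_add_sdiff hK.measurableSet.nullMeasurableSet, union_eq_right.mpr hKB']
    have e3 : volume B' ≤ volume B + ENNReal.ofReal ε := hd.le
    -- conclude
    have hB'fin : volume (B' \ K) ≠ ⊤ := by
      have : volume (B' \ K) ≤ volume B' := measure_mono sdiff_subset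
      exact ne_top_of_le_ne_top (ne_top_of_le_ne_top (by finiteness) e3) this
    have e4 : volume (B' \ K) + volume K ≤ volume (B' \ K) + (volume (F '' K) + ENNReal.ofReal ε) := by
      rw [e2]
      calc volume B' ≤ volume B + ENNReal.ofReal ε := e3
        _ ≤ (volume (F '' K) + volume (B' \ K)) + ENNReal.ofReal ε := by gcongr
        _ = _ := by ring
    exact (ENNReal.add_le_add_iff_left hB'fin).mp e4

end Pool.Agent.H15
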