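import Pool.Agent.H15.FFCoef

set_option autoImplicit false
open Filter Topology Finset MeasureTheory

namespace Pool.Agent.H15.FF

/-- comparison of an increment with an integral of an upper bound of the derivative -/
lemma cmp {f f' φ : ℝ → ℝ} {s t : ℝ} (hst : s ≤ t) (hf : ContinuousOn f (Set.Icc s t))
    (hd : ∀ u ∈ Set.Ioo s t, HasDerivAt f (f' u) u) (hφ : Continuous φ)
    (hle : ∀ u ∈ Set.Ioo s t, f' u ≤ φ u) : f t - f s ≤ ∫ u in s..t, φ u := by
  have hint : ∀ u, HasDerivAt (fun u => ∫ w in s..u, φ w) (φ u) u := fun u =>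
    intervalIntegral.integral_hasDerivAt_right (hφ.intervalIntegrable _ _)
      (hφ.stronglyMeasurableAtFilter _ _) hφ.continuousAt
  have hcont : Continuous (fun u => ∫ w in s..u, φ w) :=
    continuous_iff_continuousAt.mpr fun u => (hint u).continuousAt
  have hanti : AntitoneOn (fun u => f u - ∫ w in s..u, φ w) (Set.Icc s t) := by
    apply antitoneOn_of_deriv_nonpos (convex_Icc s t) (hf.sub hcont.continuousOn)
    · rw [interior_Icc]
      intro u hu
      exact ((hd u hu).sub (hint u)).differentiableAt.differentiableWithinAt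
    · rw [interior_Icc]
      intro u hu
      have h := ((hd u hu).sub (hint u)).deriv
      have h2 : f' u - φ u ≤ 0 := by linarith [hle u hu]
      rw [← h] at h2
      exact h2
  have := hanti (Set.left_mem_Icc.mpr hst) (Set.right_mem_Icc.mpr hst) hst
  simp only [intervalIntegral.integral_same, sub_zero] at this
  linarith

/-- a solution, extended by a constant to negative times -/
structure Sol (v : ℕ → ℝ → ℝ) : Prop where
  nonneg : ∀ k, 1 ≤ k → ∀ t, 0 ≤ v k t
  sum : ∀ t, HasSum (fun k => v (k + 1) t) 1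
  cont : ∀ k, 1 ≤ k → Continuous (v k)
  deriv : ∀ k, 2 ≤ k → ∀ t, 0 < t → HasDerivAt (v k)
    (-(k : ℝ) * v k t + ((k : ℝ) / 2) * ∑ l ∈ Ico 1 k, v l t * v (k - l) t) t

/-- partial sums -/
def F (v : ℕ → ℝ → ℝ) (K : ℕ) (t : ℝ) : ℝ := ∑ k ∈ Ico 1 (K + 1), v k t

lemma F_eq (v : ℕ → ℝ → ℝ) (K : ℕ) (t : ℝ) : F v K t = ∑ k ∈ range K, v (k + 1) t := by
  unfold F
  rw [Finset.sum_Ico_eq_sum_range]
  simp only [Nat.add_sub_cancel]
  apply Finset.sum_congr rfl
  intro i _
  rw [add_comm]

lemma F_nonneg {v : ℕ → ℝ → ℝ} (hn : ∀ k, 1 ≤ k → ∀ t, 0 ≤ v k t) (K : ℕ) (t : ℝ) :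
    0 ≤ F v K t :=
  Finset.sum_nonneg fun k hk => hn k (Finset.mem_Ico.mp hk).1 t

lemma F_le {v : ℕ → ℝ → ℝ} (hn : ∀ k, 1 ≤ k → ∀ t, 0 ≤ v k t)
    (hs : ∀ t, HasSum (fun k => v (k + 1) t) 1) (K : ℕ) (t : ℝ) : F v K t ≤ 1 := by
  rw [F_eq]
  exact sum_le_hasSum _ (fun i _ => hn _ (by omega) t) (hs t)

lemma F_tendsto {v : ℕ → ℝ → ℝ} 
    (hs : ∀ t, HasSum (fun k => v (k + 1) t) 1) (t : ℝ) :
    Tendsto (fun K => F v K t) atTop (𝓝 1) := by
  simp only [F_eq]
  exact (hs t).tendsto_sum_nat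

lemma F_cont {v : ℕ → ℝ → ℝ} (hc : ∀ k, 1 ≤ k → Continuous (v k)) (K : ℕ) :
    Continuous (F v K) := by
  unfold F
  exact continuous_finsetSum _ fun k hk => hc k (Finset.mem_Ico.mp hk).1

lemma v_le_one {v : ℕ → ℝ → ℝ} (hn : ∀ k, 1 ≤ k → ∀ t, 0 ≤ v k t)
    (hs : ∀ t, HasSum (fun k => v (k + 1) t) 1) {k : ℕ} (hk : 1 ≤ k) (t : ℝ) : v k t ≤ 1 := by
  refine le_trans ?_ (F_le hn hs k t)
  unfold F
  exact Finset.single_le_sum (f := fun j => v j t) (fun j hj => hn j (Finset.mem_Ico.mp hj).1 t)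
    (Finset.mem_Ico.mpr ⟨hk, by omega⟩)

lemma F_split (v : ℕ → ℝ → ℝ) {K : ℕ} (hK : 1 ≤ K) (t : ℝ) :
    ∑ k ∈ Ico 2 (K + 1), v k t = F v K t - v 1 t := by
  unfold F
  rw [Finset.sum_eq_sum_Ico_succ_bot (by omega : 1 < K + 1)]
  ring

/-- the triangular double sum -/
def D (v : ℕ → ℝ → ℝ) (K : ℕ) (t : ℝ) : ℝ :=
  ∑ k ∈ Ico 2 (K + 1), ∑ l ∈ Ico 1 k, v l t * v (k - l) t

lemma D_le {v : ℕ → ℝ → ℝ} (hn : ∀ k, 1 ≤ k → ∀ t, 0 ≤ v k t)
    (hs : ∀ t, HasSum (fun k => v (k + 1) t) 1) (K : ℕ) (t : ℝ) : D v K t ≤ F v K t := by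
  unfold D
  rw [tri K (fun l m => v l t * v m t)]
  unfold F
  apply Finset.sum_le_sum
  intro l hl
  have hl' := Finset.mem_Ico.mp hl
  rw [← Finset.mul_sum]
  have h1 : ∑ m ∈ Ico 1 (K + 1 - l), v m t ≤ 1 := by
    have := F_le hn hs (K - l) t
    unfold F at this
    rwa [show K - l + 1 = K + 1 - l by omega] at this
  have := hn l hl'.1 t
  nlinarith

lemma wsum_le {v : ℕ → ℝ → ℝ} (hn : ∀ k, 1 ≤ k → ∀ t, 0 ≤ v k t)
    (hs : ∀ t, HasSum (fun k => v (k + 1) t) 1) {K : ℕ} (hK : 1 ≤ K) (t : ℝ) :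
    ∑ k ∈ Ico 2 (K + 1), (-(k : ℝ) * v k t + ((k : ℝ) / 2) * ∑ l ∈ Ico 1 k, v l t * v (k - l) t)
      ≤ v 1 t := by
  rw [Finset.sum_add_distrib]
  have e1 : ∑ k ∈ Ico 2 (K + 1), ((k : ℝ) / 2) * ∑ l ∈ Ico 1 k, v l t * v (k - l) t =
      ∑ l ∈ Ico 1 (K + 1), ∑ m ∈ Ico 1 (K + 1 - l), (l : ℝ) * (v l t * v m t) := by
    rw [← tri K (fun l m => (l : ℝ) * (v l t * v m t))]
    apply Finset.sum_congr rfl
    intro k _
    exact half_sum k (fun l => v l t)
  have e2 : ∑ l ∈ Ico 1 (K + 1), ∑ m ∈ Ico 1 (K + 1 - l), (l : ℝ) * (v l t * v m t) ≤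
      ∑ l ∈ Ico 1 (K + 1), (l : ℝ) * v l t := by
    apply Finset.sum_le_sum
    intro l hl
    have hl' := Finset.mem_Ico.mp hl
    rw [← Finset.mul_sum, ← Finset.mul_sum]
    have h1 : ∑ m ∈ Ico 1 (K + 1 - l), v m t ≤ 1 := by
      have := F_le hn hs (K - l) t
      unfold F at this
      rwa [show K - l + 1 = K + 1 - l by omega] at this
    have h2 := hn l hl'.1 t
    have h3 : (0 : ℝ) ≤ l := Nat.cast_nonneg l
    have h4 : v l t * ∑ m ∈ Ico 1 (K + 1 - l), v m t ≤ v l t := by nlinarith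
    exact mul_le_mul_of_nonneg_left h4 h3
  have e3 : ∑ l ∈ Ico 1 (K + 1), (l : ℝ) * v l t = v 1 t + ∑ k ∈ Ico 2 (K + 1), (k : ℝ) * v k t := by
    rw [Finset.sum_eq_sum_Ico_succ_bot (by omega : 1 < K + 1)]
    simp
  have e4 : ∑ k ∈ Ico 2 (K + 1), (-(k : ℝ) * v k t) = - ∑ k ∈ Ico 2 (K + 1), (k : ℝ) * v k t := by
    rw [← Finset.sum_neg_distrib]
    apply Finset.sum_congr rfl
    intro k _; ring
  rw [e1, e4]
  linarith

/-- the basic one-sided inequality for the monomer density -/
lemma P1 {v : ℕ → ℝ → ℝ} (h : Sol v) {s t : ℝ} (hs : 0 ≤ s) (hst : s ≤ t) :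
    v 1 s - v 1 t ≤ ∫ u in s..t, v 1 u := by
  have key : ∀ K : ℕ, 1 ≤ K →
      (F v K t - v 1 t) - (F v K s - v 1 s) ≤ ∫ u in s..t, v 1 u := by
    intro K hK
    rw [← F_split v hK, ← F_split v hK]
    apply cmp (f := fun t => ∑ k ∈ Ico 2 (K + 1), v k t) hst
      (continuous_finsetSum _ fun k hk => h.cont k (by have := (Finset.mem_Ico.mp hk).1; omega)).continuousOn
      (f' := fun t => ∑ k ∈ Ico 2 (K + 1), (-(k : ℝ) * v k t + ((k : ℝ) / 2) * ∑ l ∈ Ico 1 k, v l t * v (k - l) t))
      _ (h.cont 1 le_rfl)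
    · intro u _
      exact wsum_le h.nonneg h.sum hK u
    · intro u hu
      apply HasDerivAt.fun_sum
      intro k hk
      exact h.deriv k (Finset.mem_Ico.mp hk).1 u (lt_of_le_of_lt hs hu.1)
  have hlim : Tendsto (fun K => (F v K t - v 1 t) - (F v K s - v 1 s)) atTop
      (𝓝 ((1 - v 1 t) - (1 - v 1 s))) :=
    ((F_tendsto h.sum t).sub_const _).sub ((F_tendsto h.sum s).sub_const _)
  have := le_of_tendsto hlim (eventually_atTop.mpr ⟨1, fun K hK => key K hK⟩)
  linarith

/-- `exp t * v 1 t` is nondecreasing -/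
lemma emono {v : ℕ → ℝ → ℝ} (h : Sol v) {s t : ℝ} (hs : 0 ≤ s) (hst : s ≤ t) :
    Real.exp s * v 1 s ≤ Real.exp t * v 1 t := by
  set G : ℝ → ℝ := fun u => ∫ w in s..u, v 1 w with hG
  have hc := h.cont 1 le_rfl
  have hGd : ∀ u, HasDerivAt G (v 1 u) u := fun u =>
    intervalIntegral.integral_hasDerivAt_right (hc.intervalIntegrable _ _)
      (hc.stronglyMeasurableAtFilter _ _) hc.continuousAt
  have hGc : Continuous G := continuous_iff_continuousAt.mpr fun u => (hGd u).continuousAt
  have hq : ∀ u, s ≤ u → u ≤ t → v 1 u + G u ≤ v 1 t + G t := by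
    intro u hu hut
    have h1 := P1 h (le_trans hs hu) hut
    have h2 : G t - G u = ∫ w in u..t, v 1 w := by
      simp only [hG]
      rw [intervalIntegral.integral_interval_sub_left (hc.intervalIntegrable _ _)
        (hc.intervalIntegrable _ _)]
    linarith
  have hanti : AntitoneOn (fun u => Real.exp u * (G u - (v 1 t + G t))) (Set.Icc s t) := by
    have hd : ∀ u, HasDerivAt (fun u => Real.exp u * (G u - (v 1 t + G t)))
        (Real.exp u * (G u - (v 1 t + G t)) + Real.exp u * (v 1 u)) u := by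
      intro u
      have := (Real.hasDerivAt_exp u).mul ((hGd u).sub_const (v 1 t + G t))
      exact this
    apply antitoneOn_of_deriv_nonpos (convex_Icc s t)
    · exact (continuous_iff_continuousAt.mpr fun u => (hd u).continuousAt).continuousOn
    · intro u _
      exact (hd u).differentiableAt.differentiableWithinAt
    · rw [interior_Icc]
      intro u hu
      rw [(hd u).deriv]
      have h1 := hq u hu.1.le hu.2.le
      have h2 := Real.exp_pos u
      nlinarith
  have h1 := hanti (Set.left_mem_Icc.mpr hst) (Set.right_mem_Icc.mpr hst) hst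
  have h2 := hq s le_rfl hst
  have h3 := Real.exp_pos s
  simp only at h1
  have h4 : G s = 0 := by simp [hG]
  have h5 : Real.exp t * (G t - (v 1 t + G t)) = - (Real.exp t * v 1 t) := by ring
  rw [h5] at h1
  have h6 : Real.exp s * (G s - (v 1 t + G t)) ≤ Real.exp s * (- v 1 s) := by
    apply mul_le_mul_of_nonneg_left _ h3.le
    linarith
  linarith


/-- bounded convergence on an interval -/
lemma bconv {E : ℕ → ℝ → ℝ} {C : ℝ} (hc : ∀ K, Continuous (E K)) (hb : ∀ K u, |E K u| ≤ C)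
    (hl : ∀ u, Tendsto (fun K => E K u) atTop (𝓝 0)) (s t : ℝ) :
    Tendsto (fun K => ∫ u in s..t, E K u) atTop (𝓝 0) := by
  have := intervalIntegral.tendsto_integral_filter_of_dominated_convergence
    (μ := volume) (a := s) (b := t) (F := E) (f := fun _ => (0 : ℝ)) (l := atTop) (fun _ => C)
    (Eventually.of_forall fun K => (hc K).aestronglyMeasurable)
    (Eventually.of_forall fun K => Eventually.of_forall fun u _ => by
      rw [Real.norm_eq_abs]; exact hb K u)
    (_root_.intervalIntegrable_const)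
    (Eventually.of_forall fun u _ => hl u)
  simpa using this

/-- the time average of the monomer density is at least one half, up to a bounded error -/
lemma avg {v : ℕ → ℝ → ℝ} (h : Sol v) {s t : ℝ} (hs : 0 ≤ s) (hst : s ≤ t) :
    (t - s) / 2 - 1 / 2 ≤ ∫ u in s..t, v 1 u := by
  have hc := h.cont 1 le_rfl
  have key : ∀ K : ℕ, 1 ≤ K →
      (t - s) / 2 - 1 / 2 ≤ (∫ u in s..t, v 1 u) + (1 / 2) * ∫ u in s..t, (1 - F v K u) := by
    intro K hK
    have hcK := F_cont h.cont K
    have h1 : (∑ k ∈ Ico 2 (K + 1), v k t / k) - (∑ k ∈ Ico 2 (K + 1), v k s / k) ≤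
        ∫ u in s..t, (v 1 u - 1 / 2 + (1 / 2) * (1 - F v K u)) := by
      apply cmp (f := fun t => ∑ k ∈ Ico 2 (K + 1), v k t / k) hst
        (continuous_finsetSum _ fun k hk => 
          (h.cont k (by have := (Finset.mem_Ico.mp hk).1; omega)).div_const _).continuousOn
        (f' := fun t => ∑ k ∈ Ico 2 (K + 1), (-(k : ℝ) * v k t + ((k : ℝ) / 2) * ∑ l ∈ Ico 1 k, v l t * v (k - l) t) / k)
      · intro u hu
        apply HasDerivAt.fun_sum
        intro k hk
        exact (h.deriv k (Finset.mem_Ico.mp hk).1 u (lt_of_le_of_lt hs hu.1)).div_const _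
      · fun_prop
      · intro u _
        have e1 : ∑ k ∈ Ico 2 (K + 1), (-(k : ℝ) * v k u + ((k : ℝ) / 2) * ∑ l ∈ Ico 1 k, v l u * v (k - l) u) / k
            = - (F v K u - v 1 u) + (1 / 2) * D v K u := by
          rw [← F_split v hK u]
          unfold D
          rw [← Finset.sum_neg_distrib, Finset.mul_sum, ← Finset.sum_add_distrib]
          apply Finset.sum_congr rfl
          intro k hk
          have : (2 : ℝ) ≤ k := by exact_mod_cast (Finset.mem_Ico.mp hk).1
          field_simp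
        have e2 := D_le h.nonneg h.sum K u
        rw [e1]
        linarith
    have h2 : 0 ≤ ∑ k ∈ Ico 2 (K + 1), v k t / k := by
      apply Finset.sum_nonneg
      intro k hk
      have := h.nonneg k (by have := (Finset.mem_Ico.mp hk).1; omega) t
      positivity
    have h3 : ∑ k ∈ Ico 2 (K + 1), v k s / k ≤ 1 / 2 := by
      have e1 : ∑ k ∈ Ico 2 (K + 1), v k s / k ≤ ∑ k ∈ Ico 2 (K + 1), v k s / 2 := by
        apply Finset.sum_le_sum
        intro k hk
        have h1 := h.nonneg k (by have := (Finset.mem_Ico.mp hk).1; omega) s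
        have h2 : (2 : ℝ) ≤ k := by exact_mod_cast (Finset.mem_Ico.mp hk).1
        exact div_le_div_of_nonneg_left h1 (by norm_num) h2
      rw [← Finset.sum_div, F_split v hK] at e1
      have := F_le h.nonneg h.sum K s
      have := h.nonneg 1 le_rfl s
      linarith
    have h4 : ∫ u in s..t, (v 1 u - 1 / 2 + (1 / 2) * (1 - F v K u)) =
        (∫ u in s..t, v 1 u) - (t - s) / 2 + (1 / 2) * ∫ u in s..t, (1 - F v K u) := by
      rw [intervalIntegral.integral_add, intervalIntegral.integral_sub,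
        intervalIntegral.integral_const_mul]
      · simp; ring
      · exact hc.intervalIntegrable _ _
      · simp
      · exact (hc.sub continuous_const).intervalIntegrable _ _
      · exact (Continuous.intervalIntegrable (by fun_prop) _ _)
    linarith
  have hlim : Tendsto (fun K => (∫ u in s..t, v 1 u) + (1 / 2) * ∫ u in s..t, (1 - F v K u)) atTop
      (𝓝 ((∫ u in s..t, v 1 u) + (1 / 2) * 0)) := by
    apply Tendsto.const_add
    apply Tendsto.const_mul
    apply bconv (C := 1)
    · intro K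
      exact continuous_const.sub (F_cont h.cont K)
    · intro K u
      have h1 := F_le h.nonneg h.sum K u
      have h2 := F_nonneg h.nonneg K u
      rw [abs_le]; constructor <;> linarith
    · intro u
      have := (F_tendsto h.sum u).const_sub 1
      simpa using this
  have := ge_of_tendsto hlim (eventually_atTop.mpr ⟨1, fun K hK => key K hK⟩)
  linarith

/-- lower bound for the monomer density -/
lemma low {v : ℕ → ℝ → ℝ} (h : Sol v) {t : ℝ} (ht : 2 ≤ t) :
    1 / 4 ≤ Real.exp 2 * v 1 t := by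
  have hc := h.cont 1 le_rfl
  have h1 := avg h (s := t - 2) (t := t) (by linarith) (by linarith)
  have h2 : ∫ u in (t - 2)..t, v 1 u ≤ ∫ u in (t - 2)..t, (Real.exp 2 * v 1 t) := by
    apply intervalIntegral.integral_mono_on (by linarith) (hc.intervalIntegrable _ _) (by simp)
    intro u hu
    have h3 := emono h (s := u) (t := t) (by linarith [hu.1]) hu.2
    have h4 : v 1 u ≤ Real.exp (t - u) * v 1 t := by
      rw [Real.exp_sub]
      have := Real.exp_pos u
      rw [div_mul_eq_mul_div, le_div_iff₀ this]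
      linarith
    have h5 : Real.exp (t - u) ≤ Real.exp 2 := Real.exp_le_exp.mpr (by linarith [hu.1])
    have := h.nonneg 1 le_rfl t
    nlinarith
  simp at h2
  linarith

lemma low' {v : ℕ → ℝ → ℝ} (h : Sol v) {t : ℝ} (ht : 2 ≤ t) :
    1 / 4 ≤ Real.exp t * v 1 t := by
  have h1 := low h ht
  have h2 : Real.exp 2 ≤ Real.exp t := Real.exp_le_exp.mpr ht
  have := h.nonneg 1 le_rfl t
  nlinarith

/-- lower bound for all densities -/
lemma lowk {v : ℕ → ℝ → ℝ} (h : Sol v) (k : ℕ) (hk : 1 ≤ k) :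
    ∀ t : ℝ, 2 ≤ t → (1 / 4) ^ k * (t - 2) ^ (k - 1) ≤ Real.exp ((k : ℝ) * t) * v k t := by
  induction k using Nat.strong_induction_on with
  | _ k ih =>
    intro t ht
    rcases Nat.lt_or_ge k 2 with hk2 | hk2
    · have : k = 1 := by omega
      subst this
      have := low' h ht
      simpa using this
    · -- derivative inequality
      set f : ℝ → ℝ := fun u => Real.exp ((k : ℝ) * u) * v k u - (1 / 4) ^ k * (u - 2) ^ (k - 1) with hf
      have hd : ∀ u, 2 < u → HasDerivAt f (((k : ℝ) / 2) * ∑ l ∈ Ico 1 k,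
          (Real.exp ((l : ℝ) * u) * v l u) * (Real.exp (((k - l : ℕ) : ℝ) * u) * v (k - l) u)
          - (1 / 4) ^ k * (((k - 1 : ℕ) : ℝ) * (u - 2) ^ (k - 2))) u := by
        intro u hu
        have d1 : HasDerivAt (fun u => Real.exp ((k : ℝ) * u)) (Real.exp ((k : ℝ) * u) * k) u := by
          have := ((hasDerivAt_id u).const_mul (k : ℝ)).exp
          simpa using this
        have d2 := h.deriv k hk2 u (by linarith)
        have d3 : HasDerivAt (fun u : ℝ => (u - 2) ^ (k - 1)) (((k - 1 : ℕ) : ℝ) * (u - 2) ^ (k - 2)) u := by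
          have := ((hasDerivAt_id u).sub_const 2).fun_pow (k - 1)
          rw [show k - 1 - 1 = k - 2 by omega] at this
          simpa using this
        have d4 := (d1.mul d2).sub (d3.const_mul ((1 / 4 : ℝ) ^ k))
        refine d4.congr_deriv ?_
        congr 1
        have e : ∑ l ∈ Ico 1 k,
          (Real.exp ((l : ℝ) * u) * v l u) * (Real.exp (((k - l : ℕ) : ℝ) * u) * v (k - l) u) =
          Real.exp ((k : ℝ) * u) * ∑ l ∈ Ico 1 k, v l u * v (k - l) u := by
          rw [Finset.mul_sum]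
          apply Finset.sum_congr rfl
          intro l hl
          have hl' := Finset.mem_Ico.mp hl
          have : Real.exp ((k : ℝ) * u) = Real.exp ((l : ℝ) * u) * Real.exp (((k - l : ℕ) : ℝ) * u) := by
            rw [← Real.exp_add]
            congr 1
            rw [Nat.cast_sub (by omega)]
            ring
          rw [this]; ring
        rw [e]
        ring
      have hcont : Continuous f := by
        have := h.cont k (by omega)
        fun_prop
      have hmono : MonotoneOn f (Set.Ici 2) := by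
        apply monotoneOn_of_deriv_nonneg (convex_Ici 2) hcont.continuousOn
        · rw [interior_Ici]
          intro u hu
          exact (hd u hu).differentiableAt.differentiableWithinAt
        · rw [interior_Ici]
          intro u hu
          rw [(hd u hu).deriv]
          have hu' : 2 < u := hu
          have e1 : ∀ l ∈ Ico 1 k, (1 / 4 : ℝ) ^ k * (u - 2) ^ (k - 2) ≤
              (Real.exp ((l : ℝ) * u) * v l u) * (Real.exp (((k - l : ℕ) : ℝ) * u) * v (k - l) u) := by
            intro l hl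
            have hl' := Finset.mem_Ico.mp hl
            have i1 := ih l hl'.2 hl'.1 u hu'.le
            have i2 := ih (k - l) (by omega) (by omega) u hu'.le
            have e : (1 / 4 : ℝ) ^ k * (u - 2) ^ (k - 2) =
              ((1 / 4 : ℝ) ^ l * (u - 2) ^ (l - 1)) * ((1 / 4 : ℝ) ^ (k - l) * (u - 2) ^ (k - l - 1)) := by
              have a1 : (1 / 4 : ℝ) ^ k = (1 / 4) ^ l * (1 / 4) ^ (k - l) := by
                rw [← pow_add]; congr 1; omega
              have a2 : (u - 2 : ℝ) ^ (k - 2) = (u - 2) ^ (l - 1) * (u - 2) ^ (k - l - 1) := by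
                rw [← pow_add]; congr 1; omega
              rw [a1, a2]; ring
            rw [e]
            have hu2 : 0 < u - 2 := by linarith
            have p1 : (0 : ℝ) ≤ (1 / 4 : ℝ) ^ l * (u - 2) ^ (l - 1) := by positivity
            have p2 : (0 : ℝ) ≤ (1 / 4 : ℝ) ^ (k - l) * (u - 2) ^ (k - l - 1) := by positivity
            exact mul_le_mul i1 i2 p2 (le_trans p1 i1)
          have e2 := Finset.sum_le_sum e1
          rw [Finset.sum_const, Nat.card_Ico, nsmul_eq_mul] at e2
          have e3 : (2 : ℝ) ≤ k := by exact_mod_cast hk2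
          have hu2 : 0 < u - 2 := by linarith
          have e4 : (0 : ℝ) ≤ ((k - 1 : ℕ) : ℝ) * ((1 / 4 : ℝ) ^ k * (u - 2) ^ (k - 2)) := by positivity
          nlinarith
      have h1 := hmono (Set.mem_Ici.mpr le_rfl) (Set.mem_Ici.mpr ht) ht
      have h2 : 0 ≤ f 2 := by
        simp only [hf, sub_self]
        rw [zero_pow (by omega)]
        have := h.nonneg k (by omega) 2
        have := Real.exp_pos ((k : ℝ) * 2)
        simp only [mul_zero, sub_zero]
        positivity
      have h3 : 0 ≤ f t := le_trans h2 h1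
      simp only [hf] at h3
      linarith

lemma pos_of {v : ℕ → ℝ → ℝ} (h : Sol v) {k : ℕ} (hk : 1 ≤ k) {t : ℝ} (ht : 2 < t) :
    0 < v k t := by
  have h1 := lowk h k hk t ht.le
  have h2 : (0 : ℝ) < (1 / 4) ^ k * (t - 2) ^ (k - 1) := by
    have : 0 < t - 2 := by linarith
    positivity
  have h3 := Real.exp_pos ((k : ℝ) * t)
  by_contra hcon
  push Not at hcon
  nlinarith

lemma init_of {v : ℕ → ℝ → ℝ} (h : Sol v) {k : ℕ} (hk : 1 ≤ k) :
    (Real.exp (-3) / 4) ^ k ≤ v k 3 := by
  have h1 := lowk h k hk 3 (by norm_num)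
  have e : (3 - 2 : ℝ) = 1 := by norm_num
  rw [e, one_pow, mul_one] at h1
  have h3 := Real.exp_pos ((k : ℝ) * 3)
  have e2 : (Real.exp (-3) / 4) ^ k = (1 / 4) ^ k / Real.exp ((k : ℝ) * 3) := by
    rw [Real.exp_neg, Real.exp_nat_mul]
    rw [div_pow, div_pow, inv_pow, one_pow]
    field_simp
  rw [e2, div_le_iff₀ h3]
  linarith

end Pool.Agent.H15.FF
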