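import Mathlib

set_option autoImplicit false
open Filter Topology Finset

namespace Pool.Agent.H15.FF

/-- stationary coefficients of `1 - √(1 - z)` -/
noncomputable def ca (k : ℕ) : ℝ := (Nat.centralBinom k : ℝ) / ((2 * (k : ℝ) - 1) * 4 ^ k)

/-- central binomial over `4 ^ k` -/
noncomputable def cb (k : ℕ) : ℝ := (Nat.centralBinom k : ℝ) / 4 ^ k

lemma cb_zero : cb 0 = 1 := by simp [cb]

lemma cb_nonneg (k : ℕ) : 0 ≤ cb k := by unfold cb; positivity

lemma cb_succ (k : ℕ) : cb (k + 1) * (2 * (k : ℝ) + 2) = cb k * (2 * k + 1) := by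
  have h := Nat.succ_mul_centralBinom_succ k
  have h' : ((k : ℝ) + 1) * (Nat.centralBinom (k + 1) : ℝ) =
      2 * (2 * k + 1) * (Nat.centralBinom k : ℝ) := by exact_mod_cast h
  unfold cb
  rw [pow_succ]
  field_simp
  nlinarith [h']

lemma cb_sq (k : ℕ) : cb k ^ 2 * (2 * (k : ℝ) + 1) ≤ 1 := by
  induction k with
  | zero => simp [cb_zero]
  | succ k ih =>
    have h := cb_succ k
    have h0 := cb_nonneg k
    have hk : (0 : ℝ) ≤ k := Nat.cast_nonneg k
    have e : cb (k + 1) = cb k * (2 * k + 1) / (2 * k + 2) := by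
      rw [← h]; field_simp
    rw [e]; push_cast
    have e2 : (cb k * (2 * k + 1) / (2 * k + 2)) ^ 2 * (2 * ((k : ℝ) + 1) + 1) =
      (cb k ^ 2 * (2 * k + 1)) * (((2 * k + 1) * (2 * k + 3)) / (2 * k + 2) ^ 2) := by
      field_simp
      ring
    rw [e2]
    have h3 : ((2 * (k : ℝ) + 1) * (2 * k + 3)) / (2 * k + 2) ^ 2 ≤ 1 := by
      rw [div_le_one (by positivity)]; nlinarith
    have h4 : 0 ≤ ((2 * (k : ℝ) + 1) * (2 * k + 3)) / (2 * k + 2) ^ 2 := by positivity
    calc _ ≤ 1 * (((2 * (k : ℝ) + 1) * (2 * k + 3)) / (2 * k + 2) ^ 2) := by gcongr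
      _ ≤ 1 := by linarith

lemma cb_le_one (k : ℕ) : cb k ≤ 1 := by
  have h := cb_sq k
  have h0 := cb_nonneg k
  have hk : (0 : ℝ) ≤ k := Nat.cast_nonneg k
  nlinarith [mul_nonneg (sq_nonneg (cb k)) hk]

lemma cb_tendsto : Tendsto cb atTop (𝓝 0) := by
  have h1 : ∀ k : ℕ, cb k ≤ 1 / Real.sqrt ((k : ℝ) + 1) := by
    intro k
    have hk : (0 : ℝ) ≤ k := Nat.cast_nonneg k
    rw [le_div_iff₀ (by positivity)]
    have h := cb_sq k
    have h0 := cb_nonneg k
    apply le_of_sq_le_sq _ (by norm_num)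
    rw [mul_pow, Real.sq_sqrt (by positivity)]
    nlinarith [mul_nonneg (sq_nonneg (cb k)) hk]
  have h2 : Tendsto (fun k : ℕ => 1 / Real.sqrt ((k : ℝ) + 1)) atTop (𝓝 0) := by
    have : Tendsto (fun k : ℕ => Real.sqrt ((k : ℝ) + 1)) atTop atTop := by
      apply Real.tendsto_sqrt_atTop.comp
      exact tendsto_atTop_add_const_right _ _ tendsto_natCast_atTop_atTop
    exact (this.inv_tendsto_atTop).congr (fun k => by simp)
  exact squeeze_zero cb_nonneg h1 h2

lemma ca_tel (k : ℕ) : ca (k + 1) = cb k - cb (k + 1) := by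
  have h := cb_succ k
  have hk : (0 : ℝ) ≤ k := Nat.cast_nonneg k
  have e : ca (k + 1) = cb (k + 1) / (2 * k + 1) := by
    unfold ca cb; push_cast
    rw [show (2 * ((k : ℝ) + 1) - 1) = 2 * k + 1 by ring]
    rw [div_div, mul_comm]
  rw [e]
  have : cb k = cb (k + 1) * (2 * k + 2) / (2 * k + 1) := by
    rw [h]; field_simp
  rw [this]; field_simp; ring

lemma ca_one : ca 1 = 1 / 2 := by
  unfold ca; simp [Nat.centralBinom, Nat.choose]; norm_num

lemma ca_two : ca 2 = 1 / 8 := by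
  unfold ca; simp [Nat.centralBinom, Nat.choose]; norm_num

lemma ca_three : ca 3 = 1 / 16 := by
  unfold ca; simp [Nat.centralBinom, Nat.choose]; norm_num

lemma ca_pos {k : ℕ} (hk : 1 ≤ k) : 0 < ca k := by
  unfold ca
  have h1 : (1 : ℝ) ≤ k := by exact_mod_cast hk
  have h2 : (0 : ℝ) < Nat.centralBinom k := by exact_mod_cast Nat.centralBinom_pos k
  apply div_pos h2
  apply mul_pos (by linarith) (by positivity)

lemma ca_le_one {k : ℕ} (hk : 1 ≤ k) : ca k ≤ 1 := by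
  obtain ⟨j, rfl⟩ : ∃ j, k = j + 1 := ⟨k - 1, by omega⟩
  rw [ca_tel]
  have := cb_le_one j
  have := cb_nonneg (j + 1)
  linarith

/-- partial sums -/
lemma sum_ca (K : ℕ) : ∑ k ∈ Ico 1 (K + 1), ca k = 1 - cb K := by
  induction K with
  | zero => simp [cb_zero]
  | succ K ih =>
    rw [Finset.sum_Ico_succ_top (by omega), ih, ca_tel]; ring

lemma ca_catalan (k : ℕ) : ca (k + 1) = 2 * (catalan k : ℝ) / 4 ^ (k + 1) := by
  have h := Nat.succ_mul_centralBinom_succ k
  have h' : ((k : ℝ) + 1) * (Nat.centralBinom (k + 1) : ℝ) =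
      2 * (2 * k + 1) * (Nat.centralBinom k : ℝ) := by exact_mod_cast h
  have h2 := succ_mul_catalan_eq_centralBinom k
  have h2' : ((k : ℝ) + 1) * (catalan k : ℝ) = Nat.centralBinom k := by exact_mod_cast h2
  have hk : (0 : ℝ) ≤ k := Nat.cast_nonneg k
  have h3 : (Nat.centralBinom (k + 1) : ℝ) = 2 * (2 * k + 1) * catalan k := by
    have : ((k : ℝ) + 1) ≠ 0 := by positivity
    apply mul_left_cancel₀ this
    rw [h', ← h2']; ring
  unfold ca
  rw [h3]; push_cast
  rw [show (2 * ((k : ℝ) + 1) - 1) = 2 * k + 1 by ring]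
  field_simp

/-- stationarity -/
lemma ca_conv {k : ℕ} (hk : 2 ≤ k) : ∑ l ∈ Ico 1 k, ca l * ca (k - l) = 2 * ca k := by
  obtain ⟨n, rfl⟩ : ∃ n, k = n + 2 := ⟨k - 2, by omega⟩
  rw [Finset.sum_Ico_eq_sum_range]
  have e : n + 2 - 1 = n + 1 := by omega
  rw [e]
  have h1 : ∀ i ∈ Finset.range (n + 1), ca (1 + i) * ca (n + 2 - (1 + i)) =
      4 / 4 ^ (n + 2) * ((catalan i : ℝ) * catalan (n - i)) := by
    intro i hi
    have hi' : i ≤ n := by simpa [Nat.lt_succ_iff] using hi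
    rw [show 1 + i = i + 1 by omega, show n + 2 - (i + 1) = (n - i) + 1 by omega,
      ca_catalan, ca_catalan]
    have : (4 : ℝ) ^ (n + 2) = 4 ^ (i + 1) * 4 ^ (n - i + 1) := by
      rw [← pow_add]; congr 1; omega
    rw [this]; field_simp; ring
  rw [Finset.sum_congr rfl h1, ← Finset.mul_sum]
  have h2 : ∑ i ∈ Finset.range (n + 1), (catalan i : ℝ) * catalan (n - i) = catalan (n + 1) := by
    rw [catalan_succ, ← Fin.sum_univ_eq_sum_range (fun i => (catalan i : ℝ) * catalan (n - i))]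
    push_cast
    rfl
  rw [h2, show n + 2 = (n + 1) + 1 by ring, ca_catalan]
  ring

/-- reindexing of a triangular sum -/
lemma tri (K : ℕ) (F : ℕ → ℕ → ℝ) :
    ∑ k ∈ Ico 2 (K + 1), ∑ l ∈ Ico 1 k, F l (k - l) =
      ∑ l ∈ Ico 1 (K + 1), ∑ m ∈ Ico 1 (K + 1 - l), F l m := by
  have h1 : ∀ l ∈ Ico 1 (K + 1), ∑ m ∈ Ico 1 (K + 1 - l), F l m =
      ∑ k ∈ Ico (l + 1) (K + 1), F l (k - l) := by
    intro l hl
    have hl' := Finset.mem_Ico.mp hl
    rw [Finset.sum_Ico_eq_sum_range, Finset.sum_Ico_eq_sum_range]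
    have e : K + 1 - l - 1 = K + 1 - (l + 1) := by omega
    rw [e]
    apply Finset.sum_congr rfl
    intro i _
    congr 1
    omega
  rw [Finset.sum_congr rfl h1]
  rw [Finset.sum_comm' (t' := Ico 1 (K + 1)) (s' := fun l => Ico (l + 1) (K + 1))]
  intro x y
  simp only [Finset.mem_Ico]
  omega

/-- symmetrisation -/
lemma half_sum (k : ℕ) (f : ℕ → ℝ) :
    ((k : ℝ) / 2) * ∑ l ∈ Ico 1 k, f l * f (k - l) = ∑ l ∈ Ico 1 k, (l : ℝ) * (f l * f (k - l)) := by
  have h : ∑ l ∈ Ico 1 k, (l : ℝ) * (f l * f (k - l)) =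
      ∑ l ∈ Ico 1 k, ((k : ℝ) - l) * (f l * f (k - l)) := by
    rcases Nat.lt_or_ge k 1 with h0 | h0
    · have : k = 0 := by omega
      subst this; simp
    · have := Finset.sum_Ico_reflect (fun l => (l : ℝ) * (f l * f (k - l))) 1 (m := k) (n := k) (by omega)
      rw [show k + 1 - k = 1 by omega, show k + 1 - 1 = k by omega] at this
      rw [← this]
      apply Finset.sum_congr rfl
      intro l hl
      have hl' := Finset.mem_Ico.mp hl
      rw [show k - (k - l) = l by omega, Nat.cast_sub (by omega)]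
      ring
  have h2 : ∑ l ∈ Ico 1 k, (l : ℝ) * (f l * f (k - l)) +
      ∑ l ∈ Ico 1 k, ((k : ℝ) - l) * (f l * f (k - l)) = (k : ℝ) * ∑ l ∈ Ico 1 k, f l * f (k - l) := by
    rw [← Finset.sum_add_distrib, Finset.mul_sum]
    apply Finset.sum_congr rfl
    intro l _
    ring
  linarith

end Pool.Agent.H15.FF
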