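import Pool.Agent.H15.FFMain

set_option autoImplicit false
open Filter Topology Finset MeasureTheory

namespace Pool.Agent.H15.FF

/-- a solution in the literal sense of the problem: no continuity of `v 1` is assumed -/
structure Raw (v : ℕ → ℝ → ℝ) : Prop where
  nonneg : ∀ k, 1 ≤ k → ∀ t, 0 ≤ t → 0 ≤ v k t
  sum : ∀ t, 0 ≤ t → HasSum (fun k => v (k + 1) t) 1
  deriv : ∀ k, 2 ≤ k → ∀ t, 0 ≤ t → HasDerivWithinAt (v k)
    (-(k : ℝ) * v k t + ((k : ℝ) / 2) * ∑ l ∈ Ico 1 k, v l t * v (k - l) t) (Set.Ici 0) t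

/-- extension to negative times by a constant -/
def ext0 (v : ℕ → ℝ → ℝ) : ℕ → ℝ → ℝ := fun k t => v k (max t 0)

lemma ext0_eq (v : ℕ → ℝ → ℝ) {t : ℝ} (ht : 0 ≤ t) (k : ℕ) : ext0 v k t = v k t := by
  simp [ext0, max_eq_left ht]

lemma Raw.nn {v : ℕ → ℝ → ℝ} (h : Raw v) : ∀ k, 1 ≤ k → ∀ t, 0 ≤ ext0 v k t :=
  fun k hk _ => h.nonneg k hk _ (le_max_right _ _)

lemma Raw.ss {v : ℕ → ℝ → ℝ} (h : Raw v) : ∀ t, HasSum (fun k => ext0 v (k + 1) t) 1 :=
  fun _ => h.sum _ (le_max_right _ _)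

lemma Raw.cont2 {v : ℕ → ℝ → ℝ} (h : Raw v) {k : ℕ} (hk : 2 ≤ k) : Continuous (ext0 v k) := by
  have h1 : ContinuousOn (v k) (Set.Ici 0) :=
    fun t ht => (h.deriv k hk t ht).continuousWithinAt
  exact h1.comp_continuous (by fun_prop) (fun t => Set.mem_Ici.mpr (le_max_right _ _))

lemma Raw.dd {v : ℕ → ℝ → ℝ} (h : Raw v) {k : ℕ} (hk : 2 ≤ k) {t : ℝ} (ht : 0 < t) :
    HasDerivAt (ext0 v k)
      (-(k : ℝ) * ext0 v k t + ((k : ℝ) / 2) * ∑ l ∈ Ico 1 k, ext0 v l t * ext0 v (k - l) t) t := by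
  have h1 := (h.deriv k hk t ht.le).hasDerivAt (Ici_mem_nhds ht)
  simp only [ext0_eq v ht.le]
  apply h1.congr_of_eventuallyEq
  filter_upwards [lt_mem_nhds ht] with s hs
  exact ext0_eq v (le_of_lt hs) k

/-- the monomer density falls at most at unit speed -/
lemma Raw.lip {v : ℕ → ℝ → ℝ} (h : Raw v) {s t : ℝ} (hs : 0 ≤ s) (hst : s ≤ t) :
    ext0 v 1 s - ext0 v 1 t ≤ t - s := by
  have key : ∀ K : ℕ, 1 ≤ K →
      (F (ext0 v) K t - ext0 v 1 t) - (F (ext0 v) K s - ext0 v 1 s) ≤ t - s := by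
    intro K hK
    rw [← F_split (ext0 v) hK, ← F_split (ext0 v) hK]
    have := cmp (f := fun t => ∑ k ∈ Ico 2 (K + 1), ext0 v k t) (φ := fun _ => 1) hst
      (continuous_finsetSum _ fun k hk => h.cont2 (Finset.mem_Ico.mp hk).1).continuousOn
      (f' := fun t => ∑ k ∈ Ico 2 (K + 1), (-(k : ℝ) * ext0 v k t +
        ((k : ℝ) / 2) * ∑ l ∈ Ico 1 k, ext0 v l t * ext0 v (k - l) t))
      (by
        intro u hu
        apply HasDerivAt.fun_sum
        intro k hk
        exact h.dd (Finset.mem_Ico.mp hk).1 (lt_of_le_of_lt hs hu.1)) continuous_const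
      (by
        intro u _
        exact le_trans (wsum_le h.nn h.ss hK u) (v_le_one h.nn h.ss le_rfl u))
    simpa using this
  have hlim : Tendsto (fun K => (F (ext0 v) K t - ext0 v 1 t) - (F (ext0 v) K s - ext0 v 1 s)) atTop
      (𝓝 ((1 - ext0 v 1 t) - (1 - ext0 v 1 s))) :=
    ((F_tendsto h.ss t).sub_const _).sub ((F_tendsto h.ss s).sub_const _)
  have := le_of_tendsto hlim (eventually_atTop.mpr ⟨1, fun K hK => key K hK⟩)
  linarith

/-- upper semicontinuity of the monomer density -/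
lemma Raw.usc {v : ℕ → ℝ → ℝ} (h : Raw v) (t : ℝ) {a : ℝ} (ha : ext0 v 1 t < a) :
    ∀ᶠ s in 𝓝 t, ext0 v 1 s < a := by
  have h1 := (F_tendsto h.ss t).eventually (lt_mem_nhds (show 1 - (a - ext0 v 1 t) < 1 by linarith))
  obtain ⟨K, hK, hK1⟩ := (h1.and (eventually_ge_atTop 1)).exists
  have hc : Continuous (fun s => ∑ k ∈ Ico 2 (K + 1), ext0 v k s) :=
    continuous_finsetSum _ fun k hk => h.cont2 (Finset.mem_Ico.mp hk).1
  have h2 : 1 - a < ∑ k ∈ Ico 2 (K + 1), ext0 v k t := by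
    rw [F_split (ext0 v) hK1]; linarith
  filter_upwards [hc.continuousAt.eventually (lt_mem_nhds h2)] with s hs
  rw [F_split (ext0 v) hK1] at hs
  have := F_le h.nn h.ss K s
  linarith

lemma Raw.right {v : ℕ → ℝ → ℝ} (h : Raw v) {t : ℝ} (ht : 0 ≤ t) :
    ContinuousWithinAt (ext0 v 1) (Set.Ici t) t := by
  apply tendsto_order.2
  refine ⟨fun a ha => ?_, fun a ha => ?_⟩
  · have h1 : ∀ᶠ s in 𝓝[Set.Ici t] t, s < t + (ext0 v 1 t - a) :=
      mem_nhdsWithin_of_mem_nhds (gt_mem_nhds (by linarith))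
    filter_upwards [h1, self_mem_nhdsWithin] with s hs hs2
    have := h.lip ht (Set.mem_Ici.mp hs2)
    linarith
  · exact mem_nhdsWithin_of_mem_nhds (h.usc t ha)

lemma Raw.mono {v : ℕ → ℝ → ℝ} (h : Raw v) : Monotone (fun s => ext0 v 1 s + max s 0) := by
  intro s t hst
  have e : ∀ u, ext0 v 1 u = ext0 v 1 (max u 0) := by
    intro u; simp [ext0]
  have := h.lip (s := max s 0) (t := max t 0) (le_max_right _ _) (max_le_max_right 0 hst)
  rw [← e, ← e] at this
  simp only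
  linarith

lemma Raw.left {v : ℕ → ℝ → ℝ} (h : Raw v) {t : ℝ} (ht : 0 < t) :
    ContinuousWithinAt (ext0 v 1) (Set.Iic t) t := by
  have h1 := h.mono.tendsto_nhdsLT t
  set L := sSup ((fun s => ext0 v 1 s + max s 0) '' Set.Iio t)
  set a := L - max t 0 with ha
  have h2 : Tendsto (ext0 v 1) (𝓝[<] t) (𝓝 a) := by
    have hm : Tendsto (fun s : ℝ => max s 0) (𝓝[<] t) (𝓝 (max t 0)) :=
      (Continuous.tendsto (by fun_prop) t).mono_left nhdsWithin_le_nhds
    have := h1.sub hm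
    simpa using this
  have ha0 : 0 ≤ a := ge_of_tendsto h2 (Eventually.of_forall fun s => h.nn 1 le_rfl s)
  have hd : ∀ s, 0 < s → HasDerivAt (ext0 v 2) (-2 * ext0 v 2 s + ext0 v 1 s ^ 2) s := by
    intro s hs
    have := h.dd (k := 2) le_rfl hs
    have e : ∑ l ∈ Ico 1 2, ext0 v l s * ext0 v (2 - l) s = ext0 v 1 s ^ 2 := by
      rw [show Ico 1 2 = {1} from rfl, Finset.sum_singleton]; ring
    rw [e] at this
    simpa using this
  have h3 : HasDerivWithinAt (ext0 v 2) (-2 * ext0 v 2 t + a ^ 2) (Set.Iic t) t := by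
    apply hasDerivWithinAt_Iic_of_tendsto_deriv (s := Set.Ioi 0)
    · intro s hs
      exact (hd s hs).differentiableAt.differentiableWithinAt
    · exact (h.cont2 le_rfl).continuousWithinAt
    · exact mem_nhdsWithin_of_mem_nhds (lt_mem_nhds ht)
    · have hc2 : Tendsto (ext0 v 2) (𝓝[<] t) (𝓝 (ext0 v 2 t)) :=
        ((h.cont2 le_rfl).tendsto t).mono_left nhdsWithin_le_nhds
      have := (hc2.const_mul (-2)).add (h2.pow 2)
      apply this.congr'
      have h4 : ∀ᶠ s in 𝓝[<] t, 0 < s := mem_nhdsWithin_of_mem_nhds (lt_mem_nhds ht)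
      filter_upwards [h4] with s hs
      exact (hd s hs).deriv.symm
  have h4 : HasDerivWithinAt (ext0 v 2) (-2 * ext0 v 2 t + ext0 v 1 t ^ 2) (Set.Iic t) t :=
    (hd t ht).hasDerivWithinAt
  have h5 := (uniqueDiffWithinAt_Iic t).eq_deriv _ h3 h4
  have h6 : a = ext0 v 1 t := by
    have h7 : a ^ 2 = ext0 v 1 t ^ 2 := by linarith
    exact (pow_left_inj₀ ha0 (h.nn 1 le_rfl t) (by norm_num)).mp h7
  rw [h6] at h2
  exact continuousWithinAt_Iio_iff_Iic.mp h2

/-- the monomer density of a solution is automatically continuous -/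
lemma Raw.cont1 {v : ℕ → ℝ → ℝ} (h : Raw v) : ContinuousOn (v 1) (Set.Ici 0) := by
  have h1 : ContinuousOn (ext0 v 1) (Set.Ici 0) := by
    intro t ht
    rcases eq_or_lt_of_le (Set.mem_Ici.mp ht) with h0 | h0
    · subst h0
      exact h.right le_rfl
    · have := (h.left h0).union (h.right h0.le)
      rw [Set.Iic_union_Ici] at this
      exact this.mono (Set.subset_univ _)
  exact h1.congr fun t ht => (ext0_eq v ht 1).symm

/-- convergence of every solution -/
theorem Raw.main {v : ℕ → ℝ → ℝ} (h : Raw v) (k : ℕ) (hk : 1 ≤ k) :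
    Tendsto (fun t : ℝ => v k t) atTop (𝓝 (ca k)) := by
  apply FF.main h.nonneg h.sum _ _ k hk
  · intro j hj
    rcases Nat.lt_or_ge j 2 with hj2 | hj2
    · have : j = 1 := by omega
      subst this
      exact h.cont1
    · exact fun t ht => (h.deriv j hj2 t ht).continuousWithinAt
  · intro j hj t ht
    exact (h.deriv j hj t ht.le).hasDerivAt (Ici_mem_nhds ht)

lemma ca_hasSum : HasSum (fun k => ca (k + 1)) 1 := by
  rw [hasSum_iff_tendsto_nat_of_nonneg (fun k => (ca_pos (by omega)).le)]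
  have h1 : ∀ K, ∑ k ∈ range K, ca (k + 1) = 1 - cb K := by
    intro K
    rw [← sum_ca K, Finset.sum_Ico_eq_sum_range]
    simp only [Nat.add_sub_cancel]
    apply Finset.sum_congr rfl
    intro i _
    rw [add_comm]
  simp only [h1]
  simpa using cb_tendsto.const_sub 1

end Pool.Agent.H15.FF
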