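import Pool.Agent.H15.FFDyn

set_option autoImplicit false
open Filter Topology Finset MeasureTheory

namespace Pool.Agent.H15.FF

/-- quadratic lower bound for the convexity gap -/
lemma gg_log {r M : ℝ} (hM : 1 ≤ M) (hr : 0 < r) (hrM : r ≤ M) :
    (r - 1) ^ 2 / (2 * M) ≤ r - 1 - Real.log r := by
  set h : ℝ → ℝ := fun r => r - 1 - Real.log r - (r - 1) ^ 2 / (2 * M) with hh
  have hM0 : 0 < M := by linarith
  have hd : ∀ u, 0 < u → HasDerivAt h ((u - 1) * (1 / u - 1 / M)) u := by
    intro u hu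
    have d1 := ((hasDerivAt_id u).sub_const 1).sub (Real.hasDerivAt_log hu.ne')
    have d2 := (((hasDerivAt_id u).sub_const 1).fun_pow 2).div_const (2 * M)
    refine (d1.sub d2).congr_deriv ?_
    simp
    field_simp
  have h1 : h 1 = 0 := by simp [hh]
  have key : 0 ≤ h r := by
    rcases le_total 1 r with h1r | h1r
    · have hmono : MonotoneOn h (Set.Icc 1 M) := by
        apply monotoneOn_of_deriv_nonneg (convex_Icc 1 M)
        · intro u hu
          exact (hd u (by linarith [hu.1])).continuousAt.continuousWithinAt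
        · rw [interior_Icc]
          intro u hu
          exact (hd u (by linarith [hu.1])).differentiableAt.differentiableWithinAt
        · rw [interior_Icc]
          intro u hu
          have hu0 : 0 < u := by linarith [hu.1]
          rw [(hd u hu0).deriv]
          apply mul_nonneg (by linarith [hu.1])
          have := one_div_le_one_div_of_le hu0 hu.2.le
          linarith
      have := hmono (Set.mem_Icc.mpr ⟨le_rfl, hM⟩) (Set.mem_Icc.mpr ⟨h1r, hrM⟩) h1r
      rw [h1] at this; exact this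
    · have hanti : AntitoneOn h (Set.Ioc 0 1) := by
        apply antitoneOn_of_deriv_nonpos (convex_Ioc 0 1)
        · intro u hu
          exact (hd u hu.1).continuousAt.continuousWithinAt
        · rw [interior_Ioc]
          intro u hu
          exact (hd u hu.1).differentiableAt.differentiableWithinAt
        · rw [interior_Ioc]
          intro u hu
          rw [(hd u hu.1).deriv]
          apply mul_nonpos_of_nonpos_of_nonneg (by linarith [hu.2])
          have := one_div_le_one_div_of_le hu.1 (show u ≤ M by linarith [hu.2])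
          linarith
      have := hanti (Set.mem_Ioc.mpr ⟨hr, h1r⟩) (Set.mem_Ioc.mpr ⟨one_pos, le_rfl⟩) h1r
      rw [h1] at this; exact this
  simp only [hh] at key
  linarith

/-- one-sided Barbalat argument -/
lemma barb {x : ℝ → ℝ} (hc : Continuous x)
    (hm : ∀ s t, 0 ≤ s → s ≤ t → Real.exp s * x s ≤ Real.exp t * x t) {B : ℝ}
    (hB : ∀ t, 0 ≤ t → ∫ u in (0 : ℝ)..t, (1 - x u) ^ 2 ≤ B) : Tendsto x atTop (𝓝 1) := by
  set I : ℝ → ℝ := fun t => ∫ u in (0 : ℝ)..t, (1 - x u) ^ 2 with hI
  have hcq : Continuous (fun u => (1 - x u) ^ 2) := by fun_prop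
  have hsub : ∀ s t, I t - I s = ∫ u in s..t, (1 - x u) ^ 2 := by
    intro s t
    simp only [hI]
    rw [intervalIntegral.integral_interval_sub_left (hcq.intervalIntegrable _ _)
      (hcq.intervalIntegrable _ _)]
  have hmono : Monotone I := by
    intro s t hst
    have h1 := hsub s t
    have h2 : 0 ≤ ∫ u in s..t, (1 - x u) ^ 2 :=
      intervalIntegral.integral_nonneg hst (fun u _ => sq_nonneg _)
    linarith
  have hbdd : BddAbove (Set.range I) := by
    refine ⟨B, ?_⟩
    rintro _ ⟨t, rfl⟩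
    rcases le_total 0 t with ht | ht
    · exact hB t ht
    · exact le_trans (hmono ht) (hB 0 le_rfl)
  have hlim := tendsto_atTop_ciSup hmono hbdd
  rw [Metric.tendsto_atTop]
  intro ε₀ hε₀
  -- reduce to ε ≤ 1
  set ε := min ε₀ 1 / 2 with hε
  have hε0 : 0 < ε := by
    have : 0 < min ε₀ 1 := lt_min hε₀ one_pos
    positivity
  have hε1 : ε ≤ 1 := by
    have : min ε₀ 1 ≤ 1 := min_le_right _ _
    linarith
  have hε2 : ε < ε₀ := by
    have h1 : min ε₀ 1 ≤ ε₀ := min_le_left _ _
    have h2 : 0 < min ε₀ 1 := lt_min hε₀ one_pos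
    rw [hε]
    linarith
  set δ := ε / 4 with hδ
  have hδ0 : 0 < δ := by positivity
  have hdiff : Tendsto (fun t => I (t + δ) - I (t - δ)) atTop (𝓝 0) := by
    have a1 := hlim.comp (tendsto_atTop_add_const_right atTop δ tendsto_id)
    have a2 := hlim.comp (tendsto_atTop_add_const_right atTop (-δ) tendsto_id)
    have a3 := a1.sub a2
    simp only [sub_self] at a3
    exact a3
  have hpos : 0 < δ * (ε ^ 2 / 4) := by positivity
  have hev := (hdiff.eventually (gt_mem_nhds hpos)).and (eventually_ge_atTop δ)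
  rw [eventually_atTop] at hev
  obtain ⟨T, hT⟩ := hev
  refine ⟨T, fun t ht => ?_⟩
  obtain ⟨h1, h2⟩ := hT t ht
  rw [Real.dist_eq]
  refine lt_of_le_of_lt ?_ hε2
  rw [abs_le]
  constructor
  · -- lower bound
    by_contra hcon
    push Not at hcon
    have hx : x t < 1 - ε := by linarith
    have e1 : ∀ u ∈ Set.Icc (t - δ) t, ε ^ 2 / 4 ≤ (1 - x u) ^ 2 := by
      intro u hu
      have m := hm u t (by linarith [hu.1]) hu.2
      have p1 := Real.exp_pos u
      have p2 : x u ≤ 1 - ε / 2 := by
        have q1 : Real.exp t ≤ Real.exp u / (1 - δ) := by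
          have q2 : Real.exp t = Real.exp u * Real.exp (t - u) := by rw [← Real.exp_add]; congr 1; ring
          have q3 : Real.exp (-(t - u)) ≥ 1 - δ := by
            have := Real.add_one_le_exp (-(t - u))
            linarith [hu.1]
          have q4 : Real.exp (t - u) * (1 - δ) ≤ 1 := by
            have q5 : Real.exp (t - u) * Real.exp (-(t - u)) = 1 := by
              rw [← Real.exp_add]; simp
            have := Real.exp_pos (t - u)
            nlinarith
          rw [le_div_iff₀ (by linarith), q2]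
          have := mul_le_mul_of_nonneg_left q4 p1.le
          linarith
        have q6 : Real.exp u * x u ≤ Real.exp u / (1 - δ) * (1 - ε) := by
          have q7 : Real.exp t * x t ≤ Real.exp t * (1 - ε) :=
            mul_le_mul_of_nonneg_left hx.le (Real.exp_pos t).le
          have q8 : Real.exp t * (1 - ε) ≤ Real.exp u / (1 - δ) * (1 - ε) :=
            mul_le_mul_of_nonneg_right q1 (by linarith)
          linarith
        have q9 : x u ≤ (1 - ε) / (1 - δ) := by
          have : Real.exp u / (1 - δ) * (1 - ε) = Real.exp u * ((1 - ε) / (1 - δ)) := by ring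
          rw [this] at q6
          exact le_of_mul_le_mul_left q6 p1
        refine le_trans q9 ?_
        rw [div_le_iff₀ (by linarith)]
        nlinarith
      nlinarith
    have e2 : ∫ u in (t - δ)..t, (ε ^ 2 / 4 : ℝ) ≤ ∫ u in (t - δ)..t, (1 - x u) ^ 2 :=
      intervalIntegral.integral_mono_on (by linarith) (by simp)
        (hcq.intervalIntegrable _ _) e1
    rw [← hsub] at e2
    simp at e2
    have e3 : I t ≤ I (t + δ) := hmono (by linarith)
    linarith
  · by_contra hcon
    push Not at hcon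
    have hx : 1 + ε < x t := by linarith
    have e1 : ∀ u ∈ Set.Icc t (t + δ), ε ^ 2 / 4 ≤ (1 - x u) ^ 2 := by
      intro u hu
      have m := hm t u (by linarith) hu.1
      have p1 := Real.exp_pos u
      have p2 : 1 + ε / 2 ≤ x u := by
        have q1 : Real.exp u * (1 - δ) ≤ Real.exp t := by
          have q2 : Real.exp t = Real.exp u * Real.exp (t - u) := by rw [← Real.exp_add]; congr 1; ring
          have q3 : Real.exp (t - u) ≥ 1 - δ := by
            have := Real.add_one_le_exp (t - u)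
            linarith [hu.2]
          rw [q2]
          exact mul_le_mul_of_nonneg_left q3 p1.le
        have q6 : Real.exp u * (1 - δ) * (1 + ε) ≤ Real.exp u * x u := by
          have q7 : Real.exp t * (1 + ε) ≤ Real.exp t * x t :=
            mul_le_mul_of_nonneg_left hx.le (Real.exp_pos t).le
          have q8 : Real.exp u * (1 - δ) * (1 + ε) ≤ Real.exp t * (1 + ε) :=
            mul_le_mul_of_nonneg_right q1 (by linarith)
          linarith
        have q9 : (1 - δ) * (1 + ε) ≤ x u := by
          rw [mul_assoc] at q6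
          exact le_of_mul_le_mul_left q6 p1
        refine le_trans ?_ q9
        nlinarith
      nlinarith
    have e2 : ∫ u in t..(t + δ), (ε ^ 2 / 4 : ℝ) ≤ ∫ u in t..(t + δ), (1 - x u) ^ 2 :=
      intervalIntegral.integral_mono_on (by linarith) (by simp)
        (hcq.intervalIntegrable _ _) e1
    rw [← hsub] at e2
    simp at e2
    have e3 : I (t - δ) ≤ I t := hmono (by linarith)
    linarith

/-- a linear equation with convergent forcing, upper bound -/
lemma lin_upper {f g : ℝ → ℝ} {k G : ℝ} (hk : 0 < k)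
    (hd : ∀ t, 0 < t → HasDerivAt f (-k * f t + g t) t) (hg : Tendsto g atTop (𝓝 G)) {ε : ℝ}
    (hε : 0 < ε) : ∀ᶠ t in atTop, f t ≤ G / k + ε := by
  have h1 : ∀ᶠ t in atTop, g t < G + k * (ε / 2) := hg.eventually (gt_mem_nhds (by
    have : 0 < k * (ε / 2) := by positivity
    linarith))
  have h2 := h1.and (eventually_ge_atTop (1 : ℝ))
  rw [eventually_atTop] at h2
  obtain ⟨T, hT⟩ := h2
  set φ : ℝ → ℝ := fun u => Real.exp (k * u) * (f u - G / k - ε / 2) with hφ
  have hT1 : 1 ≤ T := (hT T le_rfl).2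
  have hdφ : ∀ u, 0 < u → HasDerivAt φ (Real.exp (k * u) * (g u - G - k * (ε / 2))) u := by
    intro u hu
    have d1 : HasDerivAt (fun u => Real.exp (k * u)) (Real.exp (k * u) * k) u := by
      have := ((hasDerivAt_id u).const_mul k).exp
      simpa using this
    have d2 := ((hd u hu).sub_const (G / k)).sub_const (ε / 2)
    refine (d1.mul d2).congr_deriv ?_
    field_simp
    ring
  have hanti : AntitoneOn φ (Set.Ici T) := by
    apply antitoneOn_of_deriv_nonpos (convex_Ici T)
    · intro u hu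
      have hu' : T ≤ u := hu
      exact (hdφ u (by linarith)).continuousAt.continuousWithinAt
    · rw [interior_Ici]
      intro u hu
      have hu' : T < u := hu
      exact (hdφ u (by linarith)).differentiableAt.differentiableWithinAt
    · rw [interior_Ici]
      intro u hu
      have hu' : T < u := hu
      rw [(hdφ u (by linarith)).deriv]
      have := (hT u hu'.le).1
      apply mul_nonpos_of_nonneg_of_nonpos (Real.exp_pos _).le
      linarith
  have hexp : Tendsto (fun t => Real.exp (-(k * t)) * φ T) atTop (𝓝 (0 * φ T)) := by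
    apply Tendsto.mul_const
    apply Real.tendsto_exp_neg_atTop_nhds_zero.comp
    exact tendsto_id.const_mul_atTop hk
  rw [zero_mul] at hexp
  have h3 : ∀ᶠ t in atTop, Real.exp (-(k * t)) * φ T < ε / 2 :=
    hexp.eventually (gt_mem_nhds (by positivity))
  filter_upwards [h3, eventually_ge_atTop T] with t ht1 ht2
  have h4 := hanti (Set.mem_Ici.mpr le_rfl) (Set.mem_Ici.mpr ht2) ht2
  have h5 : Real.exp (-(k * t)) * φ t = f t - G / k - ε / 2 := by
    simp only [hφ]
    rw [← mul_assoc, ← Real.exp_add]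
    simp
  have h6 := mul_le_mul_of_nonneg_left h4 (Real.exp_pos (-(k * t))).le
  rw [h5] at h6
  linarith

/-- a linear equation with convergent forcing -/
lemma lin {f g : ℝ → ℝ} {k G : ℝ} (hk : 0 < k)
    (hd : ∀ t, 0 < t → HasDerivAt f (-k * f t + g t) t) (hg : Tendsto g atTop (𝓝 G)) :
    Tendsto f atTop (𝓝 (G / k)) := by
  rw [Metric.tendsto_nhds]
  intro ε hε
  have h1 := lin_upper hk hd hg (half_pos hε)
  have h2 := lin_upper (f := fun t => - f t) (g := fun t => - g t) (G := -G) hk
    (by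
      intro t ht
      refine (hd t ht).neg.congr_deriv ?_
      ring) hg.neg (half_pos hε)
  filter_upwards [h1, h2] with t ht1 ht2
  rw [Real.dist_eq, abs_lt]
  rw [neg_div] at ht2
  constructor <;> linarith

section
variable {w : ℕ → ℝ → ℝ} {κ θ : ℝ}

lemma RL_low (h : Sol2 w κ θ) {t : ℝ} (ht : 0 ≤ t) :
    -(1 + 48 * (1 + θ)) ≤ RL w 2 t ∧ -(1 + 48 * (1 + θ)) ≤ RL w 3 t := by
  have h1 := lyap_lim h ht
  have h2 : 0 ≤ ∫ u in (0 : ℝ)..t, w 1 u * HH w u := by
    apply intervalIntegral.integral_nonneg ht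
    intro u _
    exact mul_nonneg (h.nonneg 1 le_rfl u) (HH_nonneg u)
  have h3 : VV w 3 t = (1 / 16) * gg (RL w 2 t) + (1 / 48) * gg (RL w 3 t) := by
    unfold VV
    have s1 : (Ico 2 (3 + 1) : Finset ℕ) = {2, 3} := by decide
    rw [s1, Finset.sum_pair (by norm_num), term_eq h (by norm_num), term_eq h (by norm_num),
      ca_two, ca_three]
    push_cast
    ring
  have g2 := gg_nonneg (RL w 2 t)
  have g3 := gg_nonneg (RL w 3 t)
  have g2' : - 1 - RL w 2 t ≤ gg (RL w 2 t) := by
    unfold gg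
    have := Real.exp_pos (RL w 2 t)
    linarith
  have g3' : - 1 - RL w 3 t ≤ gg (RL w 3 t) := by
    unfold gg
    have := Real.exp_pos (RL w 3 t)
    linarith
  constructor <;> linarith

/-- the algebraic estimate behind the decay of `y - y ^ 2` -/
lemma ineq {a b e : ℝ} (X : 0 < a) (X2 : a ≤ 2) (Y : 0 < b) (Y8 : b ≤ 8) :
    (2 * (a ^ 2 - b) - 2 * b * (2 * (a ^ 2 - b))) * (e - b)
      + (b - b ^ 2) * (3 * (a * b - e) - 2 * (a ^ 2 - b)) ≤
      1239 * ((a - b) ^ 2 + (e - b) ^ 2) - (1 / 2) * (b - b ^ 2) ^ 2 := by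
  set P := b - b ^ 2 with hP
  set d := a - b with hd
  set Φ := e - b with hΦ
  have id1 : (2 * (a ^ 2 - b) - 2 * b * (2 * (a ^ 2 - b))) * Φ + P * (3 * (a * b - e) - 2 * (a ^ 2 - b)) =
      2 * (1 - 2 * b) * (a + b) * (d * Φ) - (2 * (1 - 2 * b) + 3) * (P * Φ) - b * (P * d) - 2 * P * d ^ 2 - P ^ 2 := by
    rw [hP, hd, hΦ]; ring
  rw [id1]
  -- term 1
  have t1 : 2 * (1 - 2 * b) * (a + b) * (d * Φ) ≤ 150 * (d ^ 2 + Φ ^ 2) := by
    have u1 : |2 * (1 - 2 * b) * (a + b)| ≤ 300 := by
      rw [abs_le]; constructor <;> nlinarith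
    have u2 : |d * Φ| ≤ (d ^ 2 + Φ ^ 2) / 2 := by
      rw [abs_le]; constructor <;> nlinarith [sq_nonneg (d + Φ), sq_nonneg (d - Φ)]
    calc 2 * (1 - 2 * b) * (a + b) * (d * Φ) ≤ |2 * (1 - 2 * b) * (a + b) * (d * Φ)| := le_abs_self _
      _ = |2 * (1 - 2 * b) * (a + b)| * |d * Φ| := abs_mul _ _
      _ ≤ 300 * ((d ^ 2 + Φ ^ 2) / 2) := mul_le_mul u1 u2 (abs_nonneg _) (by norm_num)
      _ = 150 * (d ^ 2 + Φ ^ 2) := by ring
  have t2 : - ((2 * (1 - 2 * b) + 3) * (P * Φ)) ≤ (1 / 4) * P ^ 2 + 1089 * Φ ^ 2 := by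
    have u1 : (2 * (1 - 2 * b) + 3) ^ 2 ≤ 1089 := by nlinarith
    have u2 : 0 ≤ ((1 / 2) * P + (2 * (1 - 2 * b) + 3) * Φ) ^ 2 := sq_nonneg _
    have u3 : (2 * (1 - 2 * b) + 3) ^ 2 * Φ ^ 2 ≤ 1089 * Φ ^ 2 :=
      mul_le_mul_of_nonneg_right u1 (sq_nonneg _)
    nlinarith
  have t3 : - (b * (P * d)) ≤ (1 / 8) * P ^ 2 + 128 * d ^ 2 := by
    have u1 : b ^ 2 ≤ 64 := by nlinarith
    have u3 : b ^ 2 * d ^ 2 ≤ 64 * d ^ 2 := mul_le_mul_of_nonneg_right u1 (sq_nonneg _)
    nlinarith [sq_nonneg (P + 4 * (b * d))]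
  have t4 : - (2 * P * d ^ 2) ≤ 144 * d ^ 2 := by
    have u1 : - (2 * P) ≤ 144 := by rw [hP]; nlinarith
    nlinarith [mul_le_mul_of_nonneg_right u1 (sq_nonneg d)]
  nlinarith [sq_nonneg P, sq_nonneg d, sq_nonneg Φ]

lemma conv_one (h : Sol2 w κ θ) : Tendsto (w 1) atTop (𝓝 (ca 1)) := by
  have hc1 := h.cont 1 (by norm_num)
  have hc2 := h.cont 2 (by norm_num)
  have hc3 := h.cont 3 (by norm_num)
  set c := Real.exp (-(1 + 48 * (1 + θ))) with hc
  have hc0 : 0 < c := Real.exp_pos _
  have hθ := h.θpos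
  have hκ := h.κpos
  have hcle : c ≤ 1 := by
    rw [hc]; apply Real.exp_le_one_iff.mpr; linarith
  set x : ℝ → ℝ := fun t => 2 * w 1 t with hx
  set y : ℝ → ℝ := fun t => 8 * w 2 t with hy
  set z : ℝ → ℝ := fun t => 16 * w 3 t with hz
  have hxc : Continuous x := by simp only [hx]; fun_prop
  have hyc : Continuous y := by simp only [hy]; fun_prop
  have hzc : Continuous z := by simp only [hz]; fun_prop
  have hx0 : ∀ t, 0 < x t := fun t => by have := h.pos 1 (by norm_num) t; simp only [hx]; linarith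
  have hy0 : ∀ t, 0 < y t := fun t => by have := h.pos 2 (by norm_num) t; simp only [hy]; linarith
  have hz0 : ∀ t, 0 < z t := fun t => by have := h.pos 3 (by norm_num) t; simp only [hz]; linarith
  have hx2 : ∀ t, x t ≤ 2 := fun t => by
    have := v_le_one h.nonneg h.sum (k := 1) (by norm_num) t; simp only [hx]; linarith
  have hy8 : ∀ t, y t ≤ 8 := fun t => by
    have := v_le_one h.nonneg h.sum (k := 2) (by norm_num) t; simp only [hy]; linarith
  have hz16 : ∀ t, z t ≤ 16 := fun t => by
    have := v_le_one h.nonneg h.sum (k := 3) (by norm_num) t; simp only [hz]; linarith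
  have hxL : ∀ t, RL w 1 t = Real.log (x t) := fun t => by
    unfold RL; rw [ca_one]; congr 1; simp only [hx]; ring
  have hyL : ∀ t, RL w 2 t = Real.log (y t) := fun t => by
    unfold RL; rw [ca_two]; congr 1; simp only [hy]; ring
  have hzL : ∀ t, RL w 3 t = Real.log (z t) := fun t => by
    unfold RL; rw [ca_three]; congr 1; simp only [hz]; ring
  have hylow : ∀ t, 0 ≤ t → c ≤ y t := fun t ht => by
    have := (RL_low h ht).1
    rw [hyL, Real.le_log_iff_exp_le (hy0 t)] at this
    exact this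
  have hzlow : ∀ t, 0 ≤ t → c ≤ z t := fun t ht => by
    have := (RL_low h ht).2
    rw [hzL, Real.le_log_iff_exp_le (hz0 t)] at this
    exact this
  -- dissipation controls the squared differences
  have hdis : ∀ t, 0 ≤ t → (x t - y t) ^ 2 + (z t - y t) ^ 2 ≤
      (32768 / (c * κ)) * (w 1 t * HH w t) := by
    intro t ht
    have X := hx0 t
    have Y := hy0 t
    have Z := hz0 t
    have e1 : gg (RL w 1 t - RL w 2 t) = x t / y t - 1 - Real.log (x t / y t) := by
      unfold gg
      rw [hxL, hyL, ← Real.log_div X.ne' Y.ne', Real.exp_log (div_pos X Y)]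
    have e2 : gg (RL w 2 t - RL w 3 t) = y t / z t - 1 - Real.log (y t / z t) := by
      unfold gg
      rw [hyL, hzL, ← Real.log_div Y.ne' Z.ne', Real.exp_log (div_pos Y Z)]
    have f1 : (x t / y t - 1) ^ 2 / (2 * (8 / c)) ≤ gg (RL w 1 t - RL w 2 t) := by
      rw [e1]
      apply gg_log
      · rw [le_div_iff₀ hc0]; linarith
      · exact div_pos X Y
      · have := hylow t ht
        have := hx2 t
        rw [div_le_div_iff₀ Y hc0]
        nlinarith
    have f2 : (y t / z t - 1) ^ 2 / (2 * (8 / c)) ≤ gg (RL w 2 t - RL w 3 t) := by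
      rw [e2]
      apply gg_log
      · rw [le_div_iff₀ hc0]; linarith
      · exact div_pos Y Z
      · have := hzlow t ht
        have := hy8 t
        rw [div_le_div_iff₀ Z hc0]
        nlinarith
    have g1 : (x t - y t) ^ 2 ≤ (4096 / c) * gg (RL w 1 t - RL w 2 t) := by
      have i1 : (x t - y t) ^ 2 = (y t) ^ 2 * (x t / y t - 1) ^ 2 := by
        field_simp
      have i2 : (y t) ^ 2 ≤ 256 := by nlinarith [hy8 t]
      have i3 : (x t / y t - 1) ^ 2 ≤ gg (RL w 1 t - RL w 2 t) * (2 * (8 / c)) := by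
        rwa [div_le_iff₀ (by positivity)] at f1
      have i4 := gg_nonneg (RL w 1 t - RL w 2 t)
      calc (x t - y t) ^ 2 = (y t) ^ 2 * (x t / y t - 1) ^ 2 := i1
        _ ≤ 256 * (x t / y t - 1) ^ 2 := mul_le_mul_of_nonneg_right i2 (sq_nonneg _)
        _ ≤ 256 * (gg (RL w 1 t - RL w 2 t) * (2 * (8 / c))) := by linarith
        _ = (4096 / c) * gg (RL w 1 t - RL w 2 t) := by ring
    have g2 : (z t - y t) ^ 2 ≤ (4096 / c) * gg (RL w 2 t - RL w 3 t) := by
      have i1 : (z t - y t) ^ 2 = (z t) ^ 2 * (y t / z t - 1) ^ 2 := by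
        field_simp
        ring
      have i2 : (z t) ^ 2 ≤ 256 := by nlinarith [hz16 t]
      have i3 : (y t / z t - 1) ^ 2 ≤ gg (RL w 2 t - RL w 3 t) * (2 * (8 / c)) := by
        rwa [div_le_iff₀ (by positivity)] at f2
      have i4 := gg_nonneg (RL w 2 t - RL w 3 t)
      calc (z t - y t) ^ 2 = (z t) ^ 2 * (y t / z t - 1) ^ 2 := i1
        _ ≤ 256 * (y t / z t - 1) ^ 2 := mul_le_mul_of_nonneg_right i2 (sq_nonneg _)
        _ ≤ 256 * (gg (RL w 2 t - RL w 3 t) * (2 * (8 / c))) := by linarith
        _ = (4096 / c) * gg (RL w 2 t - RL w 3 t) := by ring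
    have k1 := gg_nonneg (RL w 1 t - RL w 2 t)
    have k2 := gg_nonneg (RL w 2 t - RL w 3 t)
    have k3 : κ * HH w t ≤ w 1 t * HH w t :=
      mul_le_mul_of_nonneg_right (h.low t) (HH_nonneg t)
    have k4 : (32768 / (c * κ)) * (κ * HH w t) ≤ (32768 / (c * κ)) * (w 1 t * HH w t) :=
      mul_le_mul_of_nonneg_left k3 (by positivity)
    refine le_trans ?_ k4
    have k5 : (32768 / (c * κ)) * (κ * HH w t) = (8 * (4096 / c)) *
        (1 / 4 * gg (RL w 1 t - RL w 2 t) + 1 / 8 * gg (RL w 2 t - RL w 3 t)) := by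
      unfold HH
      field_simp
      ring
    rw [k5]
    have k6 : 0 ≤ 4096 / c := by positivity
    nlinarith [mul_nonneg k6 k1, mul_nonneg k6 k2]
  have hHc := HH_cont h
  set B := (32768 / (c * κ)) * (1 + θ) with hB
  have hB0 : 0 ≤ B := by positivity
  have hint1 : ∀ t, 0 ≤ t → ∫ u in (0 : ℝ)..t, ((x u - y u) ^ 2 + (z u - y u) ^ 2) ≤ B := by
    intro t ht
    have e1 : ∫ u in (0 : ℝ)..t, ((x u - y u) ^ 2 + (z u - y u) ^ 2) ≤
        ∫ u in (0 : ℝ)..t, (32768 / (c * κ)) * (w 1 u * HH w u) := by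
      apply intervalIntegral.integral_mono_on ht
      · exact Continuous.intervalIntegrable (by fun_prop) _ _
      · exact Continuous.intervalIntegrable (by fun_prop) _ _
      · intro u hu
        exact hdis u hu.1
    rw [intervalIntegral.integral_const_mul] at e1
    have e2 := lyap_lim h ht
    have e3 := VV_nonneg h 3 t
    have e4 : (32768 / (c * κ)) * ∫ u in (0 : ℝ)..t, (w 1 u * HH w u) ≤ B := by
      rw [hB]
      apply mul_le_mul_of_nonneg_left _ (by positivity)
      linarith
    linarith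
  -- the differential inequality for P * Φ
  have hyd : ∀ t, 0 < t → HasDerivAt y (2 * (x t ^ 2 - y t)) t := by
    intro t ht
    have := (h.deriv 2 le_rfl t ht).const_mul 8
    refine this.congr_deriv ?_
    have s2 : (Ico 1 2 : Finset ℕ) = {1} := by decide
    rw [s2, Finset.sum_singleton]
    simp only [hx, hy]
    push_cast
    norm_num
    ring
  have hzd : ∀ t, 0 < t → HasDerivAt z (3 * (x t * y t - z t)) t := by
    intro t ht
    have := (h.deriv 3 (by norm_num) t ht).const_mul 16
    refine this.congr_deriv ?_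
    have s3 : (Ico 1 3 : Finset ℕ) = {1, 2} := by decide
    rw [s3, Finset.sum_pair (by norm_num)]
    simp only [hx, hy, hz]
    norm_num
    ring
  set f : ℝ → ℝ := fun t => (y t - y t ^ 2) * (z t - y t) with hf
  have hfc : Continuous f := by simp only [hf]; fun_prop
  have hfd : ∀ t, 0 < t → HasDerivAt f ((2 * (x t ^ 2 - y t) - 2 * y t * (2 * (x t ^ 2 - y t))) * (z t - y t)
      + (y t - y t ^ 2) * (3 * (x t * y t - z t) - 2 * (x t ^ 2 - y t))) t := by
    intro t ht
    have d1 := hyd t ht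
    have d2 := hzd t ht
    have d3 := (d1.sub (d1.fun_pow 2)).mul (d2.sub d1)
    refine d3.congr_deriv ?_
    simp
  have hineq : ∀ t, 0 < t → (2 * (x t ^ 2 - y t) - 2 * y t * (2 * (x t ^ 2 - y t))) * (z t - y t)
      + (y t - y t ^ 2) * (3 * (x t * y t - z t) - 2 * (x t ^ 2 - y t)) ≤
      1239 * ((x t - y t) ^ 2 + (z t - y t) ^ 2) - (1 / 2) * (y t - y t ^ 2) ^ 2 := by
    intro t _
    exact ineq (hx0 t) (hx2 t) (hy0 t) (hy8 t)
  have hfb : ∀ t, |f t| ≤ 2304 := by
    intro t
    have Y := hy0 t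
    have Z := hz0 t
    have Y8 := hy8 t
    have Z16 := hz16 t
    simp only [hf]
    rw [abs_mul]
    have u1 : |y t - y t ^ 2| ≤ 72 := by rw [abs_le]; constructor <;> nlinarith
    have u2 : |z t - y t| ≤ 32 := by rw [abs_le]; constructor <;> linarith
    calc _ ≤ (72 : ℝ) * 32 := mul_le_mul u1 u2 (abs_nonneg _) (by norm_num)
      _ = 2304 := by norm_num
  have hint2 : ∀ t, 0 ≤ t → ∫ u in (0 : ℝ)..t, (y u - y u ^ 2) ^ 2 ≤ 2 * (4608 + 1239 * B) := by
    intro t ht
    have e1 : f t - f 0 ≤ ∫ u in (0 : ℝ)..t, (1239 * ((x u - y u) ^ 2 + (z u - y u) ^ 2)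
        - (1 / 2) * (y u - y u ^ 2) ^ 2) := by
      apply cmp ht hfc.continuousOn (f' := fun t => (2 * (x t ^ 2 - y t) - 2 * y t * (2 * (x t ^ 2 - y t))) * (z t - y t)
      + (y t - y t ^ 2) * (3 * (x t * y t - z t) - 2 * (x t ^ 2 - y t)))
      · intro u hu
        exact hfd u hu.1
      · fun_prop
      · intro u hu
        exact hineq u hu.1
    rw [intervalIntegral.integral_sub, intervalIntegral.integral_const_mul,
      intervalIntegral.integral_const_mul] at e1
    · have e2 := hint1 t ht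
      have e3 := abs_le.mp (hfb t)
      have e4 := abs_le.mp (hfb 0)
      linarith
    · exact Continuous.intervalIntegrable (by fun_prop) _ _
    · exact Continuous.intervalIntegrable (by fun_prop) _ _
  have hint3 : ∀ t, 0 ≤ t → ∫ u in (0 : ℝ)..t, (1 - x u) ^ 2 ≤
      (2 / c ^ 2) * (2 * (4608 + 1239 * B)) + 2 * B := by
    intro t ht
    have e1 : ∫ u in (0 : ℝ)..t, (1 - x u) ^ 2 ≤ ∫ u in (0 : ℝ)..t,
        ((2 / c ^ 2) * (y u - y u ^ 2) ^ 2 + 2 * ((x u - y u) ^ 2 + (z u - y u) ^ 2)) := by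
      apply intervalIntegral.integral_mono_on ht
      · exact Continuous.intervalIntegrable (by fun_prop) _ _
      · exact Continuous.intervalIntegrable (by fun_prop) _ _
      · intro u hu
        have Y := hylow u hu.1
        have i1 : (1 - y u) ^ 2 ≤ (1 / c ^ 2) * (y u - y u ^ 2) ^ 2 := by
          have i2 : c ^ 2 ≤ y u ^ 2 := by nlinarith
          have i3 : (1 / c ^ 2) * (y u - y u ^ 2) ^ 2 = (y u ^ 2 / c ^ 2) * (1 - y u) ^ 2 := by ring
          rw [i3]
          have i4 : 1 ≤ y u ^ 2 / c ^ 2 := by rw [le_div_iff₀ (by positivity)]; linarith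
          nlinarith [sq_nonneg (1 - y u)]
        have i5 : (1 - x u) ^ 2 ≤ 2 * (1 - y u) ^ 2 + 2 * (x u - y u) ^ 2 := by
          nlinarith [sq_nonneg ((1 - y u) + (x u - y u))]
        have i6 : (2 / c ^ 2) * (y u - y u ^ 2) ^ 2 = 2 * ((1 / c ^ 2) * (y u - y u ^ 2) ^ 2) := by ring
        rw [i6]
        nlinarith [sq_nonneg (z u - y u)]
    rw [intervalIntegral.integral_add, intervalIntegral.integral_const_mul,
      intervalIntegral.integral_const_mul] at e1
    · have e2 := hint1 t ht
      have e3 := hint2 t ht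
      have e4 := mul_le_mul_of_nonneg_left e3 (show (0 : ℝ) ≤ 2 / c ^ 2 by positivity)
      linarith
    · exact Continuous.intervalIntegrable (by fun_prop) _ _
    · exact Continuous.intervalIntegrable (by fun_prop) _ _
  have hxlim : Tendsto x atTop (𝓝 1) := by
    apply barb hxc _ hint3
    intro s t hs hst
    have := h.mono s t hs hst
    simp only [hx]
    linarith
  have := hxlim.const_mul (1 / 2)
  rw [ca_one]
  simpa [hx] using this

/-- convergence of all densities -/
theorem conv_all (h : Sol2 w κ θ) (k : ℕ) (hk : 1 ≤ k) : Tendsto (w k) atTop (𝓝 (ca k)) := by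
  induction k using Nat.strong_induction_on with
  | _ k ih =>
    rcases Nat.lt_or_ge k 2 with hk2 | hk2
    · have : k = 1 := by omega
      subst this
      exact conv_one h
    · have hk0 : (0 : ℝ) < k := by
        have : (2 : ℝ) ≤ k := by exact_mod_cast hk2
        linarith
      have hg : Tendsto (fun t => ((k : ℝ) / 2) * ∑ l ∈ Ico 1 k, w l t * w (k - l) t) atTop
          (𝓝 (((k : ℝ) / 2) * ∑ l ∈ Ico 1 k, ca l * ca (k - l))) := by
        apply Tendsto.const_mul
        apply tendsto_finsetSum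
        intro l hl
        have hl' := Finset.mem_Ico.mp hl
        exact (ih l hl'.2 hl'.1).mul (ih (k - l) (by omega) (by omega))
      have := lin hk0 (h.deriv k hk2) hg
      rw [ca_conv hk2] at this
      have e : (k : ℝ) / 2 * (2 * ca k) / k = ca k := by field_simp
      rwa [e] at this

end

end Pool.Agent.H15.FF
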