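import Pool.Agent.H15.FFLyap

set_option autoImplicit false
open Filter Topology Finset MeasureTheory

namespace Pool.Agent.H15.FF

/-- a strictly positive solution with the quantitative bounds needed for the entropy argument -/
structure Sol2 (w : ℕ → ℝ → ℝ) (κ θ : ℝ) : Prop where
  pos : ∀ k, 1 ≤ k → ∀ t, 0 < w k t
  sum : ∀ t, HasSum (fun k => w (k + 1) t) 1
  cont : ∀ k, 1 ≤ k → Continuous (w k)
  deriv : ∀ k, 2 ≤ k → ∀ t, 0 < t → HasDerivAt (w k)
    (-(k : ℝ) * w k t + ((k : ℝ) / 2) * ∑ l ∈ Ico 1 k, w l t * w (k - l) t) t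
  κpos : 0 < κ
  low : ∀ t, κ ≤ w 1 t
  mono : ∀ s t, 0 ≤ s → s ≤ t → Real.exp s * w 1 s ≤ Real.exp t * w 1 t
  θpos : 0 ≤ θ
  init : ∀ k : ℕ, 1 ≤ k → Real.exp (-(θ * (k : ℝ))) ≤ w k 0

/-- log-ratio as a function of time -/
noncomputable def RL (w : ℕ → ℝ → ℝ) (k : ℕ) (t : ℝ) : ℝ := Real.log (w k t / ca k)

/-- truncated entropy -/
noncomputable def VV (w : ℕ → ℝ → ℝ) (K : ℕ) (t : ℝ) : ℝ :=
  ∑ k ∈ Ico 2 (K + 1), (1 / (k : ℝ)) * (w k t - ca k - ca k * RL w k t)

/-- truncation error -/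
noncomputable def EE (w : ℕ → ℝ → ℝ) (K : ℕ) (t : ℝ) : ℝ :=
  (1 - F w K t) + 3 * cb K + 2 * ∑ l ∈ Ico 1 (K + 1), w l t * cb (K - l)

/-- dissipation -/
noncomputable def HH (w : ℕ → ℝ → ℝ) (t : ℝ) : ℝ :=
  1 / 4 * gg (RL w 1 t - RL w 2 t) + 1 / 8 * gg (RL w 2 t - RL w 3 t)

section
variable {w : ℕ → ℝ → ℝ} {κ θ : ℝ} 

lemma Sol2.nonneg (h : Sol2 w κ θ) (k : ℕ) (hk : 1 ≤ k) (t : ℝ) : 0 ≤ w k t := (h.pos k hk t).le

lemma RL_cont (h : Sol2 w κ θ) {k : ℕ} (hk : 1 ≤ k) : Continuous (RL w k) := by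
  unfold RL
  apply Continuous.log
  · exact (h.cont k hk).div_const _
  · intro t
    exact (div_pos (h.pos k hk t) (ca_pos hk)).ne'

lemma gg_cont : Continuous gg := by
  unfold gg; fun_prop

lemma HH_cont (h : Sol2 w κ θ) : Continuous (HH w) := by
  unfold HH
  have h1 := RL_cont h (k := 1) (by norm_num)
  have h2 := RL_cont h (k := 2) (by norm_num)
  have h3 := RL_cont h (k := 3) (by norm_num)
  have hg := gg_cont
  fun_prop

lemma HH_nonneg (t : ℝ) : 0 ≤ HH w t := by
  unfold HH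
  have h1 := gg_nonneg (RL w 1 t - RL w 2 t)
  have h2 := gg_nonneg (RL w 2 t - RL w 3 t)
  linarith

lemma EE_cont (h : Sol2 w κ θ) (K : ℕ) : Continuous (EE w K) := by
  unfold EE
  have h1 := F_cont h.cont K
  have h2 : Continuous (fun t => ∑ l ∈ Ico 1 (K + 1), w l t * cb (K - l)) :=
    continuous_finsetSum _ fun l hl => (h.cont l (Finset.mem_Ico.mp hl).1).mul_const _
  fun_prop

lemma EE_nonneg (h : Sol2 w κ θ) (K : ℕ) (t : ℝ) : 0 ≤ EE w K t := by
  unfold EE
  have h1 := F_le h.nonneg h.sum K t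
  have h2 := cb_nonneg K
  have h3 : 0 ≤ ∑ l ∈ Ico 1 (K + 1), w l t * cb (K - l) := by
    apply Finset.sum_nonneg
    intro l hl
    exact mul_nonneg (h.nonneg l (Finset.mem_Ico.mp hl).1 t) (cb_nonneg _)
  linarith

lemma EE_le (h : Sol2 w κ θ) (K : ℕ) (t : ℝ) : EE w K t ≤ 6 := by
  unfold EE
  have h1 := F_le h.nonneg h.sum K t
  have h1' := F_nonneg h.nonneg K t
  have h2 := cb_le_one K
  have h3 : ∑ l ∈ Ico 1 (K + 1), w l t * cb (K - l) ≤ F w K t := by
    unfold F
    apply Finset.sum_le_sum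
    intro l hl
    have e1 := h.nonneg l (Finset.mem_Ico.mp hl).1 t
    have e2 := cb_le_one (K - l)
    nlinarith
  linarith

lemma EE_tendsto (h : Sol2 w κ θ) (t : ℝ) : Tendsto (fun K => EE w K t) atTop (𝓝 0) := by
  have h1 : Tendsto (fun K => 1 - F w K t) atTop (𝓝 0) := by
    have := (F_tendsto h.sum t).const_sub 1
    simpa using this
  have h2 : Tendsto (fun K => 3 * cb K) atTop (𝓝 0) := by
    have := cb_tendsto.const_mul 3
    simpa using this
  have h3 : Tendsto (fun K : ℕ => ∑ l ∈ Ico 1 (K + 1), w l t * cb (K - l)) atTop (𝓝 0) := by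
    have hT := tendsto_tsum_of_dominated_convergence (𝓕 := (atTop : Filter ℕ))
      (f := fun K i => if i < K then w (i + 1) t * cb (K - (i + 1)) else 0) (g := fun _ : ℕ => (0 : ℝ))
      (bound := fun i => w (i + 1) t) (h.sum t).summable
      (by
        intro i
        have e1 : Tendsto (fun K : ℕ => w (i + 1) t * cb (K - (i + 1))) atTop (𝓝 0) := by
          have := (cb_tendsto.comp (tendsto_sub_atTop_nat (i + 1))).const_mul (w (i + 1) t)
          simpa using this
        apply e1.congr'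
        filter_upwards [eventually_gt_atTop i] with K hK
        simp [hK])
      (by
        apply Eventually.of_forall
        intro K i
        have e1 := h.nonneg (i + 1) (by omega) t
        split_ifs with hi
        · rw [Real.norm_eq_abs, abs_of_nonneg (mul_nonneg e1 (cb_nonneg _))]
          have := cb_le_one (K - (i + 1))
          nlinarith
        · simpa using e1)
    simp only [tsum_zero] at hT
    apply hT.congr
    intro K
    rw [tsum_eq_sum (s := range K)]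
    · rw [Finset.sum_Ico_eq_sum_range]
      simp only [Nat.add_sub_cancel]
      apply Finset.sum_congr rfl
      intro i hi
      rw [if_pos (Finset.mem_range.mp hi), add_comm 1 i]
    · intro i hi
      rw [Finset.mem_range] at hi
      simp [hi]
  have h4 := (h1.add h2).add (h3.const_mul 2)
  simpa [EE] using h4

lemma VV_cont (h : Sol2 w κ θ) (K : ℕ) : Continuous (VV w K) := by
  unfold VV
  apply continuous_finsetSum
  intro k hk
  have hk' := Finset.mem_Ico.mp hk
  have h1 := RL_cont h (k := k) (by omega)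
  have h2 := h.cont k (by omega)
  fun_prop

lemma term_eq (h : Sol2 w κ θ) {k : ℕ} (hk : 1 ≤ k) (t : ℝ) :
    w k t - ca k - ca k * RL w k t = ca k * gg (RL w k t) := by
  unfold gg RL
  rw [Real.exp_log (div_pos (h.pos k hk t) (ca_pos hk))]
  have := ca_pos hk
  field_simp

lemma term_nonneg (h : Sol2 w κ θ) {k : ℕ} (hk : 1 ≤ k) (t : ℝ) :
    0 ≤ (1 / (k : ℝ)) * (w k t - ca k - ca k * RL w k t) := by
  rw [term_eq h hk]
  have h1 := ca_pos hk
  have h2 := gg_nonneg (RL w k t)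
  positivity

lemma VV_nonneg (h : Sol2 w κ θ) (K : ℕ) (t : ℝ) : 0 ≤ VV w K t := by
  unfold VV
  apply Finset.sum_nonneg
  intro k hk
  exact term_nonneg h (by have := (Finset.mem_Ico.mp hk).1; omega) t

lemma VV_three_le (h : Sol2 w κ θ) {K : ℕ} (hK : 3 ≤ K) (t : ℝ) : VV w 3 t ≤ VV w K t := by
  unfold VV
  apply Finset.sum_le_sum_of_subset_of_nonneg (Finset.Ico_subset_Ico_right (by omega))
  intro k hk _
  exact term_nonneg h (by have := (Finset.mem_Ico.mp hk).1; omega) t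

lemma VV_init (h : Sol2 w κ θ) {K : ℕ} (hK : 3 ≤ K) : VV w K 0 ≤ 1 + θ := by
  have h1 : VV w K 0 ≤ ∑ k ∈ Ico 2 (K + 1), (w k 0 + θ * ca k) := by
    unfold VV
    apply Finset.sum_le_sum
    intro k hk
    have hk' := Finset.mem_Ico.mp hk
    have hk1 : 1 ≤ k := by omega
    have c1 := ca_pos hk1
    have c2 := ca_le_one hk1
    have p1 := h.pos k hk1 0
    have k2 : (2 : ℝ) ≤ k := by exact_mod_cast hk'.1
    have i1 := h.init k hk1
    have l1 : -(θ * k) ≤ RL w k 0 := by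
      unfold RL
      rw [Real.log_div p1.ne' c1.ne']
      have a1 : Real.log (ca k) ≤ 0 := Real.log_nonpos c1.le c2
      have a2 : -(θ * k) ≤ Real.log (w k 0) := by
        rw [Real.le_log_iff_exp_le p1]; exact i1
      linarith
    have l2 : w k 0 - ca k - ca k * RL w k 0 ≤ w k 0 + ca k * (θ * k) := by
      have : ca k * (-(θ * k)) ≤ ca k * RL w k 0 := mul_le_mul_of_nonneg_left l1 c1.le
      linarith
    have k3 : (0 : ℝ) ≤ 1 / (k : ℝ) := by positivity
    have l3 := mul_le_mul_of_nonneg_left l2 k3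
    refine le_trans l3 ?_
    have l4 : 1 / (k : ℝ) * (w k 0 + ca k * (θ * k)) = 1 / (k : ℝ) * w k 0 + θ * ca k := by
      field_simp
    rw [l4]
    have l5 : 1 / (k : ℝ) ≤ 1 := by
      rw [div_le_one (by linarith)]; linarith
    have : 1 / (k : ℝ) * w k 0 ≤ 1 * w k 0 := mul_le_mul_of_nonneg_right l5 p1.le
    linarith
  refine le_trans h1 ?_
  rw [Finset.sum_add_distrib, ← Finset.mul_sum, sum_ca2 (by omega), F_split w (by omega)]
  have h2 := F_le h.nonneg h.sum K 0
  have h3 := h.nonneg 1 le_rfl 0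
  have h4 := cb_nonneg K
  have h5 := h.θpos
  nlinarith

lemma VV_deriv (h : Sol2 w κ θ) (K : ℕ) {t : ℝ} (ht : 0 < t) :
    HasDerivAt (VV w K) (∑ k ∈ Ico 2 (K + 1), ((1 / (k : ℝ)) * (1 - ca k / w k t)) *
      (-(k : ℝ) * w k t + ((k : ℝ) / 2) * ∑ l ∈ Ico 1 k, w l t * w (k - l) t)) t := by
  unfold VV
  apply HasDerivAt.fun_sum
  intro k hk
  have hk' := Finset.mem_Ico.mp hk
  have d1 := h.deriv k hk'.1 t ht
  have p1 := h.pos k (by omega) t
  have c1 := ca_pos (k := k) (by omega)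
  have d2 : HasDerivAt (RL w k) ((-(k : ℝ) * w k t + ((k : ℝ) / 2) * ∑ l ∈ Ico 1 k, w l t * w (k - l) t)
      / w k t) t := by
    have := (d1.div_const (ca k)).log (div_pos p1 c1).ne'
    refine this.congr_deriv ?_
    field_simp
  have d3 := ((d1.sub_const (ca k)).sub (d2.const_mul (ca k))).const_mul (1 / (k : ℝ))
  refine d3.congr_deriv ?_
  field_simp

/-- the integrated entropy inequality -/
lemma lyap (h : Sol2 w κ θ) {K : ℕ} (hK : 3 ≤ K) {t : ℝ} (ht : 0 ≤ t) :
    VV w K t + ∫ u in (0 : ℝ)..t, w 1 u * HH w u ≤ 1 + θ + ∫ u in (0 : ℝ)..t, EE w K u := by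
  have hc1 := h.cont 1 le_rfl
  have hcE := EE_cont h K
  have hcH := HH_cont h
  have h1 : VV w K t - VV w K 0 ≤ ∫ u in (0 : ℝ)..t, (EE w K u - w 1 u * HH w u) := by
    apply cmp ht (VV_cont h K).continuousOn (f' := fun t => ∑ k ∈ Ico 2 (K + 1), ((1 / (k : ℝ)) * (1 - ca k / w k t)) *
      (-(k : ℝ) * w k t + ((k : ℝ) / 2) * ∑ l ∈ Ico 1 k, w l t * w (k - l) t))
    · intro u hu
      exact VV_deriv h K hu.1
    · fun_prop
    · intro u hu
      have := static (u := fun j => w j u) (fun k hk => h.pos k hk u) hK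
        (fun K => F_le h.nonneg h.sum K u)
      exact this
  have hi : IntervalIntegrable (fun u => w 1 u * HH w u) volume 0 t :=
    (hc1.mul hcH).intervalIntegrable _ _
  rw [intervalIntegral.integral_sub (hcE.intervalIntegrable _ _) hi] at h1
  have h2 := VV_init h hK
  linarith

lemma lyap_lim (h : Sol2 w κ θ) {t : ℝ} (ht : 0 ≤ t) :
    VV w 3 t + ∫ u in (0 : ℝ)..t, w 1 u * HH w u ≤ 1 + θ := by
  have hlim : Tendsto (fun K => 1 + θ + ∫ u in (0 : ℝ)..t, EE w K u) atTop (𝓝 (1 + θ + 0)) := by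
    apply Tendsto.const_add
    apply bconv (C := 6) (EE_cont h)
    · intro K u
      rw [abs_of_nonneg (EE_nonneg h K u)]
      exact EE_le h K u
    · exact EE_tendsto h
  have := ge_of_tendsto hlim (eventually_atTop.mpr ⟨3, fun K hK => by
    have e1 := lyap h hK ht
    have e2 := VV_three_le h hK t
    linarith⟩ : ∀ᶠ K in atTop, VV w 3 t + ∫ u in (0 : ℝ)..t, w 1 u * HH w u ≤ 
      1 + θ + ∫ u in (0 : ℝ)..t, EE w K u)
  linarith

end

end Pool.Agent.H15.FF
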