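import Pool.Agent.H15.FFBase

set_option autoImplicit false
open Filter Topology Finset MeasureTheory

namespace Pool.Agent.H15.FF

/-- the convexity gap of the exponential -/
noncomputable def gg (y : ℝ) : ℝ := Real.exp y - 1 - y

lemma gg_nonneg (y : ℝ) : 0 ≤ gg y := by
  unfold gg
  have := Real.add_one_le_exp y
  linarith

/-- log-ratio -/
noncomputable def LL (u : ℕ → ℝ) (k : ℕ) : ℝ := Real.log (u k / ca k)

lemma exp_LL {u : ℕ → ℝ} {k : ℕ} (hk : 1 ≤ k) (hu : 0 < u k) :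
    Real.exp (LL u k) = u k / ca k := by
  unfold LL
  exact Real.exp_log (div_pos hu (ca_pos hk))

lemma sum_ca2 {K : ℕ} (hK : 1 ≤ K) : ∑ k ∈ Ico 2 (K + 1), ca k = 1 / 2 - cb K := by
  have h := sum_ca K
  rw [Finset.sum_eq_sum_Ico_succ_bot (by omega : 1 < K + 1), ca_one] at h
  linarith

lemma AK {K : ℕ} (hK : 1 ≤ K) (L : ℕ → ℝ) :
    ∑ k ∈ Ico 2 (K + 1), ∑ l ∈ Ico 1 k, ca l * ca (k - l) * (1 + (L l + L (k - l) - L k - L 1)) =
      1 - 2 * cb K + 2 * cb K * L 1 - 2 * ∑ l ∈ Ico 1 (K + 1), ca l * L l * cb (K - l) := by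
  have e1 : ∀ k ∈ Ico 2 (K + 1), ∑ l ∈ Ico 1 k, ca l * ca (k - l) * (1 + (L l + L (k - l) - L k - L 1)) =
      (1 - L k - L 1) * (2 * ca k) + 2 * ∑ l ∈ Ico 1 k, (ca l * L l) * ca (k - l) := by
    intro k hk
    have hk' := Finset.mem_Ico.mp hk
    have s1 : ∑ l ∈ Ico 1 k, ca l * ca (k - l) * L (k - l) = ∑ l ∈ Ico 1 k, (ca l * L l) * ca (k - l) := by
      have := Finset.sum_Ico_reflect (fun l => (ca l * L l) * ca (k - l)) 1 (m := k) (n := k) (by omega)
      rw [show k + 1 - k = 1 by omega, show k + 1 - 1 = k by omega] at this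
      rw [← this]
      apply Finset.sum_congr rfl
      intro l hl
      have hl' := Finset.mem_Ico.mp hl
      rw [show k - (k - l) = l by omega]
      ring
    have s2 := ca_conv hk'.1
    have s3 : ∑ l ∈ Ico 1 k, ca l * ca (k - l) * (1 + (L l + L (k - l) - L k - L 1)) =
        (1 - L k - L 1) * ∑ l ∈ Ico 1 k, ca l * ca (k - l) +
        ∑ l ∈ Ico 1 k, (ca l * L l) * ca (k - l) + ∑ l ∈ Ico 1 k, ca l * ca (k - l) * L (k - l) := by
      rw [Finset.mul_sum, ← Finset.sum_add_distrib, ← Finset.sum_add_distrib]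
      apply Finset.sum_congr rfl
      intro l _
      ring
    rw [s3, s1, s2]; ring
  rw [Finset.sum_congr rfl e1, Finset.sum_add_distrib, ← Finset.mul_sum]
  rw [tri K (fun l m => (ca l * L l) * ca m)]
  have e2 : ∑ l ∈ Ico 1 (K + 1), ∑ m ∈ Ico 1 (K + 1 - l), (ca l * L l) * ca m =
      ∑ l ∈ Ico 1 (K + 1), ca l * L l - ∑ l ∈ Ico 1 (K + 1), ca l * L l * cb (K - l) := by
    rw [← Finset.sum_sub_distrib]
    apply Finset.sum_congr rfl
    intro l hl
    have hl' := Finset.mem_Ico.mp hl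
    rw [← Finset.mul_sum, show K + 1 - l = (K - l) + 1 by omega, sum_ca]
    ring
  have e3 : ∑ k ∈ Ico 2 (K + 1), (1 - L k - L 1) * (2 * ca k) =
      (1 - L 1) * (2 * ∑ k ∈ Ico 2 (K + 1), ca k) - 2 * ∑ k ∈ Ico 2 (K + 1), ca k * L k := by
    rw [Finset.mul_sum, Finset.mul_sum, Finset.mul_sum, ← Finset.sum_sub_distrib]
    apply Finset.sum_congr rfl
    intro k _
    ring
  have e4 : ∑ l ∈ Ico 1 (K + 1), ca l * L l = 1 / 2 * L 1 + ∑ k ∈ Ico 2 (K + 1), ca k * L k := by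
    rw [Finset.sum_eq_sum_Ico_succ_bot (by omega : 1 < K + 1), ca_one]
  rw [e2, e3, e4, sum_ca2 hK]
  ring

/-- the pointwise form of the dissipation inequality -/
lemma static {u : ℕ → ℝ} (hpos : ∀ k, 1 ≤ k → 0 < u k) {K : ℕ} (hK : 3 ≤ K)
    (hF : ∀ K, ∑ k ∈ Ico 1 (K + 1), u k ≤ 1) :
    ∑ k ∈ Ico 2 (K + 1), ((1 / (k : ℝ)) * (1 - ca k / u k)) *
      (-(k : ℝ) * u k + ((k : ℝ) / 2) * ∑ l ∈ Ico 1 k, u l * u (k - l)) ≤
    (1 - ∑ k ∈ Ico 1 (K + 1), u k) + 3 * cb K + 2 * ∑ l ∈ Ico 1 (K + 1), u l * cb (K - l)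
      - u 1 * (1 / 4 * gg (LL u 1 - LL u 2) + 1 / 8 * gg (LL u 2 - LL u 3)) := by
  set L := LL u with hL
  have hu1 : u 1 ≤ 1 := by simpa using hF 1
  have hu1p := hpos 1 le_rfl
  have hcb := cb_nonneg K
  -- the gain term
  have hD : ∑ k ∈ Ico 2 (K + 1), ∑ l ∈ Ico 1 k, u l * u (k - l) ≤ 1 := by
    rw [tri K (fun l m => u l * u m)]
    refine le_trans ?_ (hF K)
    apply Finset.sum_le_sum
    intro l hl
    have hl' := Finset.mem_Ico.mp hl
    rw [← Finset.mul_sum]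
    have h1 : ∑ m ∈ Ico 1 (K + 1 - l), u m ≤ 1 := by
      have := hF (K - l)
      rwa [show K - l + 1 = K + 1 - l by omega] at this
    have := hpos l hl'.1
    nlinarith
  -- splitting
  have e1 : ∑ k ∈ Ico 2 (K + 1), ((1 / (k : ℝ)) * (1 - ca k / u k)) *
      (-(k : ℝ) * u k + ((k : ℝ) / 2) * ∑ l ∈ Ico 1 k, u l * u (k - l)) =
      - ∑ k ∈ Ico 2 (K + 1), u k + ∑ k ∈ Ico 2 (K + 1), ca k +
      (1 / 2) * ∑ k ∈ Ico 2 (K + 1), ∑ l ∈ Ico 1 k, u l * u (k - l)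
      - (1 / 2) * ∑ k ∈ Ico 2 (K + 1), ∑ l ∈ Ico 1 k, (ca k / u k) * (u l * u (k - l)) := by
    rw [← Finset.sum_neg_distrib, ← Finset.sum_add_distrib, Finset.mul_sum, ← Finset.sum_add_distrib,
      Finset.mul_sum, ← Finset.sum_sub_distrib]
    apply Finset.sum_congr rfl
    intro k hk
    have hk' := Finset.mem_Ico.mp hk
    have h2 : (2 : ℝ) ≤ k := by exact_mod_cast hk'.1
    have h3 := hpos k (by omega)
    rw [← Finset.mul_sum]
    field_simp
    ring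
  have e2 : ∑ k ∈ Ico 2 (K + 1), ∑ l ∈ Ico 1 k, (ca k / u k) * (u l * u (k - l)) =
      (2 * u 1) * ∑ k ∈ Ico 2 (K + 1), ∑ l ∈ Ico 1 k,
        ca l * ca (k - l) * Real.exp (L l + L (k - l) - L k - L 1) := by
    rw [Finset.mul_sum]
    apply Finset.sum_congr rfl
    intro k hk
    have hk' := Finset.mem_Ico.mp hk
    rw [Finset.mul_sum]
    apply Finset.sum_congr rfl
    intro l hl
    have hl' := Finset.mem_Ico.mp hl
    have p1 := hpos l hl'.1
    have p2 := hpos (k - l) (by omega)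
    have p3 := hpos k (by omega)
    have c1 := ca_pos hl'.1
    have c2 := ca_pos (k := k - l) (by omega)
    have c3 := ca_pos (k := k) (by omega)
    rw [Real.exp_sub, Real.exp_sub, Real.exp_add, exp_LL hl'.1 p1, exp_LL (by omega) p2,
      exp_LL (by omega) p3, exp_LL le_rfl hu1p, ca_one]
    field_simp
  have e3 : ∑ k ∈ Ico 2 (K + 1), ∑ l ∈ Ico 1 k,
        ca l * ca (k - l) * Real.exp (L l + L (k - l) - L k - L 1) =
      ∑ k ∈ Ico 2 (K + 1), ∑ l ∈ Ico 1 k, ca l * ca (k - l) * (1 + (L l + L (k - l) - L k - L 1)) +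
      ∑ k ∈ Ico 2 (K + 1), ∑ l ∈ Ico 1 k, ca l * ca (k - l) * gg (L l + L (k - l) - L k - L 1) := by
    rw [← Finset.sum_add_distrib]
    apply Finset.sum_congr rfl
    intro k _
    rw [← Finset.sum_add_distrib]
    apply Finset.sum_congr rfl
    intro l _
    unfold gg
    ring
  have e4 : 1 / 4 * gg (L 1 - L 2) + 1 / 8 * gg (L 2 - L 3) ≤
      ∑ k ∈ Ico 2 (K + 1), ∑ l ∈ Ico 1 k, ca l * ca (k - l) * gg (L l + L (k - l) - L k - L 1) := by
    have hsub : Ico 2 4 ⊆ Ico 2 (K + 1) := Finset.Ico_subset_Ico_right (by omega)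
    have h1 : ∑ k ∈ Ico 2 4, ∑ l ∈ Ico 1 k, ca l * ca (k - l) * gg (L l + L (k - l) - L k - L 1) ≤
        ∑ k ∈ Ico 2 (K + 1), ∑ l ∈ Ico 1 k, ca l * ca (k - l) * gg (L l + L (k - l) - L k - L 1) := by
      apply Finset.sum_le_sum_of_subset_of_nonneg hsub
      intro k hk _
      have hk' := Finset.mem_Ico.mp hk
      apply Finset.sum_nonneg
      intro l hl
      have hl' := Finset.mem_Ico.mp hl
      have c1 := ca_pos hl'.1
      have c2 := ca_pos (k := k - l) (by omega)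
      have := gg_nonneg (L l + L (k - l) - L k - L 1)
      positivity
    refine le_trans (le_of_eq ?_) h1
    have s1 : (Ico 2 4 : Finset ℕ) = {2, 3} := by decide
    have s2 : (Ico 1 2 : Finset ℕ) = {1} := by decide
    have s3 : (Ico 1 3 : Finset ℕ) = {1, 2} := by decide
    rw [s1, Finset.sum_pair (by norm_num), s2, s3, Finset.sum_singleton, Finset.sum_pair (by norm_num)]
    norm_num only
    rw [ca_one, ca_two]
    rw [show L 1 + L 1 - L 2 - L 1 = L 1 - L 2 by ring, show L 1 + L 2 - L 3 - L 1 = L 2 - L 3 by ring,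
      show L 2 + L 1 - L 3 - L 1 = L 2 - L 3 by ring]
    ring
  have e5 := AK (K := K) (by omega) L
  -- bounds for the error terms
  have e6 : - (2 * u 1 * L 1) ≤ 1 := by
    have r : 0 < u 1 / ca 1 := div_pos hu1p (ca_pos le_rfl)
    have h1 := Real.log_le_sub_one_of_pos (inv_pos.mpr r)
    rw [Real.log_inv] at h1
    have h2 : L 1 = Real.log (u 1 / ca 1) := rfl
    rw [← h2] at h1
    rw [ca_one] at h1 r
    have h3 : (u 1 / (1 / 2))⁻¹ = 1 / (2 * u 1) := by field_simp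
    rw [h3] at h1
    have h4 : -L 1 * (2 * u 1) ≤ (1 / (2 * u 1) - 1) * (2 * u 1) :=
      mul_le_mul_of_nonneg_right h1 (by positivity)
    have h5 : (1 / (2 * u 1) - 1) * (2 * u 1) = 1 - 2 * u 1 := by field_simp
    linarith
  have e7 : ∑ l ∈ Ico 1 (K + 1), ca l * L l * cb (K - l) ≤ ∑ l ∈ Ico 1 (K + 1), u l * cb (K - l) := by
    apply Finset.sum_le_sum
    intro l hl
    have hl' := Finset.mem_Ico.mp hl
    have p1 := hpos l hl'.1
    have c1 := ca_pos hl'.1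
    apply mul_le_mul_of_nonneg_right _ (cb_nonneg _)
    have h1 := Real.log_le_sub_one_of_pos (div_pos p1 c1)
    have h2 : L l = Real.log (u l / ca l) := rfl
    rw [← h2] at h1
    have h3 : ca l * L l ≤ ca l * (u l / ca l - 1) := mul_le_mul_of_nonneg_left h1 c1.le
    have h4 : ca l * (u l / ca l - 1) = u l - ca l := by field_simp
    linarith
  have e8 : 0 ≤ ∑ l ∈ Ico 1 (K + 1), u l * cb (K - l) := by
    apply Finset.sum_nonneg
    intro l hl
    have hl' := Finset.mem_Ico.mp hl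
    exact mul_nonneg (hpos l hl'.1).le (cb_nonneg _)
  have e9 : ∑ k ∈ Ico 2 (K + 1), u k = ∑ k ∈ Ico 1 (K + 1), u k - u 1 := by
    rw [Finset.sum_eq_sum_Ico_succ_bot (by omega : 1 < K + 1)]; ring
  rw [e1, e2, e3, e5, e9, sum_ca2 (by omega)]
  set S1 := ∑ l ∈ Ico 1 (K + 1), ca l * L l * cb (K - l)
  set S2 := ∑ l ∈ Ico 1 (K + 1), u l * cb (K - l)
  set S3 := ∑ k ∈ Ico 2 (K + 1), ∑ l ∈ Ico 1 k, ca l * ca (k - l) * gg (L l + L (k - l) - L k - L 1)
  have f1 : u 1 * S1 ≤ S2 := by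
    calc u 1 * S1 ≤ u 1 * S2 := mul_le_mul_of_nonneg_left e7 hu1p.le
      _ ≤ 1 * S2 := mul_le_mul_of_nonneg_right hu1 e8
      _ = S2 := one_mul _
  have f2 : u 1 * (1 / 4 * gg (L 1 - L 2) + 1 / 8 * gg (L 2 - L 3)) ≤ u 1 * S3 :=
    mul_le_mul_of_nonneg_left e4 hu1p.le
  have f3 : cb K * (- (2 * u 1 * L 1)) ≤ cb K * 1 := mul_le_mul_of_nonneg_left e6 hcb
  have f4 : u 1 * cb K ≤ 1 * cb K := mul_le_mul_of_nonneg_right hu1 hcb
  nlinarith

end Pool.Agent.H15.FF
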