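import Pool.Agent.H15.FFConv

set_option autoImplicit false
open Filter Topology Finset MeasureTheory

namespace Pool.Agent.H15.FF

lemma sol_of {v : ℕ → ℝ → ℝ}
    (h1 : ∀ k : ℕ, 1 ≤ k → ∀ t : ℝ, 0 ≤ t → 0 ≤ v k t)
    (h2 : ∀ t : ℝ, 0 ≤ t → HasSum (fun k : ℕ => v (k + 1) t) 1)
    (h3 : ∀ k : ℕ, 1 ≤ k → ContinuousOn (v k) (Set.Ici 0))
    (h4 : ∀ k : ℕ, 2 ≤ k → ∀ t : ℝ, 0 < t →
      HasDerivAt (v k)
        (-(k : ℝ) * v k t + ((k : ℝ) / 2) * ∑ l ∈ Finset.Ico 1 k, v l t * v (k - l) t) t) :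
    Sol (fun k t => v k (max t 0)) where
  nonneg k hk t := h1 k hk _ (le_max_right _ _)
  sum t := h2 _ (le_max_right _ _)
  cont k hk := (h3 k hk).comp_continuous (by fun_prop) (fun t => Set.mem_Ici.mpr (le_max_right _ _))
  deriv k hk t ht := by
    have e : max t 0 = t := max_eq_left ht.le
    simp only [e]
    apply (h4 k hk t ht).congr_of_eventuallyEq
    filter_upwards [lt_mem_nhds ht] with s hs
    rw [max_eq_left (le_of_lt hs)]

lemma sol2_of {v : ℕ → ℝ → ℝ} (h : Sol v) :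
    Sol2 (fun k t => v k (max t 0 + 3)) (1 / 4 * Real.exp (-2)) (3 + Real.log 4) where
  pos k hk t := pos_of h hk (by have := le_max_right t 0; linarith)
  sum t := h.sum _
  cont k hk := (h.cont k hk).comp (by fun_prop)
  deriv k hk t ht := by
    have e : max t 0 = t := max_eq_left ht.le
    simp only [e]
    have := (h.deriv k hk (t + 3) (by linarith)).comp_add_const t 3
    apply this.congr_of_eventuallyEq
    filter_upwards [lt_mem_nhds ht] with s hs
    rw [max_eq_left (le_of_lt hs)]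
  κpos := by positivity
  low t := by
    have := low h (t := max t 0 + 3) (by have := le_max_right t 0; linarith)
    have e : Real.exp (-2) * Real.exp 2 = 1 := by rw [← Real.exp_add]; simp
    have h2 := mul_le_mul_of_nonneg_left this (Real.exp_pos (-2)).le
    rw [← mul_assoc, e, one_mul] at h2
    linarith
  mono s t hs hst := by
    have e1 : max s 0 = s := max_eq_left hs
    have e2 : max t 0 = t := max_eq_left (le_trans hs hst)
    simp only [e1, e2]
    have := emono h (s := s + 3) (t := t + 3) (by linarith) (by linarith)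
    rw [Real.exp_add, Real.exp_add] at this
    have h3 := Real.exp_pos 3
    have h4 : Real.exp 3 * (Real.exp s * v 1 (s + 3)) ≤ Real.exp 3 * (Real.exp t * v 1 (t + 3)) := by
      linarith
    exact le_of_mul_le_mul_left h4 h3
  θpos := by
    have := Real.log_nonneg (show (1 : ℝ) ≤ 4 by norm_num)
    linarith
  init k hk := by
    have := init_of h hk
    simp only [max_self, zero_add]
    refine le_trans (le_of_eq ?_) this
    have e : Real.exp (-3) / 4 = Real.exp (-(3 + Real.log 4)) := by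
      rw [neg_add, Real.exp_add, Real.exp_neg (Real.log 4), Real.exp_log (by norm_num)]
      ring
    rw [e, ← Real.exp_nat_mul]
    congr 1
    ring

theorem main {v : ℕ → ℝ → ℝ}
    (h1 : ∀ k : ℕ, 1 ≤ k → ∀ t : ℝ, 0 ≤ t → 0 ≤ v k t)
    (h2 : ∀ t : ℝ, 0 ≤ t → HasSum (fun k : ℕ => v (k + 1) t) 1)
    (h3 : ∀ k : ℕ, 1 ≤ k → ContinuousOn (v k) (Set.Ici 0))
    (h4 : ∀ k : ℕ, 2 ≤ k → ∀ t : ℝ, 0 < t →
      HasDerivAt (v k)
        (-(k : ℝ) * v k t + ((k : ℝ) / 2) * ∑ l ∈ Finset.Ico 1 k, v l t * v (k - l) t) t)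
    (k : ℕ) (hk : 1 ≤ k) :
    Tendsto (fun t : ℝ => v k t) atTop
        (𝓝 ((Nat.centralBinom k : ℝ) / ((2 * (k : ℝ) - 1) * 4 ^ k))) := by
  have h := conv_all (sol2_of (sol_of h1 h2 h3 h4)) k hk
  have h5 := h.comp (tendsto_atTop_add_const_right atTop (-3 : ℝ) tendsto_id)
  apply h5.congr'
  filter_upwards [eventually_ge_atTop (3 : ℝ)] with t ht
  simp only [Function.comp, id]
  rw [max_eq_left (show (0 : ℝ) ≤ t + -3 by linarith)]
  rw [show t + -3 + 3 = t by ring, max_eq_left (by linarith)]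

end Pool.Agent.H15.FF
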