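import Pool.Agent.H15.FFCont

set_option autoImplicit false
open Filter Topology Finset

namespace Pool.Agent.H15.FF

/-- pointwise convergence of probability vectors to a probability vector is convergence in `ℓ¹` -/
lemma scheffe {u : ℝ → ℕ → ℝ} {w : ℕ → ℝ}
    (hu : ∀ᶠ t in atTop, (∀ k, 0 ≤ u t k) ∧ HasSum (u t) 1)
    (hw : ∀ k, 0 ≤ w k) (hw1 : HasSum w 1)
    (hc : ∀ k, Tendsto (fun t => u t k) atTop (𝓝 (w k))) :
    Tendsto (fun t => ∑' k, |u t k - w k|) atTop (𝓝 0) := by
  have h1 : Tendsto (fun t => ∑' k, max (w k - u t k) 0) atTop (𝓝 (∑' _ : ℕ, (0 : ℝ))) := by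
    apply tendsto_tsum_of_dominated_convergence (bound := w) hw1.summable
    · intro k
      have := (tendsto_const_nhds (x := w k)).sub (hc k)
      have h2 := this.max (tendsto_const_nhds (x := (0 : ℝ)))
      simpa using h2
    · filter_upwards [hu] with t ht
      intro k
      rw [Real.norm_eq_abs, abs_of_nonneg (le_max_right _ _)]
      exact max_le (by have := ht.1 k; linarith) (hw k)
  have h2 := h1.const_mul 2
  simp only [tsum_zero, mul_zero] at h2
  apply h2.congr'
  filter_upwards [hu] with t ht
  have hs : Summable (fun k => max (w k - u t k) 0) := by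
    apply Summable.of_nonneg_of_le (fun k => le_max_right _ _) _ hw1.summable
    intro k
    exact max_le (by have := ht.1 k; linarith) (hw k)
  have e : ∀ k, |u t k - w k| = 2 * max (w k - u t k) 0 + (u t k - w k) := by
    intro k
    rcases le_total (w k) (u t k) with h | h
    · rw [abs_of_nonneg (by linarith), max_eq_right (by linarith)]; ring
    · rw [abs_of_nonpos (by linarith), max_eq_left (by linarith)]; ring
  simp only [e]
  have h3 := (hs.hasSum.mul_left 2).add (ht.2.sub hw1)
  rw [h3.tsum_eq]
  ring

end Pool.Agent.H15.FF
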